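import Mathlib

namespace Pool.Agent.Lib.MP_233c29_an

noncomputable section

abbrev F2 := ZMod 2
abbrev Ch (V : Type) := List V →₀ F2

variable {V W U : Type} {M N : Type} [AddCommGroup M] [Module F2 M] [AddCommGroup N] [Module F2 N]

def pt (l : List V) : Ch V := Finsupp.single l 1

def lc (f : List V → M) : Ch V →ₗ[F2] M := Finsupp.linearCombination F2 f

@[simp] lemma lc_pt (f : List V → M) (l : List V) : lc f (pt l) = f l := by
  simp [lc, pt]

lemma two (x : M) : x + x = 0 := ZModModule.add_self x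

lemma ch_ext {f g : Ch V →ₗ[F2] M} (h : ∀ l, f (pt l) = g (pt l)) : f = g := by
  apply Finsupp.lhom_ext
  intro a b
  have : Finsupp.single a b = b • pt a := by simp [pt]
  rw [this, map_smul, map_smul, h]

lemma ch_eq (f g : Ch V →ₗ[F2] M) (h : ∀ l, f (pt l) = g (pt l)) (c : Ch V) : f c = g c := by
  rw [ch_ext h]

lemma map_lc (L : M →ₗ[F2] N) (f : List V → M) (c : Ch V) :
    L (lc f c) = lc (fun l => L (f l)) c :=
  ch_eq (L ∘ₗ lc f) _ (by simp) c

lemma lc_add (f g : List V → M) (c : Ch V) : lc (fun l => f l + g l) c = lc f c + lc g c :=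
  ch_eq _ (lc f + lc g) (by simp) c

lemma lc_zero (c : Ch V) : lc (fun _ => (0 : M)) c = 0 :=
  ch_eq _ 0 (by simp) c

lemma lc_sum {ι : Type} (s : Finset ι) (f : ι → List V → M) (c : Ch V) :
    lc (fun l => ∑ i ∈ s, f i l) c = ∑ i ∈ s, lc (f i) c :=
  (ch_eq _ (∑ i ∈ s, lc (f i)) (by simp) c).trans (by simp)

lemma lc_self (c : Ch V) : lc pt c = c := ch_eq _ LinearMap.id (by simp) c

def All (P : List V → Prop) (c : Ch V) : Prop := ∀ l, c l ≠ 0 → P l

lemma All.zero {P : List V → Prop} : All P 0 := fun _ h => (h rfl).elim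

lemma All.add {P : List V → Prop} {c d : Ch V} (hc : All P c) (hd : All P d) : All P (c + d) := by
  intro l h
  by_cases h1 : c l = 0
  · apply hd; intro h2; apply h; simp [h1, h2]
  · exact hc l h1

lemma All.single {P : List V → Prop} {l : List V} (h : P l) : All P (pt l) := by
  intro t ht
  have : t = l := by
    by_contra hne
    exact ht (Finsupp.single_eq_of_ne hne)
  rwa [this]

lemma All.smul {P : List V → Prop} {c : Ch V} (a : F2) (hc : All P c) : All P (a • c) := by
  intro l h
  apply hc; intro h2; apply h; simp [h2]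

lemma All.sum {P : List V → Prop} {ι : Type} (s : Finset ι) {f : ι → Ch V}
    (h : ∀ i ∈ s, All P (f i)) : All P (∑ i ∈ s, f i) :=
  Finset.sum_induction f (All P) (fun _ _ => All.add) All.zero h

lemma All.mono {P Q : List V → Prop} {c : Ch V} (hc : All P c) (h : ∀ l, P l → Q l) : All Q c :=
  fun l hl => h l (hc l hl)

lemma All.and {P Q : List V → Prop} {c : Ch V} (hc : All P c) (hd : All Q c) :
    All (fun l => P l ∧ Q l) c := fun l hl => ⟨hc l hl, hd l hl⟩

lemma lc_apply (f : List V → M) (c : Ch V) : lc f c = ∑ l ∈ c.support, c l • f l := by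
  simp [lc, Finsupp.linearCombination_apply, Finsupp.sum]

lemma All.bind {P : List V → Prop} {Q : List W → Prop} {c : Ch V} (hc : All P c)
    {f : List V → Ch W} (h : ∀ l, P l → All Q (f l)) : All Q (lc f c) := by
  rw [lc_apply]
  exact All.sum _ fun l hl => All.smul _ (h l (hc l (Finsupp.mem_support_iff.1 hl)))

lemma All.congr {P : List V → Prop} {c : Ch V} (hc : All P c) {f g : List V → M}
    (h : ∀ l, P l → f l = g l) : lc f c = lc g c := by
  rw [lc_apply, lc_apply]
  exact Finset.sum_congr rfl fun l hl => by rw [h l (hc l (Finsupp.mem_support_iff.1 hl))]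

lemma All.lc_eq_zero {P : List V → Prop} {c : Ch V} (hc : All P c) {f : List V → M}
    (h : ∀ l, P l → f l = 0) : lc f c = 0 := by
  rw [hc.congr h, lc_zero]

lemma All.exists_ne {P : List V → Prop} {c : Ch V} (hc : All P c) {f : List V → M}
    (h : lc f c ≠ 0) : ∃ l, P l ∧ f l ≠ 0 := by
  by_contra hn
  push Not at hn
  exact h (hc.lc_eq_zero hn)

lemma All.map {P : List V → Prop} {Q : List W → Prop} {c : Ch V} (hc : All P c)
    (L : Ch V →ₗ[F2] Ch W) (h : ∀ l, P l → All Q (L (pt l))) : All Q (L c) := by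
  rw [← lc_self c, map_lc]
  exact hc.bind h

def consL (x : V) : Ch V →ₗ[F2] Ch V := lc fun l => pt (x :: l)

def mapL (f : V → W) : Ch V →ₗ[F2] Ch W := lc fun l => pt (l.map f)

@[simp] lemma consL_pt (x : V) (l : List V) : consL x (pt l) = pt (x :: l) := lc_pt _ _

@[simp] lemma mapL_pt (f : V → W) (l : List V) : mapL f (pt l) = pt (l.map f) := lc_pt _ _

def bdL : List V → Ch V
  | [] => 0
  | x :: l => pt l + consL x (bdL l)

def bd : Ch V →ₗ[F2] Ch V := lc bdL

@[simp] lemma bd_pt (l : List V) : bd (pt l) = bdL l := lc_pt _ _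

lemma bd_cons (x : V) (c : Ch V) : bd (consL x c) = c + consL x (bd c) :=
  ch_eq (bd ∘ₗ consL x) (LinearMap.id + consL x ∘ₗ bd) (by simp [bdL]) c

lemma bd_bdL (l : List V) : bd (bdL l) = 0 := by
  induction l with
  | nil => simp [bdL]
  | cons x l ih => simp [bdL, bd_cons, ih, two]

lemma bd_bd (c : Ch V) : bd (bd c) = 0 := ch_eq (bd ∘ₗ bd) 0 (by simp [bd_bdL]) c

lemma mapL_cons (f : V → W) (x : V) (c : Ch V) : mapL f (consL x c) = consL (f x) (mapL f c) :=
  ch_eq (mapL f ∘ₗ consL x) (consL (f x) ∘ₗ mapL f) (by simp) c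

lemma mapL_bdL (f : V → W) (l : List V) : mapL f (bdL l) = bdL (l.map f) := by
  induction l with
  | nil => simp [bdL]
  | cons x l ih => simp [bdL, mapL_cons, ih]

lemma bd_mapL (f : V → W) (c : Ch V) : bd (mapL f c) = mapL f (bd c) :=
  ch_eq (bd ∘ₗ mapL f) (mapL f ∘ₗ bd) (by simp [mapL_bdL]) c

lemma mapL_mapL (f : V → W) (g : W → U) (c : Ch V) : mapL g (mapL f c) = mapL (g ∘ f) c :=
  ch_eq (mapL g ∘ₗ mapL f) _ (by simp) c

lemma all_bdL (l : List V) :
    All (fun t => t.length + 1 = l.length ∧ ∀ x ∈ t, x ∈ l) (bdL l) := by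
  induction l with
  | nil => exact All.zero
  | cons x l ih =>
    refine All.add (All.single ⟨by simp, fun y hy => by simp [hy]⟩) (ih.map _ fun t ht => ?_)
    rw [consL_pt]
    refine All.single ⟨by simp [ht.1], fun y hy => ?_⟩
    rcases List.mem_cons.1 hy with h | h
    · simp [h]
    · simp [ht.2 y h]

def nil : List V → F2
  | [] => 1
  | _ :: _ => 0

@[simp] lemma nil_cons (x : V) (l : List V) : nil (x :: l) = 0 := rfl

@[simp] lemma nil_nil : nil ([] : List V) = 1 := rfl

def nilL : Ch V →ₗ[F2] F2 := lc nil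

@[simp] lemma nilL_pt (l : List V) : nilL (pt l) = nil l := lc_pt _ _

@[simp] lemma nilL_cons (x : V) (c : Ch V) : nilL (consL x c) = 0 :=
  ch_eq (nilL ∘ₗ consL x) 0 (by simp [nil]) c

lemma nilL_eq_zero {c : Ch V} (h : All (fun t => t ≠ []) c) : nilL c = 0 :=
  h.lc_eq_zero fun l hl => by
    cases l with
    | nil => exact (hl rfl).elim
    | cons x l => rfl

lemma nilL_bd_eq_zero {c : Ch V} (h : All (fun t => 2 ≤ t.length) c) : nilL (bd c) = 0 := by
  apply nilL_eq_zero
  refine h.map _ fun l hl => ?_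
  rw [bd_pt]
  refine (all_bdL l).mono fun t ht e => ?_
  have := ht.1
  simp [e] at this
  omega

/-! ### shuffle product -/

def sh : List V → List W → Ch (V × W)
  | [], _ => 0
  | _ :: _, [] => 0
  | x :: as, y :: bs =>
    consL (x, y) (sh as (y :: bs) + sh (x :: as) bs + (nil as * nil bs) • pt [])
termination_by a b => a.length + b.length

def SH : Ch V →ₗ[F2] Ch W →ₗ[F2] Ch (V × W) := lc fun a => lc fun b => sh a b

@[simp] lemma SH_pt (a : List V) (b : List W) : SH (pt a) (pt b) = sh a b := by simp [SH]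

lemma sh_nil_left (b : List W) : sh ([] : List V) b = 0 := by rw [sh]

lemma sh_nil_right (a : List V) : sh a ([] : List W) = 0 := by
  cases a <;> rw [sh]

lemma bil_eq (f g : Ch V →ₗ[F2] Ch W →ₗ[F2] M) (h : ∀ a b, f (pt a) (pt b) = g (pt a) (pt b))
    (u : Ch V) (v : Ch W) : f u v = g u v := by
  rw [ch_ext (f := f) (g := g) fun a => ch_ext (h a)]

@[simp] lemma SH_nil_left (v : Ch W) : SH (pt ([] : List V)) v = 0 :=
  ch_eq _ 0 (by simp [sh_nil_left]) v

@[simp] lemma SH_nil_right (u : Ch V) : SH u (pt ([] : List W)) = 0 :=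
  ch_eq (SH.flip (pt [])) 0 (by simp [sh_nil_right]) u

lemma SH_cons_left (x : V) (y : W) (u : Ch V) (bs : List W) :
    SH (consL x u) (pt (y :: bs)) = consL (x, y)
      (SH u (pt (y :: bs)) + SH (consL x u) (pt bs) + (nilL u * nil bs) • pt []) :=
  ch_eq (SH.flip (pt (y :: bs)) ∘ₗ consL x)
    (consL (x, y) ∘ₗ (SH.flip (pt (y :: bs)) + SH.flip (pt bs) ∘ₗ consL x +
      (nilL.smulRight ((nil bs) • pt [])))) (by
      intro l
      simp [sh, mul_smul]) u |>.trans (by simp [mul_smul])

lemma SH_cons_right (x : V) (y : W) (as : List V) (v : Ch W) :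
    SH (pt (x :: as)) (consL y v) = consL (x, y)
      (SH (pt as) (consL y v) + SH (pt (x :: as)) v + (nil as * nilL v) • pt []) :=
  ch_eq (SH (pt (x :: as)) ∘ₗ consL y)
    (consL (x, y) ∘ₗ (SH (pt as) ∘ₗ consL y + SH (pt (x :: as)) +
      (nilL.smulRight ((nil as) • pt [])))) (by
      intro l
      simp [sh, mul_smul, smul_comm (nil as)]) v |>.trans (by simp [mul_smul, smul_comm (nil as)])

lemma bd_sh (a : List V) (b : List W) : bd (sh a b) = SH (bdL a) (pt b) + SH (pt a) (bdL b) +
    (nilL (bdL a) * nilL (bdL b)) • pt [] := by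
  induction a generalizing b with
  | nil => simp [sh_nil_left, bdL]
  | cons x as iha =>
    induction b with
    | nil => simp [sh_nil_right, bdL]
    | cons y bs ihb =>
      rw [sh, bd_cons, bd.map_add, bd.map_add, iha, ihb]
      simp only [bdL, map_add, LinearMap.add_apply, SH_cons_left, SH_cons_right, SH_pt, nilL_pt,
        nilL_cons, map_smul, bd_pt, add_zero, smul_zero, nil_cons, nil_nil, mul_zero, zero_mul]
      have h2 := two (consL (x, y) (sh as bs))
      linear_combination (norm := module) h2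

lemma bd_SH (u : Ch V) (v : Ch W) : bd (SH u v) = SH (bd u) v + SH u (bd v) +
    (nilL (bd u) * nilL (bd v)) • pt [] :=
  (bil_eq (SH.compr₂ bd) (SH ∘ₗ bd + SH.compl₂ bd +
    ((LinearMap.mul F2 F2).compl₁₂ (nilL ∘ₗ bd) (nilL ∘ₗ bd)).compr₂
      (LinearMap.toSpanSingleton F2 _ (pt []))) (by simp [bd_sh]) u v).trans (by simp)

lemma swap_sh (a : List V) (b : List W) : mapL Prod.swap (sh a b) = sh b a := by
  induction a generalizing b with
  | nil => simp [sh_nil_left, sh_nil_right]
  | cons x as iha =>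
    induction b with
    | nil => simp [sh_nil_left, sh_nil_right]
    | cons y bs ihb =>
      rw [sh, sh, mapL_cons, (mapL _).map_add, (mapL _).map_add, iha, ihb,
        add_comm (sh (y :: bs) as), mul_comm]
      simp

lemma swap_SH (u : Ch V) (v : Ch W) : mapL Prod.swap (SH u v) = SH v u :=
  bil_eq (SH.compr₂ (mapL Prod.swap)) SH.flip (by simp [swap_sh]) u v

lemma sh_single (a : List V) (y : W) :
    sh a [y] = pt (a.map fun x => (x, y)) + nil a • pt [] := by
  induction a with
  | nil => simp [sh_nil_left, nil, two]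
  | cons x as ih =>
    rw [sh, ih, sh_nil_right]
    simp [nil, add_assoc, two]

lemma SH_single (u : Ch V) (y : W) :
    SH u (pt [y]) = mapL (fun x => (x, y)) u + nilL u • pt [] :=
  (ch_eq (SH.flip (pt [y])) (mapL (fun x => (x, y)) + nilL.smulRight (pt []))
    (by simp [sh_single]) u).trans (by simp)

lemma all_sh (a : List V) (b : List W) :
    All (fun t => t.length + 1 = a.length + b.length ∧ ∀ z ∈ t, z.1 ∈ a ∧ z.2 ∈ b) (sh a b) := by
  induction a generalizing b with
  | nil => rw [sh_nil_left]; exact All.zero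
  | cons x as iha =>
    induction b with
    | nil => rw [sh_nil_right]; exact All.zero
    | cons y bs ihb =>
      rw [sh]
      have key : All (fun t => t.length = as.length + bs.length ∧
          ∀ z ∈ t, z.1 ∈ x :: as ∧ z.2 ∈ y :: bs)
          (sh as (y :: bs) + sh (x :: as) bs + (nil as * nil bs) • pt []) := by
        refine All.add (All.add ((iha _).mono fun t ht => ⟨?_, fun z hz => ?_⟩)
          (ihb.mono fun t ht => ⟨?_, fun z hz => ?_⟩)) ?_
        · have := ht.1; simp at this; omega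
        · exact ⟨List.mem_cons_of_mem _ (ht.2 z hz).1, (ht.2 z hz).2⟩
        · have := ht.1; simp at this; omega
        · exact ⟨(ht.2 z hz).1, List.mem_cons_of_mem _ (ht.2 z hz).2⟩
        · cases as with
          | cons _ _ => simp [nil, All.zero]
          | nil =>
            cases bs with
            | cons _ _ => simp [nil, All.zero]
            | nil => exact All.smul _ (All.single (by simp))
      refine key.map _ fun t ht => ?_
      rw [consL_pt]
      refine All.single ⟨by simp [ht.1]; omega, fun z hz => ?_⟩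
      rcases List.mem_cons.1 hz with h | h
      · simp [h]
      · exact ht.2 z h

lemma All.SH {P : List V → Prop} {Q : List W → Prop} {u : Ch V} {v : Ch W} (hu : All P u)
    (hv : All Q v) : All (fun t => ∃ a b, P a ∧ Q b ∧ t.length + 1 = a.length + b.length ∧
      ∀ z ∈ t, z.1 ∈ a ∧ z.2 ∈ b) (MP_233c29_an.SH u v) :=
  hu.map (MP_233c29_an.SH.flip v) fun a ha => hv.map (MP_233c29_an.SH (pt a)) fun b hb => by
    rw [SH_pt]
    exact (all_sh a b).mono fun t ht => ⟨a, b, ha, hb, ht⟩

lemma All.mapL {P : List V → Prop} {Q : List W → Prop} {c : Ch V} (hc : All P c) (f : V → W)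
    (h : ∀ l, P l → Q (l.map f)) : All Q (MP_233c29_an.mapL f c) :=
  hc.map _ fun l hl => by rw [mapL_pt]; exact All.single (h l hl)

/-! ### the path chain -/

def path (L : ℕ) : Ch ℕ := ∑ t ∈ Finset.range L, pt [t, t + 1]

lemma bd_path (L : ℕ) : bd (path L) = pt [0] + pt [L] := by
  induction L with
  | zero => simp [path, two]
  | succ L ih =>
    rw [path, Finset.sum_range_succ, map_add, ← path, ih]
    simp only [bd_pt, bdL, map_zero, consL_pt, add_zero]
    have h2 := two (pt [L])
    linear_combination (norm := module) h2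

lemma all_path (L : ℕ) : All (fun l => ∃ t < L, l = [t, t + 1]) (path L) :=
  All.sum _ fun t ht => All.single ⟨t, Finset.mem_range.1 ht, rfl⟩

/-! ### Alexander-Whitney sums -/

def aw (B : Ch V →ₗ[F2] Ch V →ₗ[F2] M) : List V → M
  | [] => 0
  | x :: l => B (pt [x]) (pt (x :: l)) + aw (B ∘ₗ consL x) l

lemma aw_eq (B : Ch V →ₗ[F2] Ch V →ₗ[F2] M) (l : List V) :
    aw B l = ∑ i ∈ Finset.range l.length, B (pt (l.take (i + 1))) (pt (l.drop i)) := by
  induction l generalizing B with
  | nil => simp [aw]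
  | cons x l ih =>
    rw [aw, ih, List.length_cons, Finset.sum_range_succ', add_comm]
    simp

lemma aw_add (B C : Ch V →ₗ[F2] Ch V →ₗ[F2] M) (l : List V) :
    aw (B + C) l = aw B l + aw C l := by
  simp [aw_eq, Finset.sum_add_distrib]

lemma lc_aw_cons (B : Ch V →ₗ[F2] Ch V →ₗ[F2] M) (x : V) (c : Ch V) :
    lc (aw B) (consL x c) = B (pt [x]) (consL x c) + lc (aw (B ∘ₗ consL x)) c :=
  ch_eq (lc (aw B) ∘ₗ consL x) (B (pt [x]) ∘ₗ consL x + lc (aw (B ∘ₗ consL x)))
    (by simp [aw]) c

lemma aw_bd (B : Ch V →ₗ[F2] Ch V →ₗ[F2] M) (l : List V) :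
    aw (B ∘ₗ bd + B.compl₂ bd) l = lc (aw B) (bdL l) + B (pt []) (pt l) + B (pt l) (pt []) := by
  induction l generalizing B with
  | nil => simp [aw, bdL, two]
  | cons x l ih =>
    have e : (B ∘ₗ bd + B.compl₂ bd) ∘ₗ consL x =
        B + ((B ∘ₗ consL x) ∘ₗ bd + (B ∘ₗ consL x).compl₂ bd) := by
      refine ch_ext fun a => ch_ext fun b => ?_
      simp [bdL, add_assoc]
    rw [aw, e, aw_add, ih]
    simp only [bdL, map_add, LinearMap.add_apply, LinearMap.comp_apply, LinearMap.compl₂_apply,
      bd_pt, map_zero, add_zero, lc_pt, lc_aw_cons, consL_pt]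
    have h2 := two (B (pt [x]) (pt l))
    linear_combination (norm := module) h2

end

end Pool.Agent.Lib.MP_233c29_an
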