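import Mathlib

namespace Pool.Agent.Lib.MP_233c29_an

/-- A metric space. -/
structure MS where
  X : Type
  m : MetricSpace X

instance (Z : MS) : MetricSpace Z.X := Z.m

/-- A subset of a metric space as a metric space. -/
def MS.sub (Z : MS) (U : Set Z.X) : MS := ⟨U, inferInstance⟩

/-- Uniformly locally finite. -/
def ULF (Z : MS) : Prop := ∀ r : ℝ, ∃ N : ℕ, ∀ x : Z.X, (Metric.closedBall x r).encard ≤ N

/-- The family `A` is `r`-decomposable over the family `B`. -/
def Dec (r : ℝ) (A B : Set MS) : Prop :=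
  ∀ Z ∈ A, ∃ P : Fin 2 → Set (Set Z.X), (∀ z, ∃ i, ∃ U ∈ P i, z ∈ U) ∧
    (∀ i, ∀ U ∈ P i, Z.sub U ∈ B) ∧
    ∀ i, ∀ U ∈ P i, ∀ V ∈ P i, U ≠ V → ∀ x ∈ U, ∀ y ∈ V, r < dist x y

/-- Finite decomposition complexity. -/
def FDC (Z : MS) : Prop :=
  ∀ D : Set (Set MS),
    (∀ A : Set MS, (∃ c : ℝ, ∀ W ∈ A, ∀ x y : W.X, dist x y ≤ c) → A ∈ D) →
    (∀ A : Set MS, (∀ r > 0, ∃ B ∈ D, Dec r A B) → A ∈ D) → {Z} ∈ D

/-- The Hilbert space of square summable functions. -/
def Hil (Z : MS) : Type := lp (fun _ : Z.X => ℂ) 2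

noncomputable instance (Z : MS) : NormedAddCommGroup (Hil Z) := lp.normedAddCommGroup

noncomputable instance (Z : MS) : InnerProductSpace ℂ (Hil Z) := lp.instInnerProductSpace

instance (Z : MS) : CompleteSpace (Hil Z) := lp.completeSpace

open Classical in
/-- The standard basis vectors. -/
noncomputable def delta {Z : MS} (x : Z.X) : Hil Z := lp.single 2 x 1

/-- All bounded operators. -/
def Bop (Z : MS) : Type := Hil Z →L[ℂ] Hil Z

noncomputable instance (Z : MS) : CStarAlgebra (Bop Z) :=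
  (inferInstance : CStarAlgebra (Hil Z →L[ℂ] Hil Z))

/-- Finite propagation. -/
def FinProp (Z : MS) (T : Hil Z →L[ℂ] Hil Z) : Prop :=
  ∃ r : ℝ, ∀ x y : Z.X, r < dist x y → inner ℂ (delta x) (T (delta y)) = 0

/-- The uniform Roe algebra: the norm closure of the finite propagation operators. -/
def Roe (Z : MS) : Set (Bop Z) := closure {T | FinProp Z T}

end Pool.Agent.Lib.MP_233c29_an
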