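import Pool.Agent.Lib.MP_233c29_an.Step
import Pool.Agent.Lib.MP_233c29_an.Defs

namespace Pool.Agent.Lib.MP_233c29_an

noncomputable section

structure Lv (X : Type) where
  V : Type
  fin : Finite V
  adj : V → V → Prop
  loc : V → X

variable {X : Type} [MetricSpace X]

def Good (c : ℕ) (T : ℝ) (A B : Lv X) (S : List A.V → Ch B.V) : Prop :=
  S [] = pt [] ∧ ∀ σ, Small A.adj σ → σ.length ≤ c → bd (S σ) = lc S (bdL σ) ∧
    All (fun τ => τ.length = σ.length ∧ Small B.adj τ ∧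
      ∀ y ∈ τ, ∀ x ∈ σ, dist (B.loc y) (A.loc x) ≤ T) (S σ)

def Cocyc (A : Lv X) (n : ℕ) (ω : List A.V → F2) : Prop :=
  ∀ σ, Small A.adj σ → σ.length = n → lc ω (bdL σ) = 0

def Sup (A : Lv X) (n : ℕ) (ω : List A.V → F2) (P : Set X) (a : ℝ) : Prop :=
  ∀ σ, Small A.adj σ → σ.length = n → ω σ ≠ 0 → ∃ y ∈ σ, ∃ x ∈ P, dist (A.loc y) x ≤ a

lemma Good.mono {c c' : ℕ} {T : ℝ} {A B : Lv X} {S : List A.V → Ch B.V} (h : Good c T A B S)
    (hc : c' ≤ c) : Good c' T A B S := ⟨h.1, fun σ h1 h2 => h.2 σ h1 (h2.trans hc)⟩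

lemma Good.comp {c : ℕ} {T T' : ℝ} {A B C : Lv X} {S' : List A.V → Ch B.V}
    {S : List B.V → Ch C.V} (h' : Good c T' A B S') (h : Good c T B C S) :
    Good c (T + T') A C fun σ => lc S (S' σ) := by
  refine ⟨by simp [h'.1, h.1], fun σ h1 h2 => ⟨?_, ?_⟩⟩
  · obtain ⟨e, a⟩ := h'.2 σ h1 h2
    rw [map_lc, a.congr (g := fun τ => lc S (bd (pt τ)))
      fun τ hτ => by rw [(h.2 τ hτ.2.1 (by omega)).1, bd_pt], ← map_lc, ← map_lc, lc_self, e,
      map_lc]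
  · refine (h'.2 σ h1 h2).2.bind fun τ hτ => (h.2 τ hτ.2.1 (by omega)).2.mono fun ρ hρ =>
      ⟨by omega, hρ.2.1, fun y hy x hx => ?_⟩
    obtain ⟨w, hw⟩ : ∃ w, w ∈ τ := by
      apply List.exists_mem_of_length_pos
      rw [hτ.1]
      exact List.length_pos_of_mem hx
    linarith [dist_triangle (C.loc y) (B.loc w) (A.loc x), hρ.2.2 y hy w hw, hτ.2.2 w hw x hx]

lemma Good.lc_bd {c : ℕ} {T : ℝ} {A B : Lv X} {S : List A.V → Ch B.V} (h : Good c T A B S)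
    (ω : List B.V → F2) {σ : List A.V} (h1 : Small A.adj σ) (h2 : σ.length ≤ c) :
    lc (fun l => lc ω (S l)) (bdL σ) = lc (fun τ => lc ω (bdL τ)) (S σ) := by
  rw [← map_lc, ← (h.2 σ h1 h2).1, ← map_lc]
  rfl

lemma Good.cocyc {c n : ℕ} {T : ℝ} {A B : Lv X} {S : List A.V → Ch B.V} (h : Good c T A B S)
    {ω : List B.V → F2} (hω : Cocyc B n ω) (hn : n ≤ c) : Cocyc A n fun l => lc ω (S l) := by
  intro σ h1 h2
  rw [h.lc_bd ω h1 (by omega)]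
  exact (h.2 σ h1 (by omega)).2.lc_eq_zero fun τ hτ => hω τ hτ.2.1 (by omega)

lemma Good.sup {c n : ℕ} {T a : ℝ} {A B : Lv X} {S : List A.V → Ch B.V} (h : Good c T A B S)
    {ω : List B.V → F2} {P : Set X} (hω : Sup B n ω P a) (hn : n ≤ c) :
    Sup A n (fun l => lc ω (S l)) P (a + T) := by
  intro σ h1 h2 h3
  obtain ⟨τ, hτ, h4⟩ := (h.2 σ h1 (by omega)).2.exists_ne h3
  obtain ⟨y, hy, x, hx, h5⟩ := hω τ hτ.2.1 (by omega) h4
  obtain ⟨w, hw⟩ : ∃ w, w ∈ σ := by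
    apply List.exists_mem_of_length_pos
    rw [← hτ.1]
    exact List.length_pos_of_mem hy
  refine ⟨w, hw, x, hx, ?_⟩
  linarith [dist_triangle (A.loc w) (B.loc y) x, hτ.2.2 y hy w hw, dist_comm (A.loc w) (B.loc y)]

lemma Sup.mono {A : Lv X} {n : ℕ} {ω : List A.V → F2} {P Q : Set X} {a b : ℝ}
    (h : Sup A n ω P a) (c : ℝ) (hQ : ∀ x ∈ P, ∃ x' ∈ Q, dist x x' ≤ c) (hab : a + c ≤ b) :
    Sup A n ω Q b := by
  intro σ h1 h2 h3
  obtain ⟨y, hy, x, hx, h4⟩ := h σ h1 h2 h3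
  obtain ⟨x', hx', h5⟩ := hQ x hx
  exact ⟨y, hy, x', hx', by linarith [dist_triangle (A.loc y) x x']⟩

lemma Sup.add {A : Lv X} {n : ℕ} {ω η : List A.V → F2} {P : Set X} {a : ℝ}
    (h : Sup A n ω P a) (h' : Sup A n η P a) : Sup A n (fun l => ω l + η l) P a := by
  intro σ h1 h2 h3
  by_cases e : ω σ = 0
  · exact h' σ h1 h2 (by simpa [e] using h3)
  · exact h σ h1 h2 e

lemma Sup.sum {A : Lv X} {n : ℕ} {ι : Type} (s : Finset ι) {ω : ι → List A.V → F2} {P : Set X}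
    {a : ℝ} (h : ∀ i ∈ s, Sup A n (ω i) P a) : Sup A n (fun l => ∑ i ∈ s, ω i l) P a := by
  intro σ h1 h2 h3
  obtain ⟨i, hi, e⟩ := Finset.exists_ne_zero_of_sum_ne_zero h3
  exact h i hi σ h1 h2 e

structure Tower (X : Type) [MetricSpace X] where
  L : ℕ → ℕ → Lv X
  ne : ∀ j h, Nonempty (L j h).V
  refl : ∀ j h v, (L j h).adj v v
  K : ℕ → ℝ
  hK : ∀ j h v w, (L j h).adj v w → dist ((L j h).loc v) ((L j h).loc w) ≤ K j
  T : ℕ → ℝ
  S : ℕ → ℝ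
  S0 : ∀ j, 0 ≤ S j
  hS : ∀ j, S (j + 1) = S j + T j
  s : ∀ j h, List (L (j + 1) h).V → Ch (L j (h + 1)).V
  hs : ∀ j h, Good (j + 2) (T j) _ _ (s j h)
  base : ∀ j h (x : X), ∃ hh : List (L (j + 1) h).V → Ch (L j (h + 1)).V, hh [] = 0 ∧
    ∀ σ, Small (L (j + 1) h).adj σ → σ.length ≤ j + 1 →
      All (fun τ => τ.length = σ.length + 1 ∧ Small (L j (h + 1)).adj τ ∧
        ∀ y ∈ τ, ∀ v ∈ σ, dist ((L j (h + 1)).loc y) ((L (j + 1) h).loc v) ≤ T j) (hh σ) ∧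
      All (fun τ => τ.length = σ.length ∧ Small (L j (h + 1)).adj τ ∧
        ∀ y ∈ τ, j + S j < dist ((L j (h + 1)).loc y) x)
        (s j h σ + bd (hh σ) + lc hh (bdL σ))

namespace Tower

variable (t : Tower X)

lemma up (d j c : ℕ) (hc : c ≤ j) (h H : ℕ) (hH : H = h + d) :
    ∃ S, Good (c + 2) (t.K j + t.S (j + d) - t.S j) (t.L (j + d) h) (t.L j H) S := by
  induction d generalizing h with
  | zero =>
    subst hH
    refine ⟨pt, rfl, fun σ h1 _ => ⟨by simp [lc_self], All.single ⟨rfl, h1, fun y hy x hx => ?_⟩⟩⟩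
    simpa using t.hK j _ y x (h1 y hy x hx)
  | succ d ih =>
    obtain ⟨S, hS⟩ := ih (h + 1) (by omega)
    have := ((t.hs (j + d) h).mono (c' := c + 2) (by omega)).comp hS
    have e : t.K j + t.S (j + (d + 1)) - t.S j = t.K j + t.S (j + d) - t.S j + t.T (j + d) := by
      rw [← add_assoc j d 1, t.hS]
      ring
    rw [e]
    exact ⟨_, this⟩

def NB (F : Set (Set X)) : Prop :=
  ∀ (c j : ℕ) (a : ℝ), c ≤ j → ∃ j', j ≤ j' ∧ ∃ (a' T : ℝ) (k : ℕ), ∀ h, k ≤ h →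
    ∃ h', h ≤ h' + k ∧ ∃ S, Good (c + 2) T (t.L j' h') (t.L j h) S ∧
      ∀ P ∈ F, ∀ ω, Cocyc (t.L j h) (c + 2) ω → Sup (t.L j h) (c + 1) ω P a →
        ∃ α, Sup (t.L j' h') c α P a' ∧
          ∀ σ, Small (t.L j' h').adj σ → σ.length = c + 1 → lc ω (S σ) = lc α (bdL σ)

lemma not_NB {F : Set (Set X)} (hF : Set.univ ∈ F) : ¬ t.NB F := by
  intro h
  obtain ⟨j', -, a', T, k, h1⟩ := h 0 0 0 le_rfl
  obtain ⟨h', -, S, hS, h2⟩ := h1 k le_rfl
  obtain ⟨α, h3, h4⟩ := h2 _ hF (fun _ => 1) (fun σ _ hσ => by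
    match σ, hσ with
    | [x, y], _ => simp [bdL, two]) (fun σ _ hσ _ => by
    match σ, hσ with
    | [x], _ => exact ⟨x, by simp, _, trivial, (dist_self _).le⟩)
  obtain ⟨v⟩ := t.ne j' h'
  have hv : Small (t.L j' h').adj [v] := by
    intro x hx y hy
    rw [List.mem_singleton.1 hx, List.mem_singleton.1 hy]
    exact t.refl _ _ _
  have h5 := h4 [v] hv rfl
  have h6 : α [] = 0 := by
    by_contra e
    obtain ⟨y, hy, -⟩ := h3 [] (by simp [Small]) rfl e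
    simp at hy
  obtain ⟨e1, e2⟩ := hS.2 [v] hv (by simp)
  have h7 : lc (fun _ => (1 : F2)) (S [v]) = nilL (bd (S [v])) := by
    rw [← lc_self (S [v]), map_lc, map_lc, map_lc]
    refine e2.congr fun τ hτ => ?_
    match τ, hτ.1 with
    | [x], _ => simp [bdL]
  rw [h7, e1] at h5
  simp [bdL, hS.1, h6] at h5

lemma NB_bdd {F : Set (Set X)} (D : ℝ) (hF : ∀ P ∈ F, ∀ x ∈ P, ∀ y ∈ P, dist x y ≤ D) :
    t.NB F := by
  intro c j a hc
  obtain ⟨d, hd⟩ := exists_nat_ge (a + D + t.K j)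
  refine ⟨j + d + 1, by omega, a + (t.K j + t.S (j + d) - t.S j) + t.T (j + d),
    t.K j + t.S (j + d) - t.S j + t.T (j + d), d + 1, fun h hh => ⟨h - (d + 1), by omega, ?_⟩⟩
  obtain ⟨S, hS⟩ := t.up d j c hc (h - (d + 1) + 1) h (by omega)
  have hs := (t.hs (j + d) (h - (d + 1))).mono (c' := c + 2) (by omega)
  refine ⟨_, hs.comp hS, fun P hP ω h1 h2 => ?_⟩
  obtain ⟨x0, hx0⟩ : ∃ x0, ∀ x ∈ P, dist x x0 ≤ D := by
    rcases P.eq_empty_or_nonempty with e | ⟨x0, e⟩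
    · obtain ⟨v⟩ := t.ne 0 0
      exact ⟨(t.L 0 0).loc v, by simp [e]⟩
    · exact ⟨x0, fun x hx => hF P hP x hx x0 e⟩
  obtain ⟨H, H0, H1⟩ := t.base (j + d) (h - (d + 1)) x0
  have c1 := hS.cocyc h1 le_rfl
  have c2 := hS.sup h2 (by omega)
  refine ⟨fun σ => lc (fun l => lc ω (S l)) (H σ), fun σ h3 h4 h5 => ?_, fun σ h3 h4 => ?_⟩
  · obtain ⟨τ, hτ, h6⟩ := (H1 σ h3 (by omega)).1.exists_ne h5
    obtain ⟨y, hy, x, hx, h7⟩ := c2 τ hτ.2.1 (by omega) h6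
    obtain ⟨w, hw⟩ : ∃ w, w ∈ σ := by
      cases σ with
      | nil => simp [H0] at h5
      | cons w _ => exact ⟨w, by simp⟩
    refine ⟨w, hw, x, hx, ?_⟩
    have := hτ.2.2 y hy w hw
    rw [dist_comm] at this
    linarith [dist_triangle ((t.L (j + d + 1) (h - (d + 1))).loc w)
      ((t.L (j + d) (h - (d + 1) + 1)).loc y) x]
  · obtain ⟨a1, a2⟩ := H1 σ h3 (by omega)
    have z1 : lc (fun l => lc ω (S l)) (bd (H σ)) = 0 := by
      rw [← lc_self (H σ), map_lc, map_lc]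
      exact a1.lc_eq_zero fun τ hτ => by rw [bd_pt]; exact c1 τ hτ.2.1 (by omega)
    have z2 := a2.lc_eq_zero (f := fun l => lc ω (S l)) fun τ hτ => by
      by_contra e
      obtain ⟨y, hy, x, hx, h7⟩ := c2 τ hτ.2.1 (by omega) e
      have h8 := hτ.2.2 y hy
      have h9 := dist_triangle ((t.L (j + d) (h - (d + 1) + 1)).loc y) x x0
      have := hx0 x hx
      have := t.S0 j
      push_cast at h8
      have : (0 : ℝ) ≤ j := Nat.cast_nonneg j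
      linarith
    rw [map_add, map_add, z1, add_zero] at z2
    rw [map_lc, ← map_lc (lc fun l => lc ω (S l)) H]
    have := two (lc (fun l => lc ω (S l)) (lc H (bdL σ)))
    linear_combination z2 - this

end Tower

end

end Pool.Agent.Lib.MP_233c29_an
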