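import Pool.Agent.Lib.MP_233c29_an.Tower
import Pool.Agent.Lib.MP_233c29_an.Defs

namespace Pool.Agent.Lib.MP_233c29_an

noncomputable section

open Classical

variable {α β : Type}

def IsM.ms {d : α → α → ℕ} (h : IsM d) : MS :=
  ⟨α, { dist := fun x y => d x y
        dist_self := fun x => by simp [h.self]
        dist_comm := fun x y => by simp [h.comm x]
        dist_triangle := fun x y z => by exact_mod_cast h.tri x y z
        eq_of_dist_eq_zero := fun e => h.eq _ _ (by exact_mod_cast e) }⟩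

lemma IsM.dist_eq {d : α → α → ℕ} (h : IsM d) (x y : h.ms.X) : dist x y = d x y := rfl

def Ulf (d : α → α → ℕ) : Prop := ∀ r : ℕ, ∃ N : ℕ, ∀ x, {y | d x y ≤ r}.encard ≤ N

def AD (d : α → α → ℕ) (r c : ℕ) : Prop :=
  ∃ (col : α → Bool) (rel : α → α → Prop), Equivalence rel ∧
    (∀ u v, col u = col v → d u v ≤ r → rel u v) ∧ ∀ u v, rel u v → d u v ≤ c

lemma IsM.ulf {d : α → α → ℕ} (h : IsM d) (H : Ulf d) : ULF h.ms := by
  intro r
  obtain ⟨N, hN⟩ := H ⌊r⌋₊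
  refine ⟨N, fun x => (Set.encard_le_encard fun y hy => ?_).trans (hN x)⟩
  rw [Metric.mem_closedBall, dist_comm] at hy
  exact Nat.le_floor hy

lemma IsM.fdc {d : α → α → ℕ} (h : IsM d) (H : ∀ r, ∃ c, AD d r c) : FDC h.ms := by
  intro D h1 h2
  refine h2 _ fun r _ => ?_
  obtain ⟨c, col, rel, e, a1, a2⟩ := H ⌈r⌉₊
  refine ⟨{W | ∀ x y : W.X, dist x y ≤ c}, h1 _ ⟨c, fun _ hW => hW⟩, ?_⟩
  rintro _ rfl
  refine ⟨fun i => {U | ∃ u, U = {v | col v = decide (i = 0) ∧ rel u v}}, fun z => ?_, ?_, ?_⟩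
  · refine ⟨if col z then 0 else 1, _, ⟨z, rfl⟩, ?_, e.1 z⟩
    cases col z <;> simp
  · rintro i _ ⟨u, rfl⟩ x y
    have : (d x.1 y.1 : ℝ) ≤ c := by exact_mod_cast a2 _ _ (e.3 (e.2 x.2.2) y.2.2)
    exact this
  · rintro i _ ⟨u, rfl⟩ _ ⟨v, rfl⟩ hne x hx y hy
    by_contra hd
    have hd' : (d x y : ℝ) ≤ r := not_lt.1 hd
    have h3 := a1 x y (hx.1.trans hy.1.symm) (by exact_mod_cast hd'.trans (Nat.le_ceil r))
    have h4 := e.3 (e.3 hx.2 h3) (e.2 hy.2)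
    exact hne (Set.ext fun w => and_congr_right fun _ => ⟨e.3 (e.2 h4), e.3 h4⟩)

section
variable {γ : ℕ → Type}

def gl (d : ∀ n, γ n → γ n → ℕ) (H : ℕ → ℕ) (x y : Σ n, γ n) : ℕ :=
  if h : y.1 = x.1 then d x.1 x.2 (h ▸ y.2) else max (H x.1) (H y.1)

variable {d : ∀ n, γ n → γ n → ℕ} {H : ℕ → ℕ}

lemma gl_same (n : ℕ) (a b : γ n) : gl d H ⟨n, a⟩ ⟨n, b⟩ = d n a b := by simp [gl]

lemma gl_ne {x y : Σ n, γ n} (h : x.1 ≠ y.1) : gl d H x y = max (H x.1) (H y.1) :=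
  dif_neg h.symm

lemma gl_le (h1 : ∀ n a b, d n a b ≤ H n) (x y : Σ n, γ n) : gl d H x y ≤ max (H x.1) (H y.1) := by
  obtain ⟨n, a⟩ := x
  obtain ⟨m, b⟩ := y
  by_cases e : n = m
  · subst e
    rw [gl_same]
    exact (h1 _ _ _).trans (le_max_left _ _)
  · exact (gl_ne e).le

lemma gl_isM (h : ∀ n, IsM (d n)) (h1 : ∀ n a b, d n a b ≤ H n) (h2 : ∀ n, n < H n) :
    IsM (gl d H) where
  self x := (gl_same x.1 x.2 x.2).trans ((h _).self _)
  comm := by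
    rintro ⟨n, a⟩ ⟨m, b⟩
    by_cases e : n = m
    · subst e
      rw [gl_same, gl_same, (h _).comm]
    · rw [gl_ne e, gl_ne (Ne.symm e), max_comm]
  tri := by
    rintro ⟨n, a⟩ ⟨m, b⟩ ⟨l, c⟩
    have := gl_le h1 ⟨n, a⟩ ⟨l, c⟩
    by_cases e : n = m <;> by_cases e' : m = l
    · subst e e'
      simp only [gl_same]
      exact (h _).tri _ _ _
    · rw [gl_ne (x := ⟨m, b⟩) e']
      subst e
      simp only at this ⊢
      omega
    · rw [gl_ne (x := ⟨n, a⟩) (y := ⟨m, b⟩) e]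
      subst e'
      simp only at this ⊢
      omega
    · rw [gl_ne (x := ⟨n, a⟩) (y := ⟨m, b⟩) e, gl_ne (x := ⟨m, b⟩) e']
      simp only at this ⊢
      omega
  eq := by
    rintro ⟨n, a⟩ ⟨m, b⟩ h3
    by_cases e : n = m
    · subst e
      rw [gl_same] at h3
      rw [(h _).eq _ _ h3]
    · rw [gl_ne e] at h3
      have := h2 n
      simp only at h3
      omega

lemma gl_ulf (hf : ∀ n, Finite (γ n)) (h2 : ∀ n, n < H n)
    (h : ∀ r, ∃ N, ∀ n, Deg (fun u v => d n u v ≤ r) N) : Ulf (gl d H) := by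
  intro r
  obtain ⟨N, hN⟩ := h r
  have fin : {v : Σ n, γ n | v.1 < r}.Finite :=
    ((Set.finite_lt_nat r).biUnion fun n _ => Set.finite_range (Sigma.mk n)).subset
      fun v hv => Set.mem_biUnion hv ⟨v.2, rfl⟩
  refine ⟨N + fin.toFinset.card, ?_⟩
  rintro ⟨n, a⟩
  have : {y | gl d H ⟨n, a⟩ y ≤ r} ⊆ Sigma.mk n '' {w | d n a w ≤ r} ∪ {v | v.1 < r} := by
    rintro ⟨m, b⟩ hb
    by_cases e : n = m
    · subst e
      exact Or.inl ⟨b, by simpa [gl_same] using hb, rfl⟩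
    · rw [Set.mem_setOf_eq, gl_ne e] at hb
      exact Or.inr ((h2 m).trans_le ((le_max_right _ _).trans hb))
  refine (Set.encard_le_encard this).trans ((Set.encard_union_le _ _).trans ?_)
  rw [Nat.cast_add, ← fin.encard_eq_coe_toFinset_card]
  exact add_le_add ((Set.encard_image_le _ _).trans ((hN n).encard a)) le_rfl

lemma gl_AD (h1 : ∀ n a b, d n a b ≤ H n) (h2 : ∀ n, n < H n) {r c : ℕ}
    (h : ∀ n, r < n → AD (d n) r c) : AD (gl d H) r (c + ∑ i ∈ Finset.range (r + 1), H i) := by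
  have h' : ∀ n, ∃ (col : γ n → Bool) (rel : γ n → γ n → Prop), Equivalence rel ∧ (r < n →
      (∀ u v, col u = col v → d n u v ≤ r → rel u v) ∧ ∀ u v, rel u v → d n u v ≤ c) := by
    intro n
    by_cases e : r < n
    · obtain ⟨a, b, c, d⟩ := h n e
      exact ⟨a, b, c, fun _ => d⟩
    · exact ⟨fun _ => true, Eq, eq_equivalence, fun h => (e h).elim⟩
  choose col rel e a using h'
  have hs : ∀ i ≤ r, H i ≤ ∑ i ∈ Finset.range (r + 1), H i := fun i hi =>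
    Finset.single_le_sum (f := H) (fun _ _ => Nat.zero_le _) (Finset.mem_range.2 (by omega))
  refine ⟨fun x => col x.1 x.2, fun x y => (x.1 ≤ r ∧ y.1 ≤ r) ∨
    ∃ n u v, x = ⟨n, u⟩ ∧ y = ⟨n, v⟩ ∧ rel n u v, ⟨fun x => Or.inr ⟨_, _, _, rfl, rfl, (e _).1 _⟩,
      ?_, ?_⟩, ?_, ?_⟩
  · rintro x y (h | ⟨n, u, v, rfl, rfl, h⟩)
    exacts [Or.inl h.symm, Or.inr ⟨_, _, _, rfl, rfl, (e _).2 h⟩]
  · rintro x y z (h | ⟨n, u, v, rfl, rfl, h⟩) (h' | ⟨m, u', v', e1, rfl, h'⟩)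
    · exact Or.inl ⟨h.1, h'.2⟩
    · subst e1
      exact Or.inl h
    · exact Or.inl h'
    · cases e1
      exact Or.inr ⟨_, _, _, rfl, rfl, (e _).3 h h'⟩
  · rintro ⟨n, u⟩ ⟨m, v⟩ h3 h4
    by_cases e : n = m
    · subst e
      rw [gl_same] at h4
      by_cases e' : r < n
      · exact Or.inr ⟨_, _, _, rfl, rfl, (a n e').1 _ _ h3 h4⟩
      · exact Or.inl ⟨not_lt.1 e', not_lt.1 e'⟩
    · rw [gl_ne e] at h4
      have := h2 n
      have := h2 m
      simp only at h4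
      exact Or.inl ⟨by simp only; omega, by simp only; omega⟩
  · rintro x y (h | ⟨n, u, v, rfl, rfl, h⟩)
    · have := gl_le h1 x y
      have := hs _ h.1
      have := hs _ h.2
      omega
    · rw [gl_same]
      by_cases e' : r < n
      · exact ((a n e').2 _ _ h).trans (Nat.le_add_right _ _)
      · exact (h1 _ _ _).trans ((hs n (not_lt.1 e')).trans (Nat.le_add_left _ _))

variable [∀ n, Zero (γ n)]

def rho (f g : Π₀ n, γ n) : ℕ := (f.neLocus g).sup (· + 1)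

lemma rho_le {f g : Π₀ n, γ n} {r : ℕ} : rho f g ≤ r ↔ ∀ j, r ≤ j → f j = g j := by
  simp only [rho, Finset.sup_le_iff, DFinsupp.mem_neLocus]
  exact forall_congr' fun j => by rw [not_imp_comm, Nat.add_one_le_iff, not_lt]

lemma rho_ult {f g k : Π₀ n, γ n} {r : ℕ} (h : rho f g ≤ r) (h' : rho g k ≤ r) : rho f k ≤ r :=
  rho_le.2 fun j hj => (rho_le.1 h j hj).trans (rho_le.1 h' j hj)

lemma rho_isM : IsM (rho (γ := γ)) where
  self _ := Nat.le_zero.1 (rho_le.2 fun _ _ => rfl)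
  comm f g := by rw [rho, rho, DFinsupp.neLocus_comm]
  tri _ _ _ := rho_ult (Nat.le_add_right _ _) (Nat.le_add_left _ _)
  eq _ _ h := DFinsupp.ext fun j => rho_le.1 h.le j (Nat.zero_le _)

lemma rho_ulf [∀ n, Fintype (γ n)] : Ulf (rho (γ := γ)) := fun r =>
  ⟨_, (Deg.of_type (R := fun f g => rho f g ≤ r) (T := ∀ j : Fin r, γ j) (fun _ g j => g j)
    fun f g k h1 h2 e => DFinsupp.ext fun j => by
      by_cases hj : j < r
      · exact congrFun e ⟨j, hj⟩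
      · exact (rho_le.1 h1 j (by omega)).symm.trans (rho_le.1 h2 j (by omega))).encard⟩

end

def mx (d : α → α → ℕ) (e : β → β → ℕ) (x y : α × β) : ℕ := max (d x.1 y.1) (e x.2 y.2)

variable {d : α → α → ℕ} {e : β → β → ℕ}

lemma mx_isM (h : IsM d) (h' : IsM e) : IsM (mx d e) where
  self x := by simp [mx, h.self, h'.self]
  comm x y := by rw [mx, mx, h.comm, h'.comm]
  tri x y z := by
    have := h.tri x.1 y.1 z.1
    have := h'.tri x.2 y.2 z.2
    simp only [mx]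
    omega
  eq x y h1 := by
    simp only [mx, Nat.max_eq_zero_iff] at h1
    exact Prod.ext (h.eq _ _ h1.1) (h'.eq _ _ h1.2)

lemma mx_ulf (h : Ulf d) (h' : Ulf e) : Ulf (mx d e) := by
  intro r
  obtain ⟨N, hN⟩ := h r
  obtain ⟨M, hM⟩ := h' r
  refine ⟨N * M, fun x => ?_⟩
  have : {y | mx d e x y ≤ r} = {y | d x.1 y ≤ r} ×ˢ {y | e x.2 y ≤ r} := by
    ext y
    simp [mx]
  rw [this, Set.encard_prod, Nat.cast_mul]
  exact mul_le_mul' (hN _) (hM _)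

lemma mx_AD {r c : ℕ} (h : AD d r c) (h' : IsM e)
    (hu : ∀ x y z, e x y ≤ r → e y z ≤ r → e x z ≤ r) : AD (mx d e) r (max c r) := by
  obtain ⟨col, rel, a, b, c⟩ := h
  exact ⟨fun x => col x.1, fun x y => rel x.1 y.1 ∧ e x.2 y.2 ≤ r,
    ⟨fun x => ⟨a.1 _, by simp [h'.self]⟩, fun h => ⟨a.2 h.1, h'.comm _ _ ▸ h.2⟩,
      fun h k => ⟨a.3 h.1 k.1, hu _ _ _ h.2 k.2⟩⟩,
    fun u v h1 h2 => ⟨b _ _ h1 (max_le_iff.1 h2).1, (max_le_iff.1 h2).2⟩,
    fun u v h => max_le_max (c _ _ h.1) h.2⟩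

end

end Pool.Agent.Lib.MP_233c29_an
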