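import Pool.Agent.Lib.MP_233c29_an.Step

namespace Pool.Agent.Lib.MP_233c29_an

noncomputable section

open Classical

variable {α β : Type}

def Rch (R : α → α → Prop) : ℕ → α → α → Prop
  | 0, a, b => a = b
  | k + 1, a, b => ∃ c, Rch R k a c ∧ R c b

namespace Rch
variable {R : α → α → Prop} {a b c : α} {k l : ℕ}

lemma one (h : R a b) : Rch R 1 a b := ⟨a, rfl, h⟩

lemma of_one (h : Rch R 1 a b) : R a b := by
  obtain ⟨c, rfl, h⟩ := h
  exact h

lemma trans (h1 : Rch R k a b) (h2 : Rch R l b c) : Rch R (k + l) a c := by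
  induction l generalizing c with
  | zero => cases h2; exact h1
  | succ l ih =>
    obtain ⟨d, h3, h4⟩ := h2
    exact ⟨d, ih h3, h4⟩

lemma symm (hR : ∀ x y, R x y → R y x) (h : Rch R k a b) : Rch R k b a := by
  induction k generalizing b with
  | zero => exact Eq.symm h
  | succ k ih =>
    obtain ⟨d, h3, h4⟩ := h
    rw [add_comm]
    exact (one (hR _ _ h4)).trans (ih h3)

lemma map {S : β → β → Prop} (f : α → β) (hf : ∀ x y, R x y → S (f x) (f y)) (h : Rch R k a b) :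
    Rch S k (f a) (f b) := by
  induction k generalizing b with
  | zero => exact congrArg f h
  | succ k ih =>
    obtain ⟨d, h3, h4⟩ := h
    exact ⟨f d, ih h3, hf _ _ h4⟩

lemma le (h : Rch R k a b) (hb : R b b) (hl : k ≤ l) : Rch R l a b := by
  induction hl with
  | refl => exact h
  | step _ ih => exact ⟨b, ih, hb⟩

lemma mul {S : β → β → Prop} (f : α → β) {E : ℕ} (hf : ∀ x y, R x y → Rch S E (f x) (f y))
    (h : Rch R k a b) : Rch S (k * E) (f a) (f b) := by
  induction k generalizing b with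
  | zero => rw [zero_mul]; exact congrArg f h
  | succ k ih =>
    obtain ⟨d, h3, h4⟩ := h
    rw [Nat.succ_mul]
    exact (ih h3).trans (hf _ _ h4)

lemma lip {E : Type} [PseudoMetricSpace E] (f : α → E) {c : ℝ}
    (hf : ∀ x y, R x y → dist (f x) (f y) ≤ c) (h : Rch R k a b) : dist (f a) (f b) ≤ k * c := by
  induction k generalizing b with
  | zero => cases h; simp
  | succ k ih =>
    obtain ⟨d, h3, h4⟩ := h
    push_cast
    linarith [dist_triangle (f a) (f d) (f b), ih h3, hf _ _ h4]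

lemma lipZ (f : α → ℤ) (hf : ∀ x y, R x y → f y ≤ f x + 1) (h : Rch R k a b) :
    f b ≤ f a + k := by
  induction k generalizing b with
  | zero => cases h; simp
  | succ k ih =>
    obtain ⟨d, h3, h4⟩ := h
    push_cast
    linarith [ih h3, hf _ _ h4]

lemma lift {S : α × β → α × β → Prop} (hl : ∀ x y, R x y → ∀ u, ∃ v, S (x, u) (y, v))
    (h : Rch R k a b) (u : β) : ∃ v, Rch S k (a, u) (b, v) := by
  induction k generalizing b with
  | zero => cases h; exact ⟨u, rfl⟩
  | succ k ih =>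
    obtain ⟨d, h3, h4⟩ := h
    obtain ⟨v, hv⟩ := ih h3
    obtain ⟨w, hw⟩ := hl _ _ h4 v
    exact ⟨w, _, hv, hw⟩

lemma chain (h : Rch R k a b) : ∃ c : Ch α, bd c = pt [a] + pt [b] ∧
    All (fun τ => ∃ x y, τ = [x, y] ∧ R x y) c := by
  induction k generalizing b with
  | zero => cases h; exact ⟨0, by simp [two], All.zero⟩
  | succ k ih =>
    obtain ⟨d, h3, h4⟩ := h
    obtain ⟨c, h1, h2⟩ := ih h3
    refine ⟨c + pt [d, b], ?_, h2.add (All.single ⟨d, b, rfl, h4⟩)⟩
    simp only [map_add, h1, bd_pt, bdL, map_zero, add_zero, consL_pt]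
    linear_combination (norm := module) two (pt [d])

lemma nat {R : ℕ → ℕ → Prop} (k : ℕ) (h : ∀ i < k, R (i + 1) i) : Rch R k k 0 := by
  induction k with
  | zero => rfl
  | succ k ih =>
    rw [show Rch R (k + 1) = Rch R (1 + k) by rw [add_comm]]
    exact (one (h k (by omega))).trans (ih fun i hi => h i (by omega))

end Rch

def Deg (R : α → α → Prop) (N : ℕ) : Prop :=
  ∃ idx : α → α → Fin N, ∀ v w w', R v w → R v w' → idx v w = idx v w' → w = w'

lemma Deg.of_type {R : α → α → Prop} {T : Type} [Fintype T] (idx : α → α → T)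
    (h : ∀ v w w', R v w → R v w' → idx v w = idx v w' → w = w') : Deg R (Fintype.card T) :=
  ⟨fun v w => Fintype.equivFin T (idx v w), fun v w w' h1 h2 h3 =>
    h v w w' h1 h2 ((Fintype.equivFin T).injective h3)⟩

lemma Deg.rch {R : α → α → Prop} {N : ℕ} (h : Deg R N) (k : ℕ) : Deg (Rch R k) (N ^ k) := by
  induction k with
  | zero => exact ⟨fun _ _ => ⟨0, by simp⟩, fun v w w' h1 h2 _ => (Eq.symm h1).trans h2⟩
  | succ k ih =>
    obtain ⟨i1, h1⟩ := ih
    obtain ⟨i2, h2⟩ := h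
    have := Deg.of_type (R := Rch R (k + 1)) (T := Fin (N ^ k) × Fin N)
      (fun v w => if h : Rch R (k + 1) v w then (i1 v h.choose, i2 h.choose w)
        else (i1 v w, i2 v w)) fun v w w' a b e => by
        simp only [dif_pos a, dif_pos b, Prod.mk.injEq] at e
        have e1 := h1 _ _ _ a.choose_spec.1 b.choose_spec.1 e.1
        refine h2 _ _ _ a.choose_spec.2 (e1 ▸ b.choose_spec.2) ?_
        rw [e.2, e1]
    simpa [pow_succ] using this

lemma Deg.encard {R : α → α → Prop} {N : ℕ} (h : Deg R N) (v : α) : {w | R v w}.encard ≤ N := by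
  obtain ⟨i, hi⟩ := h
  have : Set.InjOn (i v) {w | R v w} := fun w h1 w' h2 e => hi v w w' h1 h2 e
  rw [← this.encard_image]
  exact (Set.encard_le_encard (Set.subset_univ _)).trans (by simp)

structure Gr where
  V : Type
  fin : Finite V
  adj : V → V → Prop
  refl : ∀ v, adj v v
  symm : ∀ v w, adj v w → adj w v
  ne : Nonempty V
  conn : ∀ v w, ∃ k, Rch adj k v w

def Bits : ℕ → Type
  | 0 => Unit
  | m + 1 => Bool × Bits m

instance bitsFin : ∀ m, Fintype (Bits m)
  | 0 => inferInstanceAs (Fintype Unit)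
  | m + 1 => @instFintypeProd Bool (Bits m) _ (bitsFin m)

instance bitsInh : ∀ m, Inhabited (Bits m)
  | 0 => ⟨()⟩
  | m + 1 => ⟨(false, (bitsInh m).default)⟩

def Ker {Y Φ : Type} [Fintype Φ] (U : Y → Φ → Φ → ℂ) (u v : Y × Φ) : ℂ :=
  ∑ γ, U u.1 u.2 γ * (starRingEnd ℂ) (U v.1 v.2 γ)

structure Stage (A : Gr) (m L l E N : ℕ) where
  B : Type
  fin : Finite B
  adj : B → B → Prop
  refl : ∀ y, adj y y
  symm : ∀ y z, adj y z → adj z y
  deg : Deg adj N
  F : B → Bits m → A.V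
  p : A.V → B
  cadj : B × Bits m → B × Bits m → Prop
  crefl : ∀ u, cadj u u
  csymm : ∀ u v, cadj u v → cadj v u
  near : ∀ y b c, A.adj (F y b) (F y c)
  Fp : ∀ v b, F (p v) b = v
  c1 : ∀ u v, cadj u v → adj u.1 v.1
  c2 : ∀ u v, cadj u v → A.adj (F u.1 u.2) (F v.1 v.2)
  lift : ∀ y z, adj y z → ∀ b, ∃ c, cadj (y, b) (z, c)
  C1 : ∀ (S : Set A.V) y b, (∀ c, F y c ∈ S) →
    Rch (fun a a' => adj a a' ∧ (∀ c, F a c ∈ S) ∧ ∀ c, F a' c ∈ S) E y (p (F y b))
  C2 : ∀ (S : Set A.V) v w, v ∈ S → w ∈ S → A.adj v w →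
    Rch (fun a a' => adj a a' ∧ (∀ c, F a c ∈ S) ∧ ∀ c, F a' c ∈ S) E (p v) (p w)
  U : B → Bits m → Bits m → ℂ
  orth : ∀ y c c', ∑ b, (starRingEnd ℂ) (U y b c) * U y b c' = if c = c' then 1 else 0
  Kle : ∀ u v, ‖Ker U u v‖ ≤ 1
  Kdiag : ∀ u, Ker U u u = 1
  Kdev : ∀ k u z b c, Rch cadj k u (z, b) → c ≠ b → ‖Ker U u (z, c)‖ ≤ 2 * k / L
  Lab : Type
  col : B × Bits m → Bool
  lab : B × Bits m → Lab
  sep1 : ∀ u v, Rch cadj l u v → col u = col v → lab u = lab v
  sep2 : ∀ u v, col u = col v → lab u = lab v → A.adj (F u.1 u.2) (F v.1 v.2)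
  s : List A.V → Ch B
  s0 : s [] = pt []
  sc : ∀ σ, Small A.adj σ → σ.length ≤ m + 2 → bd (s σ) = lc s (bdL σ)
  sl : ∀ σ, Small A.adj σ → σ.length ≤ m + 2 →
    All (fun τ => τ.length = σ.length ∧ Small adj τ ∧ ∀ y ∈ τ, ∀ b, F y b ∈ σ) (s σ)

theorem stage0 (A : Gr) (L l N : ℕ) (hA : Deg A.adj N) :
    Nonempty (Stage A 0 L l (2 * (2 * l + 1 + N) + 1) 18) := by
  obtain ⟨idx, hidx⟩ := hA
  obtain ⟨v0⟩ := A.ne
  have hN : 0 < N := (idx v0 v0).pos
  have := A.fin
  let B := A.V × Fin N × Fin (2 * l + 2)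
  let cr : A.V × Fin N → A.V × Fin N → Prop := fun x y =>
    A.adj x.1 y.1 ∧ x.2 = idx x.1 y.1 ∧ y.2 = idx y.1 x.1
  have crs : ∀ x y, cr x y → cr y x := fun x y h => ⟨A.symm _ _ h.1, h.2.2, h.2.1⟩
  have cru : ∀ x y z, cr x y → cr x z → y = z := fun x y z h1 h2 => by
    have e := hidx _ _ _ h1.1 h2.1 (h1.2.1.symm.trans h2.2.1)
    exact Prod.ext e (by rw [h1.2.2, h2.2.2, e])
  let adj : B → B → Prop := fun x y =>
    (x.1 = y.1 ∧ x.2.1 = y.2.1 ∧ x.2.2.1 ≤ y.2.2.1 + 1 ∧ y.2.2.1 ≤ x.2.2.1 + 1) ∨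
    (x.1 = y.1 ∧ x.2.2.1 = 0 ∧ y.2.2.1 = 0 ∧ x.2.1.1 ≤ y.2.1.1 + 1 ∧ y.2.1.1 ≤ x.2.1.1 + 1) ∨
    (x.2.2.1 = 2 * l + 1 ∧ y.2.2.1 = 2 * l + 1 ∧ cr (x.1, x.2.1) (y.1, y.2.1))
  have refl : ∀ x, adj x x := fun x => Or.inl ⟨rfl, rfl, by omega, by omega⟩
  have symm : ∀ x y, adj x y → adj y x := by
    rintro x y (h | h | h)
    · exact Or.inl ⟨h.1.symm, h.2.1.symm, h.2.2.2, h.2.2.1⟩
    · exact Or.inr (Or.inl ⟨h.1.symm, h.2.2.1, h.2.1, h.2.2.2.2, h.2.2.2.1⟩)
    · exact Or.inr (Or.inr ⟨h.2.1, h.1, crs _ _ h.2.2⟩)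
  have hadj : ∀ x y, adj x y → A.adj x.1 y.1 := by
    rintro x y (h | h | h)
    · rw [h.1]; exact A.refl _
    · rw [h.1]; exact A.refl _
    · exact h.2.2.1
  let p : A.V → B := fun v => (v, ⟨0, hN⟩, 0)
  let On : Set A.V → B → B → Prop := fun S a a' =>
    adj a a' ∧ (∀ _ : Bits 0, a.1 ∈ S) ∧ ∀ _ : Bits 0, a'.1 ∈ S
  have Ons : ∀ S a a', On S a a' → On S a' a := fun S a a' h => ⟨symm _ _ h.1, h.2.2, h.2.1⟩
  have down : ∀ (S : Set A.V) (y : B), y.1 ∈ S → Rch (On S) (2 * l + 1 + N) y (p y.1) := by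
    rintro S ⟨v, i, k⟩ hv
    have h1 := (Rch.nat (R := fun a b => a = b + 1 ∧ a ≤ k.1) k.1
      fun j hj => ⟨rfl, hj⟩).map (S := On S)
      (fun j => ((v, i, ⟨min j (2 * l + 1), by omega⟩) : B)) fun a b h =>
        ⟨Or.inl ⟨rfl, rfl, by simp only; omega, by simp only; omega⟩, fun _ => hv, fun _ => hv⟩
    have h2 := (Rch.nat (R := fun a b => a = b + 1 ∧ a ≤ i.1) i.1
      fun j hj => ⟨rfl, hj⟩).map (S := On S)
      (fun j => ((v, ⟨min j (N - 1), by omega⟩, 0) : B)) fun a b h =>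
        ⟨Or.inr (Or.inl ⟨rfl, rfl, rfl, by simp only; omega, by simp only; omega⟩),
          fun _ => hv, fun _ => hv⟩
    have e1 : (⟨min k.1 (2 * l + 1), by omega⟩ : Fin (2 * l + 2)) = k :=
      Fin.ext (by simp only; omega)
    have e2 : (⟨min i.1 (N - 1), by omega⟩ : Fin N) = i := Fin.ext (by simp only; omega)
    simp only [e1, e2, Nat.zero_min] at h1 h2
    exact (h1.trans h2).le ⟨refl _, fun _ => hv, fun _ => hv⟩ (by omega)
  have C2 : ∀ (S : Set A.V) v w, v ∈ S → w ∈ S → A.adj v w →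
      Rch (On S) (2 * (2 * l + 1 + N) + 1) (p v) (p w) := by
    intro S v w hv hw h
    have h1 := (down S (v, idx v w, Fin.last _) hv).symm (Ons S)
    have h2 := down S (w, idx w v, Fin.last _) hw
    have h3 : On S (v, idx v w, Fin.last _) (w, idx w v, Fin.last _) :=
      ⟨Or.inr (Or.inr ⟨rfl, rfl, h, rfl, rfl⟩), fun _ => hv, fun _ => hw⟩
    exact ((h1.trans (Rch.one h3)).trans h2).le ⟨refl _, fun _ => hw, fun _ => hw⟩ (by omega)
  have hch : ∀ v w, ∃ c : Ch B, A.adj v w → bd c = pt [p v] + pt [p w] ∧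
      All (fun τ => ∃ x y, τ = [x, y] ∧ On {v, w} x y) c := by
    intro v w
    by_cases h : A.adj v w
    · obtain ⟨c, hc⟩ := (C2 {v, w} v w (by simp) (by simp) h).chain
      exact ⟨c, fun _ => hc⟩
    · exact ⟨0, fun h' => (h h').elim⟩
  choose ch hch using hch
  let cls : A.V × Fin N → Set (A.V × Fin N) := fun x => {y | y = x ∨ cr x y}
  have hcls : ∀ x y, cr x y → cls x = cls y := by
    have : ∀ x y, cr x y → cls x ⊆ cls y := by
      rintro x y h z (rfl | h')
      · exact Or.inr (crs _ _ h)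
      · exact Or.inl (cru _ _ _ h' h)
    exact fun x y h => (this x y h).antisymm (this y x (crs _ _ h))
  refine ⟨{
    B := B, fin := inferInstance, adj := adj, refl := refl, symm := symm, deg := ?_
    F := fun y _ => y.1, p := p, cadj := fun u v => adj u.1 v.1
    crefl := fun u => refl _, csymm := fun u v => symm _ _
    near := fun y _ _ => A.refl _, Fp := fun _ _ => rfl, c1 := fun _ _ h => h
    c2 := fun u v h => hadj _ _ h, lift := fun y z h b => ⟨b, h⟩
    C1 := fun S y b h => (down S y (h b)).le ⟨refl _, h, h⟩ (by omega)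
    C2 := C2, U := fun _ _ _ => 1, orth := ?_, Kle := ?_, Kdiag := ?_, Kdev := ?_
    Lab := A.V ⊕ Set (A.V × Fin N), col := fun u => decide (l < u.1.2.2.1)
    lab := fun u => if l < u.1.2.2.1 then Sum.inr (cls (u.1.1, u.1.2.1)) else Sum.inl u.1.1
    sep1 := ?_, sep2 := ?_
    s := fun σ => match σ with
      | [] => pt []
      | [v] => pt [p v]
      | [v, w] => ch v w
      | _ => 0
    s0 := rfl, sc := ?_, sl := ?_ }⟩
  · have := Deg.of_type (R := adj) (T := Fin 3 × Fin 3 × Bool)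
      (fun x y => (⟨y.2.2.1 % 3, by omega⟩, ⟨y.2.1.1 % 3, by omega⟩, decide (x.1 = y.1)))
      fun x y z h1 h2 e => by
        simp only [Prod.mk.injEq, Fin.mk.injEq, decide_eq_decide] at e
        have k : ∀ y, adj x y → (x.1 = y.1 ∧ x.2.2.1 ≤ y.2.2.1 + 1 ∧ y.2.2.1 ≤ x.2.2.1 + 1 ∧
            x.2.1.1 ≤ y.2.1.1 + 1 ∧ y.2.1.1 ≤ x.2.1.1 + 1) ∨ (x.1 ≠ y.1 ∧ y.2.2.1 = 2 * l + 1 ∧
            cr (x.1, x.2.1) (y.1, y.2.1)) := by
          rintro y (h | h | h)
          · exact Or.inl ⟨h.1, h.2.2.1, h.2.2.2, by rw [h.2.1]; omega, by rw [h.2.1]; omega⟩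
          · exact Or.inl ⟨h.1, by omega, by omega, h.2.2.2.1, h.2.2.2.2⟩
          · by_cases e : x.1 = y.1
            · have : x.2.1 = y.2.1 := by
                have a := h.2.2.2.1
                have b := h.2.2.2.2
                simp only at a b
                rw [a, b, e]
              exact Or.inl ⟨e, by omega, by omega, by rw [this]; omega, by rw [this]; omega⟩
            · exact Or.inr ⟨e, h.2.1, h.2.2⟩
        rcases k y h1 with a | a <;> rcases k z h2 with b | b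
        · exact Prod.ext (a.1.symm.trans b.1) (Prod.ext (Fin.ext (by omega)) (Fin.ext (by omega)))
        · exact (b.1 (e.2.2.1 a.1)).elim
        · exact (a.1 (e.2.2.2 b.1)).elim
        · have := cru _ _ _ a.2.2 b.2.2
          simp only [Prod.mk.injEq] at this
          exact Prod.ext this.1 (Prod.ext this.2 (Fin.ext (by omega)))
    simpa using this
  · intro y c c'
    simp [Bits]
    rfl
  · intro u v
    simp [Ker, Bits]
  · intro u
    simp [Ker, Bits]
  · intro k u z b c _ h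
    exact (h rfl).elim
  · intro u v h hc
    simp only [decide_eq_decide] at hc
    by_cases hu : l < u.1.2.2.1
    · have hv := hc.1 hu
      rw [if_pos hu, if_pos hv]
      by_contra hne
      have := h.lipZ (fun w => if cls (w.1.1, w.1.2.1) = cls (v.1.1, v.1.2.1) then (w.1.2.2.1 : ℤ)
        else -(w.1.2.2.1 : ℤ)) (by
          rintro x y (h | h | h)
          · rw [h.1, h.2.1]; split_ifs <;> omega
          · split_ifs <;> omega
          · rw [hcls _ _ h.2.2]; split_ifs <;> omega)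
      rw [if_pos rfl, if_neg fun e => hne (by rw [e])] at this
      omega
    · have hv : ¬ l < v.1.2.2.1 := fun h => hu (hc.2 h)
      rw [if_neg hu, if_neg hv]
      by_contra hne
      have := h.lipZ (fun w => if w.1.1 = u.1.1 then (w.1.2.2.1 : ℤ)
        else 4 * l + 3 - (w.1.2.2.1 : ℤ)) (by
          rintro x y (h | h | h)
          · rw [h.1]; split_ifs <;> omega
          · rw [h.1]; split_ifs <;> omega
          · split_ifs <;> omega)
      rw [if_pos rfl, if_neg fun e => hne (by rw [e])] at this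
      omega
  · intro u v hc hl
    simp only [decide_eq_decide] at hc
    by_cases hu : l < u.1.2.2.1
    · simp only [if_pos hu, if_pos (hc.1 hu), Sum.inr.injEq] at hl
      have : (v.1.1, v.1.2.1) ∈ cls (u.1.1, u.1.2.1) := hl ▸ Or.inl rfl
      rcases this with h | h
      · rw [(Prod.mk.inj h).1]; exact A.refl _
      · exact h.1
    · simp only [if_neg hu, if_neg fun h => hu (hc.2 h), Sum.inl.injEq] at hl
      rw [hl]; exact A.refl _
  · intro σ h1 h2
    match σ, h1, h2 with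
    | [], _, _ => simp [bdL]
    | [v], _, _ => simp [bdL]
    | [v, w], h1, _ =>
      simp only [(hch v w (h1 _ (by simp) _ (by simp))).1, bdL, map_add, consL_pt, map_zero,
        add_zero, lc_pt]
      rw [add_comm]
  · intro σ h1 h2
    match σ, h1, h2 with
    | [], _, _ => exact All.single (by simp [Small])
    | [v], _, _ => exact All.single (by simp [Small, refl, p])
    | [v, w], h1, _ =>
      refine (hch v w (h1 _ (by simp) _ (by simp))).2.mono ?_
      rintro _ ⟨x, y, rfl, h3, h4, h5⟩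
      refine ⟨rfl, ?_, ?_⟩
      · simp [Small, refl, h3, symm _ _ h3]
      · simpa using And.intro (h4 ()) (h5 ())

end

end Pool.Agent.Lib.MP_233c29_an
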