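import Pool.Agent.Lib.MP_233c29_an.Criterion

namespace Pool.Agent.Lib.MP_233c29_an

noncomputable section

open Classical

section
variable {V : Type}

def cup0 (g : V → F2) (ω : List V → F2) : List V → F2
  | [] => 0
  | v :: l => g v * ω (v :: l)

def cup1 (e : V → V → F2) (ω : List V → F2) : List V → F2
  | v :: w :: r => e v w * ω (w :: r)
  | _ => 0

lemma lc_cup0 (g : V → F2) (ω : List V → F2) (v : V) (c : Ch V) :
    lc (cup0 g ω) (consL v c) = g v * lc ω (consL v c) :=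
  (ch_eq (lc (cup0 g ω) ∘ₗ consL v) (g v • (lc ω ∘ₗ consL v)) (by simp [cup0]) c).trans (by simp)

lemma lc_cup1 (e : V → V → F2) (ω : List V → F2) (v w : V) (c : Ch V) :
    lc (cup1 e ω) (consL v (consL w c)) = e v w * lc ω (consL w c) :=
  (ch_eq (lc (cup1 e ω) ∘ₗ consL v ∘ₗ consL w) (e v w • (lc ω ∘ₗ consL w))
    (by simp [cup1]) c).trans (by simp)

lemma d_cup0 (g : V → F2) (ω : List V → F2) (v w : V) (r : List V) :
    lc (cup0 g ω) (bdL (v :: w :: r)) =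
      (g v + g w) * ω (w :: r) + g v * lc ω (bdL (v :: w :: r)) := by
  rw [bdL, map_add, map_add, lc_cup0, lc_pt, lc_pt, cup0]
  linear_combination (-1) * two (g v * ω (w :: r))

lemma d_cup1 (e : V → V → F2) (ω : List V → F2) (u v w : V) (r : List V) :
    lc (cup1 e ω) (bdL (u :: v :: w :: r)) =
      (e v w + e u w + e u v) * ω (w :: r) + e u v * lc ω (bdL (v :: w :: r)) := by
  rw [bdL, bdL]
  simp only [map_add, lc_cup1, lc_pt, consL_pt, cup1]
  linear_combination (-1) * two (e u v * ω (w :: r))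

lemma sym_choice {Λ C : Type} [Zero C] (Pr : Λ → Λ → C → Prop)
    (hs : ∀ a b x, Pr a b x → Pr b a x) (h0 : ∀ a, Pr a a 0) (he : ∀ a b, ∃ x, Pr a b x) :
    ∃ f : Λ → Λ → C, (∀ a b, f a b = f b a) ∧ (∀ a, f a a = 0) ∧ ∀ a b, Pr a b (f a b) := by
  obtain ⟨o, -⟩ := exists_wellFoundedLT Λ
  choose f hf using he
  refine ⟨fun a b => if a < b then f a b else if b < a then f b a else 0, fun a b => ?_,
    fun a => by simp, fun a b => ?_⟩
  · rcases lt_trichotomy a b with h | h | h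
    · simp [h, h.not_gt]
    · simp [h]
    · simp [h, h.not_gt]
  · rcases lt_trichotomy a b with h | h | h
    · simpa [h] using hf a b
    · simpa [h] using h0 b
    · simpa [h, h.not_gt] using hs _ _ _ (hf b a)

lemma sym_sum {Λ : Type} (s : Finset Λ) (f : Λ → Λ → F2) (h1 : ∀ a b, f a b = f b a)
    (h2 : ∀ a, f a a = 0) : ∑ a ∈ s, ∑ b ∈ s, f a b = 0 := by
  induction s using Finset.induction_on with
  | empty => simp
  | insert x s hx ih =>
    simp only [Finset.sum_insert hx, Finset.sum_add_distrib, ih, h2, zero_add, add_zero]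
    rw [Finset.sum_congr rfl fun a _ => h1 a x, two]

end

variable {X : Type} [MetricSpace X]

lemma Tower.NB_dec (t : Tower X) {F : Set (Set X)}
    (hF : ∀ ρ : ℝ, ∃ G : Set (Set X), t.NB G ∧ (∀ Q ∈ G, ∀ Q' ⊆ Q, Q' ∈ G) ∧ ∅ ∈ G ∧
      ∀ P ∈ F, ∃ U : Fin 2 → Set (Set X), (∀ x ∈ P, ∃ i, ∃ Q ∈ U i, x ∈ Q) ∧
        (∀ i, ∀ Q ∈ U i, Q ∈ G ∧ Q ⊆ P) ∧
        ∀ i, ∀ Q ∈ U i, ∀ Q' ∈ U i, Q ≠ Q' → ∀ x ∈ Q, ∀ y ∈ Q', ρ < dist x y) : t.NB F := by
  intro c j a hc
  set T0 := t.K j + t.S (j + 1) - t.S j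
  set K := t.K (j + 1)
  set b := a + T0 + K with hb
  set ρ := 2 * b + K with hρ
  obtain ⟨G, hG, hsub, hemp, hdec⟩ := hF ρ
  obtain ⟨j2, hj2, a2, T1, k1, H1⟩ := hG (c + 1) (j + 1) b (by omega)
  obtain ⟨j3, hj3, a4, T2, k2, H2⟩ := hG c j2 (max (b + T1) (max a2 (a2 + ρ))) (by omega)
  refine ⟨j3, by omega, a4, T0 + (T1 + T2), k1 + k2 + 1, fun h hh => ?_⟩
  obtain ⟨S0, hS0⟩ := t.up 1 j c hc (h - 1) h (by omega)
  obtain ⟨h2, e2, S1, hS1, H1⟩ := H1 (h - 1) (by omega)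
  obtain ⟨h3, e3, S2, hS2, H2⟩ := H2 h2 (by omega)
  have hS1' := hS1.mono (c' := c + 2) (by omega)
  refine ⟨h3, by omega, _, (hS2.comp hS1').comp hS0, fun P hP ω c0 s0 => ?_⟩
  obtain ⟨U, hcov, hmem, hsep⟩ := hdec P hP
  have c1 := hS0.cocyc c0 le_rfl
  have s1 := hS0.sup s0 (by omega)
  set ω1 := fun l => lc ω (S0 l)
  let A := t.L (j + 1) (h - 1)
  have := A.fin
  have := Fintype.ofFinite A.V
  let Gd : A.V → Fin 2 × Set X → Prop := fun v l => l.2 ∈ U l.1 ∧ ∃ x ∈ l.2, dist (A.loc v) x ≤ b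
  obtain ⟨u, hu, hu'⟩ : ∃ u : A.V → Fin 2 × Set X, (∀ v, (∃ l, Gd v l) → Gd v (u v)) ∧
      ∀ v, (u v).2 ∈ G ∧ (u v).2 ⊆ P := by
    refine ⟨fun v => if h : ∃ l, Gd v l then h.choose else (0, ∅), fun v h => ?_, fun v => ?_⟩
    · simpa only [dif_pos h] using h.choose_spec
    · by_cases h : ∃ l, Gd v l
      · simpa only [dif_pos h] using hmem _ _ h.choose_spec.1
      · simpa only [dif_neg h] using ⟨hemp, Set.empty_subset _⟩
  have hK : ∀ v w, A.adj v w → dist (A.loc v) (A.loc w) ≤ K := t.hK _ _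
  have good : ∀ σ τ, Small A.adj σ → (∀ x ∈ τ, x ∈ σ) → τ.length = c + 1 → ω1 τ ≠ 0 →
      ∀ v ∈ σ, Gd v (u v) := by
    intro σ τ h1 h2 h3 h4 v hv
    obtain ⟨y, hy, x, hx, h5⟩ := s1 τ (h1.sub h2) h3 h4
    obtain ⟨i, Q, hQ, hxQ⟩ := hcov x hx
    refine hu v ⟨(i, Q), hQ, x, hxQ, ?_⟩
    linarith [dist_triangle (A.loc v) (A.loc y) x, hK v y (h1 v hv y (h2 y hy))]
  have near : ∀ v w x y, A.adj v w → dist (A.loc v) x ≤ b → dist (A.loc w) y ≤ b →
      dist x y ≤ ρ := by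
    intro v w x y h1 h2 h3
    linarith [dist_triangle4 x (A.loc v) (A.loc w) y, hK v w h1, dist_comm x (A.loc v)]
  have same : ∀ v w, Gd v (u v) → Gd w (u w) → A.adj v w → (u v).1 = (u w).1 → u v = u w := by
    rintro v w ⟨h1, x, hx, h2⟩ ⟨h3, y, hy, h4⟩ h5 h6
    refine Prod.ext h6 ?_
    by_contra hne
    rw [h6] at h1
    exact (hsep _ _ h1 _ h3 hne x hx y hy).not_ge (near v w x y h5 h2 h4)
  let Λ := Finset.univ.image u
  have hΛ : ∀ l ∈ Λ, l.2 ∈ G ∧ l.2 ⊆ P := by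
    intro l hl
    obtain ⟨v, -, rfl⟩ := Finset.mem_image.1 hl
    exact hu' v
  let g : Fin 2 × Set X → A.V → F2 := fun l v => if u v = l then 1 else 0
  have hg : ∀ v, ∑ l ∈ Λ, g l v = 1 := by
    intro v
    simp only [g, Finset.sum_ite_eq]
    exact if_pos (Finset.mem_image_of_mem _ (Finset.mem_univ v))
  let e : Fin 2 × Set X → Fin 2 × Set X → A.V → A.V → F2 :=
    fun l m v w => g l v * g m w + g m v * g l w
  have esym : ∀ l m v w, e l m v w = e l m w v := fun l m v w => by simp only [e]; ring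
  have econg : ∀ l m v v' w, u v = u v' → e l m v w = e l m v' w :=
    fun l m v v' w h => by simp only [e, g, h]
  have ezero : ∀ l m v w, u v = u w → e l m v w = 0 := fun l m v w h => by
    simp only [e, g, h]
    rw [mul_comm, two]
  have hc1 : ∀ l m, Cocyc A (c + 1 + 2) (cup1 (e l m) ω1) := by
    intro l m σ h1 h2
    match σ, h1, h2 with
    | x :: y :: z :: r, h1, h2 =>
      rw [d_cup1, c1 _ (h1.sub fun _ h => List.mem_cons_of_mem _ h) (by simpa using h2), mul_zero,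
        add_zero]
      by_cases h0 : ω1 (z :: r) = 0
      · rw [h0, mul_zero]
      have gd := good _ (z :: r) h1
        (fun _ h => List.mem_cons_of_mem _ (List.mem_cons_of_mem _ h)) (by simpa using h2) h0
      have gx := gd x (by simp)
      have gy := gd y (by simp)
      have gz := gd z (by simp)
      have : (u x).1 = (u y).1 ∨ (u x).1 = (u z).1 ∨ (u y).1 = (u z).1 := by omega
      rcases this with h | h | h
      · have h := same x y gx gy (h1 _ (by simp) _ (by simp)) h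
        rw [ezero l m x y h, econg l m x y z h, two, add_zero, zero_mul]
      · have h := same x z gx gz (h1 _ (by simp) _ (by simp)) h
        rw [ezero l m x z h, econg l m x z y h, esym l m z y, add_zero, two, zero_mul]
      · have h := same y z gy gz (h1 _ (by simp) _ (by simp)) h
        rw [ezero l m y z h, esym l m x z, esym l m x y, econg l m y z x h, zero_add, two, zero_mul]
  have hs1 : ∀ l m, Sup A (c + 1 + 1) (cup1 (e l m) ω1)
      {p ∈ l.2 | ∃ q ∈ m.2, dist p q ≤ ρ} b := by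
    intro l m σ h1 h2 h3
    rcases σ with _ | ⟨x, _ | ⟨y, r⟩⟩
    · exact (h3 rfl).elim
    · exact (h3 rfl).elim
    · rw [cup1] at h3
      have gd := good _ (y :: r) h1 (fun _ h => List.mem_cons_of_mem _ h) (by simpa using h2)
        (right_ne_zero_of_mul h3)
      obtain ⟨-, p, hp, hp'⟩ := gd x (by simp)
      obtain ⟨-, q, hq, hq'⟩ := gd y (by simp)
      have h4 := left_ne_zero_of_mul h3
      have h5 : (u x = l ∧ u y = m) ∨ (u x = m ∧ u y = l) := by
        have hg' : ∀ l v, g l v ≠ 0 → u v = l := fun l v h => by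
          by_contra hn
          exact h (if_neg hn)
        by_cases h6 : g l x * g m y = 0
        · have h7 : g m x * g l y ≠ 0 := fun h7 => h4 (by simp only [e, h6, h7, add_zero])
          exact Or.inr ⟨hg' _ _ (left_ne_zero_of_mul h7), hg' _ _ (right_ne_zero_of_mul h7)⟩
        · exact Or.inl ⟨hg' _ _ (left_ne_zero_of_mul h6), hg' _ _ (right_ne_zero_of_mul h6)⟩
      rcases h5 with ⟨rfl, rfl⟩ | ⟨rfl, rfl⟩
      · exact ⟨x, by simp, p, ⟨hp, q, hq, near x y p q (h1 _ (by simp) _ (by simp)) hp' hq'⟩, hp'⟩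
      · exact ⟨y, by simp, q, ⟨hq, p, hp, near y x q p (h1 _ (by simp) _ (by simp)) hq' hp'⟩, hq'⟩
  obtain ⟨α, αs, α0, hα⟩ := sym_choice (fun (l m : Fin 2 × Set X)
      (α : List (t.L j2 h2).V → F2) => l ∈ Λ → m ∈ Λ →
      Sup _ (c + 1) α l.2 (max a2 (a2 + ρ)) ∧ Sup _ (c + 1) α m.2 (max a2 (a2 + ρ)) ∧
      ∀ σ, Small (t.L j2 h2).adj σ → σ.length = c + 1 + 1 →
        lc (cup1 (e l m) ω1) (S1 σ) = lc α (bdL σ))
    (fun l m α h hm hl => ⟨(h hl hm).2.1, (h hl hm).1, fun σ h1 h2 => by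
      rw [← (h hl hm).2.2 σ h1 h2]
      congr 3
      funext v w
      simp only [e]
      ring⟩)
    (fun l _ _ => ⟨fun σ _ _ h => (h rfl).elim, fun σ _ _ h => (h rfl).elim, fun σ _ _ => by
      have e1 : cup1 (e l l) ω1 = fun _ => 0 := by
        funext τ
        match τ with
        | [] => rfl
        | [_] => rfl
        | x :: y :: r => simp only [cup1, e, two, zero_mul]
      rw [e1, lc_zero]
      exact (lc_zero _).symm⟩)
    (fun l m => by
      by_cases hl : l ∈ Λ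
      · obtain ⟨α, h1, h2⟩ := H1 _ (hsub _ (hΛ l hl).1 _ (Set.sep_subset _ _)) _ (hc1 l m) (hs1 l m)
        exact ⟨α, fun _ _ => ⟨h1.mono 0 (fun x hx => ⟨x, hx.1, (dist_self x).le⟩) (by simp),
          h1.mono ρ (fun x hx => hx.2) (by simp), h2⟩⟩
      · exact ⟨0, fun h => (hl h).elim⟩)
  have key : ∀ l ∈ Λ, ∃ β, Sup (t.L j3 h3) c β l.2 a4 ∧ ∀ σ, Small (t.L j3 h3).adj σ →
      σ.length = c + 1 →
      lc (fun σ => lc (cup0 (g l) ω1) (S1 σ) + ∑ m ∈ Λ, α l m σ) (S2 σ) = lc β (bdL σ) := by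
    intro l hl
    refine H2 _ (hΛ l hl).1 _ (fun σ h1 h2 => ?_) (Sup.add ?_ ?_)
    · rw [lc_add, lc_sum, hS1.lc_bd _ h1 (by omega),
        ← Finset.sum_congr rfl fun m hm => (hα l m hl hm).2.2 σ h1 h2, ← lc_sum,
        (hS1.2 σ h1 (by omega)).2.congr (g := fun τ => ∑ m ∈ Λ, cup1 (e l m) ω1 τ), two]
      intro τ hτ
      have h4 : τ.length = c + 2 := by omega
      match τ, hτ.2.1, h4 with
      | x :: y :: r, h5, h4 =>
        rw [d_cup0, c1 _ h5 h4]
        simp only [cup1, e, ← Finset.sum_mul, Finset.sum_add_distrib, ← Finset.mul_sum, hg]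
        ring
    · have : Sup A (c + 1) (cup0 (g l) ω1) l.2 b := by
        intro σ h1 h2 h3
        match σ, h1, h2, h3 with
        | x :: r, h1, h2, h3 =>
          rw [cup0] at h3
          obtain ⟨-, p, hp, hp'⟩ := good _ _ h1 (fun _ h => h) h2 (right_ne_zero_of_mul h3) x
            (by simp)
          have h4 : u x = l := by
            by_contra hn
            exact left_ne_zero_of_mul h3 (if_neg hn)
          exact ⟨x, by simp, p, h4 ▸ hp, hp'⟩
      exact (hS1.sup this (by omega)).mono 0 (fun x hx => ⟨x, hx, (dist_self x).le⟩)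
        (by rw [add_zero]; exact le_max_left _ _)
    · exact Sup.sum _ fun m hm => (hα l m hl hm).1.mono 0
        (fun x hx => ⟨x, hx, (dist_self x).le⟩) (by simp)
  choose! β hβ using key
  refine ⟨fun σ => ∑ l ∈ Λ, β l σ, Sup.sum _ fun l hl => (hβ l hl).1.mono 0
    (fun x hx => ⟨x, (hΛ l hl).2 hx, (dist_self x).le⟩) (by simp), fun σ h1 h2 => ?_⟩
  rw [lc_sum, ← Finset.sum_congr rfl fun l hl => (hβ l hl).2 σ h1 h2, ← lc_sum, map_lc, map_lc]
  refine (hS2.2 σ h1 (by omega)).2.congr fun τ hτ => ?_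
  rw [Finset.sum_add_distrib, sym_sum Λ (fun l m => α l m τ) (fun l m => by rw [αs])
    (fun l => by rw [α0]; rfl), add_zero, ← lc_sum]
  refine (hS1.2 τ hτ.2.1 (by omega)).2.congr fun r hr => ?_
  have h4 : r.length = c + 1 := by omega
  match r, h4 with
  | x :: r, _ => simp only [cup0, ← Finset.sum_mul, hg, one_mul, ω1]

theorem Tower.not_FDC {Z : MS} (t : Tower Z.X) : ¬ FDC Z := by
  intro h
  let F : Set MS → Set (Set Z.X) := fun A =>
    {P | P.Nonempty → ∃ W ∈ A, ∃ ι : W.X → Z.X, Isometry ι ∧ P ⊆ Set.range ι}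
  refine t.not_NB (F := F {Z}) (fun _ => ⟨Z, rfl, id, isometry_id, by simp⟩)
    (h {A | t.NB (F A)} ?_ ?_)
  · rintro A ⟨D, hD⟩
    refine t.NB_bdd D fun P hP x hx y hy => ?_
    obtain ⟨W, hW, ι, h1, h2⟩ := hP ⟨x, hx⟩
    obtain ⟨x, rfl⟩ := h2 hx
    obtain ⟨y, rfl⟩ := h2 hy
    rw [h1.dist_eq]
    exact hD W hW x y
  · intro A hA
    refine t.NB_dec fun ρ => ?_
    obtain ⟨B, hB, hd⟩ := hA (max ρ 1) (by positivity)
    refine ⟨F B, hB, fun Q hQ Q' h1 h2 => ?_, fun h => by simp at h, fun P hP => ?_⟩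
    · obtain ⟨W, hW, ι, h3, h4⟩ := hQ (h2.mono h1)
      exact ⟨W, hW, ι, h3, h1.trans h4⟩
    rcases P.eq_empty_or_nonempty with rfl | hne
    · exact ⟨fun _ => ∅, by simp, by simp, by simp⟩
    obtain ⟨W, hW, ι, h1, h2⟩ := hP hne
    obtain ⟨U, u1, u2, u3⟩ := hd W hW
    refine ⟨fun i => (fun Q => P ∩ ι '' Q) '' U i, fun x hx => ?_, ?_, ?_⟩
    · obtain ⟨z, rfl⟩ := h2 hx
      obtain ⟨i, Q, hQ, hz⟩ := u1 z
      exact ⟨i, _, ⟨Q, hQ, rfl⟩, hx, z, hz, rfl⟩
    · rintro i _ ⟨Q, hQ, rfl⟩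
      refine ⟨fun _ => ⟨W.sub Q, u2 i Q hQ, fun z => ι z.1, h1.comp isometry_subtype_coe, ?_⟩,
        Set.inter_subset_left⟩
      rintro _ ⟨-, z, hz, rfl⟩
      exact ⟨⟨z, hz⟩, rfl⟩
    · rintro i _ ⟨Q, hQ, rfl⟩ _ ⟨Q', hQ', rfl⟩ hne _ ⟨-, x, hx, rfl⟩ _ ⟨-, y, hy, rfl⟩
      rw [h1.dist_eq]
      exact (le_max_left _ _).trans_lt (u3 i Q hQ Q' hQ' (fun e => hne (by rw [e])) x hx y hy)

end

end Pool.Agent.Lib.MP_233c29_an
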