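import Mathlib

namespace Pool.Agent.Lib.MP_233c29_an

noncomputable section

open Classical

abbrev L2 (X : Type) := lp (fun _ : X => ℂ) 2

def dl {X : Type} (x : X) : L2 X := lp.single 2 x 1

lemma inner_dl {X : Type} (x : X) (f : L2 X) : inner ℂ (dl x) f = f x := by
  simp [dl, lp.inner_single_left]

lemma norm_dl {X : Type} (x : X) : ‖dl x‖ = 1 := by
  simp [dl, lp.norm_single]

lemma ext_dl {X E : Type} [NormedAddCommGroup E] [NormedSpace ℂ E] {f g : L2 X →L[ℂ] E}
    (h : ∀ x, f (dl x) = g (dl x)) : f = g :=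
  lp.ext_continuousLinearMap (by simp) fun i => ContinuousLinearMap.ext_ring (h i)

theorem schur {Y : Type} (κ : Y → Y → ℂ) (c : ℝ) (hc : 0 ≤ c)
    (hr : ∀ y (s : Finset Y), ∑ z ∈ s, ‖κ y z‖ ≤ c)
    (hl : ∀ z (s : Finset Y), ∑ y ∈ s, ‖κ y z‖ ≤ c) :
    ∃ E : L2 Y →L[ℂ] L2 Y, ‖E‖ ≤ c ∧ ∀ y z, E (dl z) y = κ y z := by
  have h2 : (2 : ENNReal).toReal = 2 := by simp
  have hb : ∀ (f : L2 Y) z, ‖f z‖ ≤ ‖f‖ := fun f z => lp.norm_apply_le_norm (by simp) f z
  have s0 : ∀ y, Summable fun z => ‖κ y z‖ := fun y =>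
    summable_of_sum_le (fun _ => norm_nonneg _) (hr y)
  have s1 : ∀ (f : L2 Y) y, Summable fun z => ‖κ y z * f z‖ := fun f y =>
    .of_nonneg_of_le (fun _ => norm_nonneg _) (fun z => by
      rw [norm_mul]; exact mul_le_mul_of_nonneg_left (hb f z) (norm_nonneg _))
      ((s0 y).mul_right ‖f‖)
  have s2 : ∀ (f : L2 Y) y, Summable fun z => ‖κ y z‖ * ‖f z‖ ^ 2 := fun f y =>
    .of_nonneg_of_le (fun _ => by positivity) (fun z => by gcongr; exact hb f z)
      ((s0 y).mul_right (‖f‖ ^ 2))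
  have s3 : ∀ f : L2 Y, HasSum (fun z => ‖f z‖ ^ 2) (‖f‖ ^ 2) := fun f => by
    simpa [h2] using lp.hasSum_norm (by simp) f
  have k1 : ∀ (f : L2 Y) y, ‖∑' z, κ y z * f z‖ ^ 2 ≤ c * ∑' z, ‖κ y z‖ * ‖f z‖ ^ 2 := by
    intro f y
    have t0 : 0 ≤ ∑' z, ‖κ y z‖ * ‖f z‖ ^ 2 := tsum_nonneg fun _ => by positivity
    rw [← Real.le_sqrt (norm_nonneg _) (mul_nonneg hc t0)]
    refine (norm_tsum_le_tsum_norm (s1 f y)).trans ((s1 f y).tsum_le_of_sum_le fun s => ?_)
    apply Real.le_sqrt_of_sq_le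
    refine (Finset.sum_sq_le_sum_mul_sum_of_sq_le_mul s (f := fun z => ‖κ y z‖)
      (g := fun z => ‖κ y z‖ * ‖f z‖ ^ 2) (fun _ _ => norm_nonneg _) (fun _ _ => by positivity)
      fun z _ => by rw [norm_mul]; exact le_of_eq (by ring)).trans ?_
    exact mul_le_mul (hr y s) ((s2 f y).sum_le_tsum s fun _ _ => by positivity)
      (Finset.sum_nonneg fun _ _ => by positivity) hc
  have k2 : ∀ (f : L2 Y) (s : Finset Y),
      ∑ y ∈ s, ‖∑' z, κ y z * f z‖ ^ (2 : ENNReal).toReal ≤ (c * ‖f‖) ^ (2 : ENNReal).toReal := by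
    intro f s
    simp only [h2, Real.rpow_two]
    refine (Finset.sum_le_sum fun y _ => k1 f y).trans ?_
    rw [← Finset.mul_sum, ← Summable.tsum_finsetSum fun y _ => s2 f y, mul_pow, sq c, mul_assoc]
    refine mul_le_mul_of_nonneg_left ?_ hc
    rw [← ((s3 f).mul_left c).tsum_eq]
    refine Summable.tsum_le_tsum (fun z => ?_) (summable_sum fun y _ => s2 f y)
      ((s3 f).mul_left c).summable
    rw [← Finset.sum_mul]
    exact mul_le_mul_of_nonneg_right (hl z s) (by positivity)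
  let E : L2 Y →ₗ[ℂ] L2 Y :=
    { toFun := fun f => ⟨fun y => ∑' z, κ y z * f z, memℓp_gen' (k2 f)⟩
      map_add' := fun f g => lp.ext (funext fun y => by
        simp only [lp.coeFn_add, Pi.add_apply, mul_add]
        exact (s1 f y).of_norm.tsum_add (s1 g y).of_norm)
      map_smul' := fun a f => lp.ext (funext fun y => by
        simp only [lp.coeFn_smul, Pi.smul_apply, smul_eq_mul, RingHom.id_apply, mul_left_comm _ a]
        exact tsum_mul_left) }
  have hE : ∀ f, ‖E f‖ ≤ c * ‖f‖ := fun f =>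
    lp.norm_le_of_forall_sum_le (by simp) (by positivity) (k2 f)
  refine ⟨E.mkContinuous c hE, LinearMap.mkContinuous_norm_le _ hc _, fun y z => ?_⟩
  change ∑' w, κ y w * dl z w = _
  rw [tsum_eq_single z fun w hw => by simp [dl, lp.single_apply, hw]]
  simp [dl]

theorem embed {X Ω Y : Type} [Nonempty Ω] (π : Y → X) (w : X × Ω → L2 Y) (ho : Orthonormal ℂ w)
    (hw : ∀ x γ y, π y ≠ x → w (x, γ) y = 0) :
    ∃ Φ : (L2 X →L[ℂ] L2 X) →⋆ₙₐ[ℂ] (L2 Y →L[ℂ] L2 Y), Function.Injective Φ ∧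
      (∀ T, ‖Φ T‖ ≤ ‖T‖) ∧ ∀ T y y', Φ T (dl y) y' = T (dl (π y)) (π y') *
        ∑' γ, w (π y', γ) y' * (starRingEnd ℂ) (w (π y, γ) y) := by
  have o1 : ∀ γ, Orthonormal ℂ fun x => w (x, γ) := fun γ =>
    ho.comp (fun x => (x, γ)) fun _ _ h => (Prod.mk.inj h).1
  let V : Ω → L2 X →ₗᵢ[ℂ] L2 Y := fun γ => (o1 γ).orthogonalFamily.linearIsometry
  have V1 : ∀ γ x, V γ (dl x) = w (x, γ) := fun γ x => by simp [V, dl]
  have o2 : OrthogonalFamily ℂ (fun _ : Ω => L2 X) V := by
    intro γ γ' hne u v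
    have a : ∀ x, innerSL ℂ (w (x, γ)) ∘L (V γ').toContinuousLinearMap = 0 := fun x =>
      ext_dl fun x' => by
        simpa [V1] using ho.2 (show (x, γ) ≠ (x', γ') from fun e => hne (Prod.mk.inj e).2)
    have b : innerSL ℂ (V γ' v) ∘L (V γ).toContinuousLinearMap = 0 := ext_dl fun x => by
      have := congrArg (fun f => f v) (a x)
      simpa [V1, inner_eq_zero_symm] using this
    have := congrArg (fun f => f u) b
    simpa [inner_eq_zero_symm] using this
  let W := o2.linearIsometry.toContinuousLinearMap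
  let W' := ContinuousLinearMap.adjoint W
  let D : (L2 X →L[ℂ] L2 X) → lp (fun _ : Ω => L2 X) 2 →L[ℂ] lp (fun _ : Ω => L2 X) 2 :=
    fun T => lp.mapCLM 2 (fun _ => T) (norm_nonneg T) fun _ => le_rfl
  have D1 : ∀ T f γ, D T f γ = T (f γ) := fun _ _ _ => rfl
  have WW : ∀ f, W' (W f) = f := fun f => ext_inner_left ℂ fun g => by
    rw [ContinuousLinearMap.adjoint_inner_right]
    exact o2.linearIsometry.inner_map_map g f
  have nW : ‖W‖ ≤ 1 := LinearIsometry.norm_toContinuousLinearMap_le _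
  have nW' : ‖W'‖ ≤ 1 := by rwa [LinearIsometryEquiv.norm_map]
  have Ds : ∀ T, D (star T) = star (D T) := fun T => by
    rw [ContinuousLinearMap.star_eq_adjoint (D T), ContinuousLinearMap.eq_adjoint_iff]
    intro f g
    simp only [lp.inner_eq_tsum, D1, ContinuousLinearMap.star_eq_adjoint,
      ContinuousLinearMap.adjoint_inner_left]
  have W1 : ∀ y γ, W' (dl y) γ = (starRingEnd ℂ) (w (π y, γ) y) • dl (π y) := fun y γ =>
    lp.ext (funext fun x => by
      rw [← inner_dl, ← lp.inner_single_left (𝕜 := ℂ) γ (dl x) (W' (dl y)),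
        ContinuousLinearMap.adjoint_inner_right]
      have : W (lp.single 2 γ (dl x)) = w (x, γ) := by simp [W, V1]
      rw [this, ← inner_conj_symm, inner_dl]
      by_cases e : π y = x
      · subst e
        simp [dl]
      · simp [dl, hw _ _ _ e, lp.single_apply, Pi.single_eq_of_ne' e])
  let Φ : (L2 X →L[ℂ] L2 X) →⋆ₙₐ[ℂ] (L2 Y →L[ℂ] L2 Y) :=
    { toFun := fun T => W ∘L D T ∘L W'
      map_smul' := fun a T => by
        have : D (a • T) = a • D T := by ext f γ; rfl
        simp [this]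
      map_zero' := by
        have : D 0 = 0 := by ext f γ; rfl
        simp [this]
      map_add' := fun S T => by
        have : D (S + T) = D S + D T := by ext f γ; rfl
        simp [this]
      map_mul' := fun S T => by
        have : D (S * T) = D S * D T := by ext f γ; rfl
        ext1 f
        simp [this, WW]
      map_star' := fun T => by
        rw [Ds]
        simp [ContinuousLinearMap.star_eq_adjoint, W', ContinuousLinearMap.comp_assoc] }
  refine ⟨Φ, (injective_iff_map_eq_zero Φ).2 fun T h => ?_, fun T => ?_, fun T y y' => ?_⟩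
  · obtain ⟨γ⟩ := ‹Nonempty Ω›
    ext1 v
    have h1 : W (D T (W' (W (lp.single 2 γ v)))) = 0 :=
      congrArg (fun f => f (W (lp.single 2 γ v))) h
    have h2 := congrArg (fun f => W' f γ) h1
    simpa [WW, D1] using h2
  · have := lp.norm_mapCLM_le (E := fun _ : Ω => L2 X) (F := fun _ : Ω => L2 X) 2 (fun _ => T)
      (norm_nonneg T) fun _ => le_rfl
    refine (ContinuousLinearMap.opNorm_comp_le _ _).trans ?_
    refine (mul_le_of_le_one_left (norm_nonneg _) nW).trans ?_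
    exact (ContinuousLinearMap.opNorm_comp_le _ _).trans
      ((mul_le_of_le_one_right (norm_nonneg _) nW').trans this)
  · change W (D T (W' (dl y))) y' = _
    rw [← inner_dl, ← ContinuousLinearMap.adjoint_inner_left, lp.inner_eq_tsum, ← tsum_mul_left]
    refine tsum_congr fun γ => ?_
    rw [D1, W1, W1, map_smul, inner_smul_left, inner_smul_right, inner_dl]
    simp only [RingHomCompTriple.comp_apply, RingHom.id_apply]
    ring

def FP (X : Type) [MetricSpace X] : Set (L2 X →L[ℂ] L2 X) :=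
  {T | ∃ r : ℝ, ∀ x y, r < dist x y → T (dl y) x = 0}

theorem mapsTo {X Y : Type} [MetricSpace X] [MetricSpace Y] (π : Y → X) (k : Y → Y → ℝ)
    (Φ : (L2 X →L[ℂ] L2 X) →⋆ₙₐ[ℂ] (L2 Y →L[ℂ] L2 Y)) (h1 : ∀ T, ‖Φ T‖ ≤ ‖T‖)
    (h2 : ∀ T y y', ‖Φ T (dl y) y'‖ = ‖T (dl (π y)) (π y')‖ * k y y')
    (ks : ∀ y y', k y y' = k y' y) (k0 : ∀ y y', 0 ≤ k y y')
    (hX : ∀ r : ℝ, ∃ N : ℕ, ∀ x : X, (Metric.closedBall x r).encard ≤ N)
    (hk : ∀ r ε : ℝ, 0 < ε → ∃ S : ℝ, ∀ y x, dist x (π y) ≤ r → ∀ s : Finset Y,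
      (∀ z ∈ s, π z = x ∧ S < dist z y) → ∑ z ∈ s, k y z ≤ ε) :
    Set.MapsTo Φ (closure (FP X)) (closure (FP Y)) := by
  have hc : Continuous Φ := AddMonoidHomClass.continuous_of_bound Φ 1 (by simpa using h1)
  suffices h : Set.MapsTo Φ (FP X) (closure (FP Y)) by simpa using h.closure hc
  rintro T ⟨r, hT⟩
  refine Metric.mem_closure_iff.2 fun ε hε => ?_
  obtain ⟨N, hN⟩ := hX r
  have hp : 0 < (N + 1) * (‖T‖ + 1) := by positivity
  obtain ⟨S, hS⟩ := hk r (ε / ((N + 1) * (‖T‖ + 1))) (by positivity)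
  have key : ∀ (t : Y → Y → ℝ), (∀ y z, t y z ≤ ‖T‖) → (∀ y z, r < dist (π z) (π y) → t y z = 0) →
      ∀ y (s : Finset Y), ∑ z ∈ s, (if S < dist z y then t y z * k y z else 0) ≤
        N * (‖T‖ * (ε / ((N + 1) * (‖T‖ + 1)))) := by
    intro t t1 t2 y s
    have fin : (Metric.closedBall (π y) r).Finite := Set.finite_of_encard_le_coe (hN _)
    have hcard : fin.toFinset.card ≤ N := by
      have := hN (π y)
      rwa [fin.encard_eq_coe_toFinset_card, Nat.cast_le] at this
    rw [← Finset.sum_filter, ← Finset.sum_filter_of_ne (p := fun z => π z ∈ fin.toFinset)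
      fun z _ hz => by
        by_contra e
        exact hz (by rw [t2 y z (by simpa using e), zero_mul]),
      ← Finset.sum_fiberwise_of_maps_to (g := π) (t := fin.toFinset)
        fun z hz => (Finset.mem_filter.1 hz).2]
    refine (Finset.sum_le_card_nsmul _ _ (‖T‖ * (ε / ((N + 1) * (‖T‖ + 1)))) fun x hx => ?_).trans ?_
    · refine (Finset.sum_le_sum fun z _ => mul_le_mul_of_nonneg_right (t1 y z) (k0 _ _)).trans ?_
      rw [← Finset.mul_sum]
      refine mul_le_mul_of_nonneg_left (hS y x (by simpa using hx) _ fun z hz => ?_)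
        (norm_nonneg _)
      simp only [Finset.mem_filter] at hz
      exact ⟨hz.2, hz.1.1.2⟩
    · rw [nsmul_eq_mul]
      gcongr
  have tb : ∀ x x', ‖T (dl x) x'‖ ≤ ‖T‖ := fun x x' =>
    (lp.norm_apply_le_norm (by simp) _ _).trans ((T.le_opNorm _).trans (by simp [norm_dl]))
  obtain ⟨E, e1, e2⟩ := schur (fun y z => if S < dist y z then Φ T (dl z) y else 0) _
    (by positivity : 0 ≤ N * (‖T‖ * (ε / ((N + 1) * (‖T‖ + 1))))) (fun y s => by
      refine le_trans (le_of_eq (Finset.sum_congr rfl fun z _ => ?_))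
        (key (fun y z => ‖T (dl (π z)) (π y)‖) (fun _ _ => tb _ _)
          (fun y z h => by rw [hT _ _ (by rwa [dist_comm]), norm_zero]) y s)
      rw [dist_comm]
      split_ifs
      · rw [h2, ks]
      · exact norm_zero) (fun z s => by
      refine le_trans (le_of_eq (Finset.sum_congr rfl fun y _ => ?_))
        (key (fun y z => ‖T (dl (π y)) (π z)‖) (fun _ _ => tb _ _)
          (fun y z h => by rw [hT _ _ h, norm_zero]) z s)
      split_ifs
      · rw [h2]
      · exact norm_zero)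
  refine ⟨Φ T - E, ⟨S, fun y z h => by simp [e2, h]⟩, ?_⟩
  rw [dist_eq_norm, sub_sub_cancel]
  refine e1.trans_lt ?_
  rw [← mul_assoc, ← mul_div_assoc, div_lt_iff₀ hp, mul_comm]
  refine mul_lt_mul_of_pos_left ?_ hε
  have := norm_nonneg T
  have : (0 : ℝ) ≤ N := Nat.cast_nonneg N
  nlinarith

end

end Pool.Agent.Lib.MP_233c29_an
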