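import Pool.Agent.Lib.MP_233c29_an.Glue
import Pool.Agent.Lib.MP_233c29_an.Op
import Pool.Agent.Lib.MP_233c29_an.MV

namespace Pool.Agent.Lib.MP_233c29_an

noncomputable section

open Classical

instance gFin (h j : ℕ) : Finite (G h j).V := (G h j).fin

instance fibZero (n : ℕ) : Zero (Fib n 0) := ⟨default⟩

lemma exists_H (n : ℕ) : ∃ H, n < H ∧ ∀ u v, DD n 0 u v ≤ H := by
  obtain ⟨c, hc⟩ := (Set.finite_range fun p : _ × _ => DD n 0 p.1 p.2).bddAbove
  exact ⟨n + 1 + c, by omega, fun u v => (hc ⟨(u, v), rfl⟩).trans (by omega)⟩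

def HH (n : ℕ) : ℕ := (exists_H n).choose

lemma HH_gt (n : ℕ) : n < HH n := (exists_H n).choose_spec.1

lemma HH_ge (n : ℕ) (u v) : DD n 0 u v ≤ HH n := (exists_H n).choose_spec.2 u v

abbrev XX := Σ n, (G n 0).V

abbrev Om := Π₀ n, Fib n 0

abbrev YY := (Σ n, (G n 0).V × Fib n 0) × Om

def dX : XX → XX → ℕ := gl (fun n => (G n 0).d) HH

def dY : YY → YY → ℕ := mx (gl (fun n => DD n 0) HH) rho

lemma mX : IsM dX := gl_isM (fun n => (G n 0).isM)
  (fun n a b => (d_le_DD n 0 (a, 0) (b, 0)).trans (HH_ge _ _ _)) HH_gt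

lemma mY : IsM dY := mx_isM (gl_isM (fun n => DD_isM n 0) HH_ge HH_gt) rho_isM

lemma ulfX : ULF mX.ms := mX.ulf (gl_ulf (fun _ => inferInstance) HH_gt fun r => ⟨_, deg_d r⟩)

lemma ulfY : ULF mY.ms := mY.ulf (mx_ulf (gl_ulf (fun _ => inferInstance) HH_gt deg_DD) rho_ulf)

lemma fdcY : FDC mY.ms := mY.fdc fun r => by
  obtain ⟨B, hB⟩ := asdim r r 0 (by omega)
  refine ⟨_, mx_AD (gl_AD HH_ge HH_gt (c := B) fun n hn => ?_) rho_isM fun _ _ _ => rho_ult⟩
  obtain ⟨col, rel, a, b, c⟩ := hB n hn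
  exact ⟨col, rel, a, b, fun u v h => (c u v h).1⟩

/-! ### the tower in `X` -/

def loc : ∀ j h, (G h j).V → XX
  | 0, h, z => ⟨h, z⟩
  | j + 1, h, z => loc j (h + 1) ((TT h j).p (z, 0))

lemma loc_up (j h k : ℕ) {v w : (G h j).V} (H : Rch (G h j).adj k v w) :
    dX (loc j h v) (loc j h w) ≤ Kc j * k := by
  induction j generalizing h k with
  | zero => simpa [loc, dX, gl_same, Kc] using Gr.d_le H
  | succ j ih =>
    have := ih (h + 1) _ (H.mul (S := (TT h j).adj) (fun z => (TT h j).p (z, 0)) fun x y e =>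
      ((TT h j).C2 Set.univ (x, 0) (y, 0) trivial trivial ⟨e, by simp, by simp⟩).map id
        fun _ _ h => h.1)
    rwa [mul_comm k, ← mul_assoc] at this

lemma F_rch {h j k : ℕ} {y z : (TT h j).B} (H : Rch (TT h j).adj k y z) :
    ∃ c, Rch ((G h (j + 1)).iadj (MM j)) k ((TT h j).F y default) ((TT h j).F z c) := by
  obtain ⟨c, hc⟩ := Rch.lift (TT h j).lift H default
  exact ⟨c, hc.map (fun u => (TT h j).F u.1 u.2) (TT h j).c2⟩

lemma loc_fst (j h : ℕ) (v : (G h j).V) : (loc j h v).1 = h + j := by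
  induction j generalizing h with
  | zero => rfl
  | succ j ih => rw [loc, ih]; omega

lemma loc_low (j h k : ℕ) {v w : (G h j).V} (H : dX (loc j h v) (loc j h w) ≤ k) :
    Rch (G h j).adj k v w := by
  induction j generalizing h with
  | zero => exact Gr.rch (by simpa [loc, dX, gl_same] using H)
  | succ j ih =>
    obtain ⟨c, hc⟩ := F_rch (ih (h + 1) H)
    rw [Stage.Fp, Stage.Fp] at hc
    exact hc.map Prod.fst fun _ _ e => e.1

abbrev LV (j h : ℕ) : Lv mX.ms.X := ⟨(G h j).V, inferInstance, (G h j).adj, loc j h⟩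

def TK (j : ℕ) : ℝ := (Kc j * ((2 * MM j + 3) * EE j) : ℕ)

def sT (h j : ℕ) : List ((G h (j + 1)).V × Fin (MM j + 1)) → Ch (G (h + 1) j).V := (TT h j).s

def FT (h j : ℕ) : (G (h + 1) j).V → Bits j → (G h (j + 1)).V × Fin (MM j + 1) := (TT h j).F

lemma sT_c {h j : ℕ} {σ} (h1 : Small ((G h (j + 1)).iadj (MM j)) σ) (h2 : σ.length ≤ j + 2) :
    bd (sT h j σ) = lc (sT h j) (bdL σ) := (TT h j).sc σ h1 h2

lemma sT_l {h j : ℕ} {σ} (h1 : Small ((G h (j + 1)).iadj (MM j)) σ) (h2 : σ.length ≤ j + 2) :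
    All (fun τ => τ.length = σ.length ∧ Small (G (h + 1) j).adj τ ∧ ∀ y ∈ τ, ∀ b, FT h j y b ∈ σ)
      (sT h j σ) := (TT h j).sl σ h1 h2

lemma near {h j : ℕ} {y : (G (h + 1) j).V} {x : (G h (j + 1)).V}
    (H : (G h (j + 1)).adj (FT h j y default).1 x) :
    dist ((LV j (h + 1)).loc y) ((LV (j + 1) h).loc x) ≤ TK j := by
  have h1 := (TT h j).rch (y := y) (z := (TT h j).p (x, 0)) (b := default) (c := default)
    (k := 1 + 2 * MM j) (by rw [Stage.Fp]; exact Gr.iadj_rch (MM j) (Rch.one H) _ _)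
  have h2 := loc_up j (h + 1) _ h1
  rw [show 1 + 2 * MM j + 2 = 2 * MM j + 3 by omega] at h2
  exact Nat.cast_le.2 h2

lemma slice {h j : ℕ} (t : Fin (MM j + 1)) {σ : List (G h (j + 1)).V}
    (h1 : Small (G h (j + 1)).adj σ) : Small ((G h (j + 1)).iadj (MM j)) (σ.map (·, t)) := by
  simp only [Small, List.mem_map]
  rintro _ ⟨x, hx, rfl⟩ _ ⟨y, hy, rfl⟩
  exact ⟨h1 x hx y hy, by simp, by simp⟩

lemma far (j h : ℕ) (x : mX.ms.X) : ∃ t : Fin (MM j + 1), (t = 0 ∨ t = Fin.last _) ∧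
    ∀ y : (G (h + 1) j).V, (∀ b, (FT h j y b).2 = t) →
      (j : ℝ) + (SS j : ℕ) < dist ((LV j (h + 1)).loc y) x := by
  by_contra hc
  push Not at hc
  obtain ⟨y, h1, h2⟩ := hc 0 (Or.inl rfl)
  obtain ⟨z, h3, h4⟩ := hc (Fin.last _) (Or.inr rfl)
  have h5 := dist_triangle_right ((LV j (h + 1)).loc y) ((LV j (h + 1)).loc z) x
  have h6 : (dX (loc j (h + 1) y) (loc j (h + 1) z) : ℝ) ≤ (2 * (j + SS j) : ℕ) := by
    push_cast
    exact h5.trans (by linarith)
  obtain ⟨c, hc⟩ := F_rch (loc_low j (h + 1) _ (Nat.cast_le.1 h6))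
  have : ((FT h j z c).2.1 : ℤ) ≤ (FT h j y default).2.1 + (2 * (j + SS j) : ℕ) :=
    hc.lipZ (fun u => (u.2.1 : ℤ)) fun a b e => by exact_mod_cast e.2.2
  rw [h1, h3] at this
  simp [MM] at this

def tower : Tower mX.ms.X where
  L := LV
  ne j h := (G h j).ne
  refl j h := (G h j).refl
  K j := Kc j
  hK j h v w e := Nat.cast_le.2 ((loc_up j h 1 (Rch.one e)).trans (mul_one _).le)
  T := TK
  S j := SS j
  S0 _ := Nat.cast_nonneg _
  hS j := by simp [SS, TK, MM]
  s j h σ := sT h j (σ.map (·, 0))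
  hs j h := by
    refine ⟨(TT h j).s0, fun σ h1 h2 => ⟨?_, ?_⟩⟩
    · beta_reduce
      rw [sT_c (slice 0 h1) (by simpa using h2), ← mapL_bdL, mapL, map_lc]
      simp only [lc_pt]
    · refine (sT_l (slice 0 h1) (by simpa using h2)).mono fun τ hτ =>
        ⟨by simpa using hτ.1, hτ.2.1, fun y hy x hx => near ?_⟩
      obtain ⟨v, hv, e⟩ := List.mem_map.1 (hτ.2.2 y hy default)
      rw [← e]
      exact h1 v hv x hx
  base j h x := by
    obtain ⟨t, ht, hf⟩ := far j h x
    have key : ∀ σ, Small (LV (j + 1) h).adj σ → σ.length ≤ j + 1 →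
        All (fun τ => τ.length = σ.length ∧ Small (LV j (h + 1)).adj τ ∧
        ∀ y ∈ τ, (j : ℝ) + (SS j : ℕ) < dist ((LV j (h + 1)).loc y) x)
          (sT h j (σ.map (·, t))) := by
      intro σ h1 h2
      refine (sT_l (slice t h1) (by simp; omega)).mono fun τ hτ =>
        ⟨by simpa using hτ.1, hτ.2.1, fun y hy => hf y fun b => ?_⟩
      obtain ⟨v, -, e⟩ := List.mem_map.1 (hτ.2.2 y hy b)
      rw [← e]
    rcases ht with rfl | rfl
    · refine ⟨fun _ => 0, rfl, fun σ h1 h2 => ⟨All.zero, ?_⟩⟩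
      rw [lc_zero, map_zero, add_zero, add_zero]
      exact key σ h1 h2
    let g : (G h (j + 1)).V × ℕ → (G h (j + 1)).V × Fin (MM j + 1) :=
      fun p => (p.1, ⟨min p.2 (MM j), by omega⟩)
    let P : Ch (G h (j + 1)).V →ₗ[F2] Ch (G (h + 1) j).V :=
      lc (sT h j) ∘ₗ mapL g ∘ₗ SH.flip (path (MM j))
    refine ⟨fun σ => P (pt σ), by simp [P], fun σ h1 h2 => ?_⟩
    have a : All (fun τ => Small ((G h (j + 1)).iadj (MM j)) τ ∧ τ.length = σ.length + 1 ∧
        ∀ z ∈ τ, z.1 ∈ σ) (mapL g (SH (pt σ) (path (MM j)))) := by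
      refine ((All.single (P := (· = σ)) rfl).SH (all_path _)).mapL g ?_
      rintro l ⟨_, _, rfl, ⟨t, -, rfl⟩, e1, e2⟩
      simp only [Small, List.mem_map, List.length_map]
      refine ⟨?_, by simpa using e1, ?_⟩
      · rintro _ ⟨u, hu, rfl⟩ _ ⟨v, hv, rfl⟩
        have a1 := (e2 u hu).2
        have a2 := (e2 v hv).2
        simp only [List.mem_cons, List.not_mem_nil, or_false] at a1 a2
        exact ⟨h1 _ (e2 u hu).1 _ (e2 v hv).1, by simp only [g]; omega, by simp only [g]; omega⟩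
      · rintro _ ⟨u, hu, rfl⟩
        exact (e2 u hu).1
    refine ⟨a.bind fun τ hτ => (sT_l hτ.1 (by omega)).mono fun ρ hρ =>
      ⟨by omega, hρ.2.1, fun y hy v hv => near (h1 _ (hτ.2.2 _ (hρ.2.2 y hy _)) v hv)⟩, ?_⟩
    have b : bd (P (pt σ)) = lc (sT h j) (bd (mapL g (SH (pt σ) (path (MM j))))) := by
      change bd (lc (sT h j) (mapL g (SH (pt σ) (path (MM j))))) = _
      rw [map_lc, a.congr (g := fun τ => lc (sT h j) (bd (pt τ)))
        fun τ hτ => by rw [sT_c hτ.1 (by omega), bd_pt], ← map_lc, ← map_lc, lc_self]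
    have c : lc (fun σ => P (pt σ)) (bdL σ) =
        lc (sT h j) (mapL g (SH (bdL σ) (path (MM j)))) := by
      rw [← map_lc, lc_self]
      rfl
    have e0 : (σ.map fun x => (x, 0)).map g = σ.map (·, 0) := by
      rw [List.map_map]
      exact List.map_congr_left fun _ _ => by simp [g]
    have e1 : (σ.map fun x => (x, MM j)).map g = σ.map (·, Fin.last _) := by
      rw [List.map_map]
      exact List.map_congr_left fun _ _ => by simp [g, Fin.last]
    have d : sT h j (σ.map (·, 0)) + bd (P (pt σ)) + lc (fun σ => P (pt σ)) (bdL σ) =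
        sT h j (σ.map (·, Fin.last _)) := by
      rw [b, c, bd_mapL, bd_SH, bd_path]
      simp only [map_add, SH_single, mapL_pt, lc_pt, e0, e1, bd_pt, nilL_pt, nil_cons, add_zero,
        mul_zero, zero_smul, map_zero]
      linear_combination (norm := module) two (sT h j (σ.map (·, 0))) +
        two (lc (sT h j) (mapL g (nil σ • pt []))) +
        two (lc (sT h j) (mapL g (SH (bdL σ) (path (MM j)))))
    exact d ▸ key σ h1 h2

/-! ### the embedding -/

def pr (y : YY) : XX := ⟨y.1.1, y.1.2.1⟩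

def vv (y : YY) (γ : Om) : ℂ :=
  if y.2 = γ.erase y.1.1 then UU y.1.1 0 y.1.2.1 y.1.2.2 (γ y.1.1) else 0

def ww (p : XX × Om) : L2 YY :=
  ∑ b, UU p.1.1 0 p.1.2 b (p.2 p.1.1) • dl (⟨p.1.1, p.1.2, b⟩, p.2.erase p.1.1)

lemma ww_apply (x γ y) : ww (x, γ) y = if pr y = x then vv y γ else 0 := by
  obtain ⟨⟨n, z, c⟩, ω⟩ := y
  simp only [ww, lp.coeFn_sum, Finset.sum_apply, lp.coeFn_smul, Pi.smul_apply, smul_eq_mul, dl,
    lp.single_apply, Pi.single_apply]
  split_ifs with e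
  · subst e
    refine (Finset.sum_eq_single (s := Finset.univ) c (fun b _ hb => ?_) (by simp)).trans ?_
    · simp [pr, hb.symm]
    · simp [vv, pr]
  · refine Finset.sum_eq_zero fun b _ => ?_
    rw [if_neg, mul_zero]
    intro h
    exact e (congrArg pr h)

lemma ww_orth : Orthonormal ℂ ww := by
  rw [orthonormal_iff_ite]
  rintro ⟨⟨n, x⟩, γ⟩ ⟨x', γ'⟩
  rw [ww, sum_inner]
  simp only [inner_smul_left, inner_dl, ww_apply, vv, pr]
  by_cases e : ⟨n, x⟩ = x'
  · subst e
    by_cases e' : γ.erase n = γ'.erase n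
    · simp only [e', if_true, UU_orth, Prod.mk.injEq, true_and]
      refine if_congr ⟨fun h => DFinsupp.ext fun i => ?_, fun h => by rw [h]⟩ rfl rfl
      by_cases hi : i = n
      · rw [hi, h]
      · simpa [hi] using congrArg (fun f => f i) e'
    · have : γ ≠ γ' := fun h => e' (by rw [h])
      simp [e', this]
  · simp [e]

def kk (y y' : YY) : ℝ := ‖∑' γ, vv y' γ * (starRingEnd ℂ) (vv y γ)‖

lemma kk_symm (y y' : YY) : kk y y' = kk y' y := by
  rw [kk, kk, ← Complex.norm_conj, Complex.conj_tsum]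
  simp [mul_comm]

lemma kk_same (n : ℕ) (u v : (G n 0).V × Fib n 0) (ω ω' : Om) :
    kk (⟨n, v⟩, ω') (⟨n, u⟩, ω) ≤ if ω' = ω then ‖Ker (UU n 0) u v‖ else 0 := by
  have inj : Function.Injective fun c => ω.update n c := fun a b e => by
    simpa using congrArg (fun f : Om => f n) e
  have er : ∀ c, (ω.update n c).erase n = ω.erase n := fun c => DFinsupp.ext fun i => by
    by_cases hi : i = n <;> simp [hi]
  rw [kk, ← inj.tsum_eq, tsum_fintype]
  · simp only [vv, er, DFinsupp.coe_update, Function.update_self]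
    by_cases a : ω = ω.erase n
    · by_cases b : ω' = ω.erase n
      · rw [if_pos (b.trans a.symm)]
        simp only [if_pos a, if_pos b]
        rfl
      · simp only [if_neg b, map_zero, mul_zero, Finset.sum_const_zero, norm_zero]
        positivity
    · simp only [if_neg a, zero_mul, Finset.sum_const_zero, norm_zero]
      positivity
  · intro γ hγ
    have : ω = γ.erase n := by
      by_contra e
      exact hγ (by simp [vv, e])
    refine ⟨γ n, DFinsupp.ext fun i => ?_⟩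
    by_cases hi : i = n
    · subst hi
      simp
    · simp [hi, this]

lemma kk_est (r : ℕ) (ε : ℝ) (hε : 0 < ε) : ∃ S : ℕ, ∀ (y : YY) (x : XX),
    dX x (pr y) ≤ r → ∀ s : Finset YY, (∀ z ∈ s, pr z = x ∧ S < dY z y) →
      ∑ z ∈ s, kk y z ≤ ε := by
  obtain ⟨S, hS⟩ := kernel_est r ε hε
  refine ⟨S + r, ?_⟩
  rintro ⟨⟨n, u⟩, ω⟩ ⟨m, x⟩ hx s hs'
  have hx' : dX ⟨m, x⟩ ⟨n, u.1⟩ ≤ r := hx
  by_cases e : m = n
  · subst e
    rw [dX, gl_same, (G m 0).isM.comm] at hx'
    refine le_trans ?_ (hS m u x hx')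
    have inj : Function.Injective fun c : Fib m 0 => ((⟨m, x, c⟩, ω) : YY) := fun a b e => by
      simpa using e
    rw [← Finset.sum_filter_of_ne (p := fun z => z ∈ Finset.univ.map ⟨_, inj⟩)]
    · refine (Finset.sum_le_sum (g := fun z : YY => if z ∈ s then kk (⟨m, u⟩, ω) z else 0)
        fun z hz => by rw [if_pos (Finset.mem_filter.1 hz).1]).trans ?_
      refine (Finset.sum_le_sum_of_subset_of_nonneg (fun z hz => (Finset.mem_filter.1 hz).2)
        fun z _ _ => by split_ifs; exacts [norm_nonneg _, le_rfl]).trans ?_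
      rw [Finset.sum_map]
      refine Finset.sum_le_sum fun c _ => ?_
      simp only [Function.Embedding.coeFn_mk]
      by_cases hz : ((⟨m, x, c⟩, ω) : YY) ∈ s
      · have := (hs' _ hz).2
        simp only [dY, mx, gl_same, rho_isM.self, (DD_isM m 0).comm _ u] at this
        rw [if_pos hz, if_pos (by omega), kk_symm]
        simpa using kk_same m u (x, c) ω ω
      · rw [if_neg hz]
        positivity
    · rintro ⟨⟨l, z, c⟩, ω'⟩ hz h0
      obtain ⟨h1, -⟩ := hs' _ hz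
      obtain rfl : m = l := (congrArg Sigma.fst h1).symm
      obtain rfl : x = z := (eq_of_heq (Sigma.mk.inj h1).2).symm
      have := kk_same m (x, c) u ω' ω
      by_cases e : ω = ω'
      · subst e
        exact Finset.mem_map.2 ⟨c, Finset.mem_univ _, rfl⟩
      · rw [if_neg e] at this
        exact (h0 (le_antisymm this (norm_nonneg _))).elim
  · refine le_trans (le_of_eq (Finset.sum_eq_zero ?_)) hε.le
    rintro ⟨⟨l, z, c⟩, ω'⟩ hz
    obtain ⟨h1, h2⟩ := hs' _ hz
    obtain rfl : m = l := (congrArg Sigma.fst h1).symm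
    rw [dX, gl_ne e] at hx'
    rw [kk, norm_eq_zero, ← tsum_zero (α := ℂ) (β := Om)]
    refine tsum_congr fun γ => ?_
    by_contra h0
    have a : ω' = γ.erase m := by
      by_contra e
      exact h0 (by simp [vv, e])
    have b : ω = γ.erase n := by
      by_contra e
      exact h0 (by simp [vv, e])
    have := HH_gt m
    have := HH_gt n
    simp only at hx'
    have c : rho ω' ω ≤ r := rho_le.2 fun j hj => by
      rw [a, b, DFinsupp.erase_ne (by omega), DFinsupp.erase_ne (by omega)]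
    rw [dY, mx, gl_ne e] at h2
    simp only at h2
    omega

lemma roe_eq (Z : MS) : Roe Z = closure (FP Z.X) := by
  refine congrArg closure (Set.ext fun T => exists_congr fun r => forall_congr' fun x =>
    forall_congr' fun y => imp_congr_right fun _ => ?_)
  exact Eq.congr_left (inner_dl x _)

theorem main : ∃ Φ : Bop mX.ms →⋆ₙₐ[ℂ] Bop mY.ms,
    Function.Injective Φ ∧ Set.MapsTo Φ (Roe mX.ms) (Roe mY.ms) := by
  rw [roe_eq, roe_eq]
  obtain ⟨Φ, h1, h2, h3⟩ := embed pr ww ww_orth fun x γ y h => by rw [ww_apply, if_neg h]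
  have h4 : ∀ T y y', ‖Φ T (dl y) y'‖ = ‖T (dl (pr y)) (pr y')‖ * kk y y' := fun T y y' => by
    rw [h3, norm_mul]
    simp only [ww_apply, if_true, kk]
  refine ⟨Φ, h1, mapsTo (X := mX.ms.X) (Y := mY.ms.X) pr kk Φ h2 h4 kk_symm
    (fun _ _ => norm_nonneg _) ulfX fun r ε hε => ?_⟩
  obtain ⟨S, hS⟩ := kk_est ⌊r⌋₊ ε hε
  exact ⟨S, fun y x hx s hs => hS y x (Nat.le_floor hx) s fun z hz =>
    ⟨(hs z hz).1, Nat.cast_lt.1 (hs z hz).2⟩⟩

end

end Pool.Agent.Lib.MP_233c29_an
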