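import Pool.Agent.Lib.MP_233c29_an.Graph

namespace Pool.Agent.Lib.MP_233c29_an

noncomputable section

open Classical

def zz (L t : ℕ) : ℂ := Complex.exp (Complex.I * ((Real.pi * t / L : ℝ) : ℂ))

lemma zz_norm (L t : ℕ) : ‖zz L t‖ = 1 := Complex.norm_exp_I_mul_ofReal _

lemma zz_zero (L : ℕ) : zz L 0 = 1 := by simp [zz]

lemma zz_self {L : ℕ} (hL : 0 < L) : zz L L = -1 := by
  have : (L : ℝ) ≠ 0 := by positivity
  rw [zz, mul_div_assoc, div_self this, mul_one, mul_comm, Complex.exp_pi_mul_I]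

lemma zz_succ (L t : ℕ) : ‖zz L (t + 1) - zz L t‖ ≤ 4 / L := by
  have e : zz L (t + 1) - zz L t =
      zz L t * (Complex.exp (Complex.I * ((Real.pi / L : ℝ) : ℂ)) - 1) := by
    rw [mul_sub, mul_one, zz, zz, ← Complex.exp_add]
    congr 2
    push_cast
    ring
  rw [e, norm_mul, zz_norm, one_mul]
  refine Real.norm_exp_I_mul_ofReal_sub_one_le.trans ?_
  rw [Real.norm_of_nonneg (by positivity)]
  gcongr
  exact Real.pi_le_four

lemma zz_lip (L : ℕ) {t t' : ℕ} (h1 : t ≤ t' + 1) (h2 : t' ≤ t + 1) :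
    ‖zz L t - zz L t'‖ ≤ 4 / L := by
  obtain rfl | rfl | rfl : t = t' ∨ t = t' + 1 ∨ t' = t + 1 := by omega
  · simp only [sub_self, norm_zero]; positivity
  · exact zz_succ _ _
  · rw [norm_sub_rev]; exact zz_succ _ _

lemma sum_bits {m : ℕ} {M : Type} [AddCommMonoid M] (f : Bits (m + 1) → M) :
    ∑ x, f x = ∑ c : Bits m, f (true, c) + ∑ c : Bits m, f (false, c) :=
  (Fintype.sum_prod_type (α₁ := Bool) (α₂ := Bits m) f).trans (by simp)

theorem stageD (A : Gr) (m L l E N : ℕ) (hL : 0 < L) (T : Stage A m L l E N) :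
    Nonempty (Stage A (m + 1) L l (4 * E + L) (2 * (N * (N * 3)))) := by
  have := T.fin
  obtain ⟨v0⟩ := A.ne
  let nr : T.B → T.B → Prop := fun a b => ∀ c c', A.adj (T.F a c) (T.F b c')
  have nrs : ∀ a b, nr a b → nr b a := fun a b h c c' => A.symm _ _ (h c' c)
  let D := {x : (T.B × T.B) × ℕ // nr x.1.1 x.1.2 ∧ x.2 < L}
  let k1 : D → D → Prop := fun x y => T.adj x.1.1.1 y.1.1.1 ∧ T.adj x.1.1.2 y.1.1.2 ∧
    x.1.2 ≤ y.1.2 + 1 ∧ y.1.2 ≤ x.1.2 + 1
  let k2 : D → D → Prop := fun x y => T.adj x.1.1.1 y.1.1.2 ∧ T.adj x.1.1.2 y.1.1.1 ∧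
    ((L ≤ x.1.2 + 1 ∧ y.1.2 = 0) ∨ (L ≤ y.1.2 + 1 ∧ x.1.2 = 0))
  have k1r : ∀ x, k1 x x := fun x => ⟨T.refl _, T.refl _, by omega, by omega⟩
  have k1s : ∀ x y, k1 x y → k1 y x := fun x y h =>
    ⟨T.symm _ _ h.1, T.symm _ _ h.2.1, h.2.2.2, h.2.2.1⟩
  have k2s : ∀ x y, k2 x y → k2 y x := fun x y h =>
    ⟨T.symm _ _ h.2.1, T.symm _ _ h.1, h.2.2.symm⟩
  let adj : D → D → Prop := fun x y => k1 x y ∨ k2 x y
  let fold : D → Bool → T.B := fun x b => bif b then x.1.1.2 else x.1.1.1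
  let fo : D × Bits (m + 1) → T.B × Bits m := fun u => (fold u.1 u.2.1, u.2.2)
  let F : D → Bits (m + 1) → A.V := fun x b => T.F (fold x b.1) b.2
  let p : A.V → D := fun v => ⟨((T.p v, T.p v), 0), T.near _, hL⟩
  let π : (T.B × T.B) × ℕ → D := fun z => if h : nr z.1.1 z.1.2 then
    (if h2 : z.2 < L then ⟨z, h, h2⟩ else ⟨((z.1.2, z.1.1), 0), nrs _ _ h, hL⟩) else p v0
  have hπ : ∀ a b, π ((a, b), L) = π ((b, a), 0) := by
    intro a b
    by_cases h : nr a b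
    · simp only [π, dif_pos h, dif_pos (nrs _ _ h), lt_irrefl, dif_neg, not_false_eq_true,
        dif_pos hL]
    · simp only [π, dif_neg h, dif_neg fun h' => h (nrs _ _ h')]
  have πadj : ∀ z w : (T.B × T.B) × ℕ, nr z.1.1 z.1.2 → nr w.1.1 w.1.2 → T.adj z.1.1 w.1.1 →
      T.adj z.1.2 w.1.2 → z.2 ≤ w.2 + 1 → w.2 ≤ z.2 + 1 → adj (π z) (π w) := by
    intro z w h1 h2 h3 h4 h5 h6
    simp only [π, dif_pos h1, dif_pos h2]
    split_ifs with a b b
    · exact Or.inl ⟨h3, h4, h5, h6⟩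
    · exact Or.inr ⟨h3, h4, Or.inl ⟨by simp only; omega, rfl⟩⟩
    · exact Or.inr ⟨h4, h3, Or.inr ⟨by simp only; omega, rfl⟩⟩
    · exact Or.inl ⟨h4, h3, by simp, by simp⟩
  have πF : ∀ (S : Set A.V) (z : (T.B × T.B) × ℕ), nr z.1.1 z.1.2 → (∀ c, T.F z.1.1 c ∈ S) →
      (∀ c, T.F z.1.2 c ∈ S) → ∀ c, F (π z) c ∈ S := by
    rintro S z h1 h2 h3 ⟨b, c⟩
    simp only [π, dif_pos h1]
    split_ifs <;> cases b
    exacts [h2 c, h3 c, h3 c, h2 c]
  have πD : ∀ x : D, π x.1 = x := fun x => by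
    simp only [π, dif_pos x.2.1, dif_pos x.2.2]
    rfl
  let On : Set A.V → D → D → Prop := fun S a a' =>
    adj a a' ∧ (∀ c, F a c ∈ S) ∧ ∀ c, F a' c ∈ S
  let On0 : Set A.V → T.B → T.B → Prop := fun S a a' =>
    T.adj a a' ∧ (∀ c, T.F a c ∈ S) ∧ ∀ c, T.F a' c ∈ S
  have mv : ∀ (S S0 : Set A.V), S0 ⊆ S → (∀ v ∈ S0, ∀ w ∈ S0, A.adj v w) → ∀ k a a' b t,
      (∀ c, T.F b c ∈ S0) → Rch (On0 S0) k a a' →
      Rch (On S) k (π ((a, b), t)) (π ((a', b), t)) ∧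
      Rch (On S) k (π ((b, a), t)) (π ((b, a'), t)) := by
    intro S S0 h1 h2 k a a' b t h3 h4
    have n1 : ∀ x, (∀ c, T.F x c ∈ S0) → nr x b := fun x hx c c' => h2 _ (hx c) _ (h3 c')
    constructor
    · refine h4.map (fun x => π ((x, b), t)) fun x y h => ⟨πadj _ _ (n1 _ h.2.1) (n1 _ h.2.2) h.1
        (T.refl _) (by simp) (by simp), πF S _ (n1 _ h.2.1) (fun c => h1 (h.2.1 c))
        fun c => h1 (h3 c), πF S _ (n1 _ h.2.2) (fun c => h1 (h.2.2 c)) fun c => h1 (h3 c)⟩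
    · refine h4.map (fun x => π ((b, x), t)) fun x y h => ⟨πadj _ _ (nrs _ _ (n1 _ h.2.1))
        (nrs _ _ (n1 _ h.2.2)) (T.refl _) h.1 (by simp) (by simp),
        πF S _ (nrs _ _ (n1 _ h.2.1)) (fun c => h1 (h3 c)) fun c => h1 (h.2.1 c),
        πF S _ (nrs _ _ (n1 _ h.2.2)) (fun c => h1 (h3 c)) fun c => h1 (h.2.2 c)⟩
  have hnear : ∀ y b c, A.adj (F y b) (F y c) := by
    rintro y ⟨b, b'⟩ ⟨c, c'⟩
    cases b <;> cases c
    exacts [T.near _ _ _, y.2.1 _ _, nrs _ _ y.2.1 _ _, T.near _ _ _]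
  have hFp : ∀ v b, F (p v) b = v := by
    rintro v ⟨b, c⟩
    cases b <;> exact T.Fp _ _
  let cadj : D × Bits (m + 1) → D × Bits (m + 1) → Prop := fun u v =>
    T.cadj (fo u) (fo v) ∧ ((u.2.1 = v.2.1 ∧ k1 u.1 v.1) ∨ (u.2.1 ≠ v.2.1 ∧ k2 u.1 v.1))
  let ζ : D → Bool → ℂ := fun x b => bif b then -zz L x.1.2 else zz L x.1.2
  have ζn : ∀ x b, ‖ζ x b‖ = 1 := fun x b => by cases b <;> simp [ζ, zz_norm]
  have ζc : ∀ x b, ζ x b * (starRingEnd ℂ) (ζ x b) = 1 := fun x b => by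
    rw [Complex.mul_conj, Complex.normSq_eq_norm_sq, ζn]; simp
  have ζl : ∀ u v, cadj u v → dist (ζ u.1 u.2.1) (ζ v.1 v.2.1) ≤ 4 / L := by
    have a : ∀ s t, L ≤ s + 1 → s < L → t = 0 → ‖zz L s + zz L t‖ ≤ 4 / L := by
      rintro s t h1 h2 rfl
      have := zz_lip L (t := s) (t' := L) (by omega) h1
      rwa [zz_self hL, sub_neg_eq_add, ← zz_zero L] at this
    have a' : ∀ x y, k2 x y → ‖zz L x.1.2 + zz L y.1.2‖ ≤ 4 / L := by
      rintro x y ⟨-, -, h | h⟩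
      · exact a _ _ h.1 x.2.2 h.2
      · rw [add_comm]; exact a _ _ h.1 y.2.2 h.2
    rintro ⟨x, b, c⟩ ⟨y, b', c'⟩ ⟨-, h | h⟩
    · obtain rfl : b = b' := h.1
      have := zz_lip L h.2.2.2.1 h.2.2.2.2
      cases b <;> simpa [ζ, dist_eq_norm, norm_sub_rev, ← sub_eq_neg_add] using this
    · have := a' _ _ h.2
      have h1 : b ≠ b' := h.1
      cases b <;> cases b'
      · exact (h1 rfl).elim
      · simpa [ζ, dist_eq_norm] using this
      · rw [← norm_neg, neg_add'] at this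
        simpa [ζ, dist_eq_norm] using this
      · exact (h1 rfl).elim
  let r : ℂ := ((√2)⁻¹ : ℝ)
  have r2 : r * r = 1 / 2 := by
    simp only [r]
    rw [← Complex.ofReal_mul, ← mul_inv, Real.mul_self_sqrt (by norm_num)]
    simp
  have rc : (starRingEnd ℂ) r = r := Complex.conj_ofReal _
  let U : D → Bits (m + 1) → Bits (m + 1) → ℂ := fun x b c =>
    r * (bif c.1 then ζ x b.1 else 1) * T.U (fold x b.1) b.2 c.2
  have hK : ∀ u v, Ker U u v = (1 + ζ u.1 u.2.1 * (starRingEnd ℂ) (ζ v.1 v.2.1)) / 2 *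
      Ker T.U (fo u) (fo v) := by
    intro u v
    simp only [Ker, sum_bits, U, cond_true, cond_false, map_mul, rc, map_one, Finset.mul_sum, fo,
      ← Finset.sum_add_distrib]
    refine Finset.sum_congr rfl fun c _ => ?_
    linear_combination (T.U (fold u.1 u.2.1) u.2.2 c * (starRingEnd ℂ) (T.U (fold v.1 v.2.1) v.2.2 c)
      * (1 + ζ u.1 u.2.1 * (starRingEnd ℂ) (ζ v.1 v.2.1))) * r2
  have hf : ∀ x b y b', ‖(1 + ζ x b * (starRingEnd ℂ) (ζ y b')) / 2‖ ≤ 1 := by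
    intro x b y b'
    have := norm_add_le 1 (ζ x b * (starRingEnd ℂ) (ζ y b'))
    rw [norm_mul, Complex.norm_conj, ζn, ζn, norm_one] at this
    rw [norm_div, Complex.norm_two]
    linarith
  obtain ⟨s', s0, sc, sl⟩ := dstep A.adj (m + 2) L (by omega) hL T.s T.s0 T.sc
    (fun σ h1 h2 => (T.sl σ h1 h2).mono fun _ h => h.1) π hπ
  refine ⟨{
    B := D, fin := ?_, adj := adj, refl := fun x => Or.inl (k1r x)
    symm := fun x y h => h.imp (k1s _ _) (k2s _ _), deg := ?_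
    F := F, p := p, cadj := cadj
    crefl := fun u => ⟨T.crefl _, Or.inl ⟨rfl, k1r _⟩⟩
    csymm := fun u v h => ⟨T.csymm _ _ h.1, h.2.imp (fun h => ⟨h.1.symm, k1s _ _ h.2⟩)
      fun h => ⟨h.1.symm, k2s _ _ h.2⟩⟩
    near := hnear, Fp := hFp, c1 := fun _ _ h => h.2.imp And.right And.right
    c2 := fun u v h => T.c2 _ _ h.1, lift := ?_, C1 := ?_, C2 := ?_
    U := U, orth := ?_, Kle := ?_, Kdiag := ?_, Kdev := ?_
    Lab := T.Lab, col := fun u => T.col (fo u), lab := fun u => T.lab (fo u)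
    sep1 := fun u v h => T.sep1 _ _ (h.map fo fun _ _ h => h.1)
    sep2 := fun u v => T.sep2 _ _
    s := fun σ => mapL π (s' σ), s0 := by simp [s0], sc := sc, sl := ?_ }⟩
  · refine Finite.of_injective (fun x : D => (x.1.1, (⟨x.1.2, x.2.2⟩ : Fin L))) fun x y h => ?_
    simp only [Prod.mk.injEq, Fin.mk.injEq] at h
    exact Subtype.ext (Prod.ext h.1 h.2)
  · obtain ⟨i, hi⟩ := T.deg
    have := Deg.of_type (R := adj) (T := Bool × Fin N × Fin N × Fin 3)
      (fun x y => if k1 x y then (true, i x.1.1.1 y.1.1.1, i x.1.1.2 y.1.1.2, ⟨y.1.2 % 3, by omega⟩)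
        else (false, i x.1.1.1 y.1.1.2, i x.1.1.2 y.1.1.1, 0)) fun x y z h1 h2 e => by
        by_cases a : k1 x y <;> by_cases b : k1 x z <;>
          simp only [a, b, if_true, if_false, Prod.mk.injEq, Fin.mk.injEq, true_and, and_true,
            Bool.true_eq_false, Bool.false_eq_true, false_and] at e
        · refine Subtype.ext (Prod.ext (Prod.ext (hi _ _ _ a.1 b.1 e.1)
            (hi _ _ _ a.2.1 b.2.1 e.2.1)) ?_)
          have := a.2.2; have := b.2.2; omega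
        · have a := h1.resolve_left a
          have b := h2.resolve_left b
          refine Subtype.ext (Prod.ext (Prod.ext (hi _ _ _ a.2.1 b.2.1 e.2)
            (hi _ _ _ a.1 b.1 e.1)) ?_)
          have := a.2.2; have := b.2.2; have := y.2.2; have := z.2.2; have := x.2.2; omega
    simpa using this
  · rintro y z (h | h) ⟨b, c⟩
    · obtain ⟨c', hc⟩ := T.lift (fold y b) (fold z b) (by cases b; exacts [h.1, h.2.1]) c
      exact ⟨(b, c'), hc, Or.inl ⟨rfl, h⟩⟩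
    · obtain ⟨c', hc⟩ := T.lift (fold y b) (fold z (!b)) (by cases b; exacts [h.1, h.2.1]) c
      exact ⟨(!b, c'), hc, Or.inr ⟨by cases b <;> simp, h⟩⟩
  · intro S y b hS
    let S0 := Set.range (F y)
    have h1 : S0 ⊆ S := by rintro _ ⟨c, rfl⟩; exact hS c
    have h2 : ∀ v ∈ S0, ∀ w ∈ S0, A.adj v w := by
      rintro _ ⟨c, rfl⟩ _ ⟨c', rfl⟩; exact hnear _ _ _
    have hv : F y b ∈ S0 := ⟨b, rfl⟩
    have go : ∀ a, (∀ c, T.F a c ∈ S0) → Rch (On0 S0) (E + E) a (T.p (F y b)) := fun a ha =>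
      (T.C1 S0 a default ha).trans (T.C2 S0 _ _ (ha _) hv (h2 _ (ha _) _ hv))
    have ha : ∀ c, T.F y.1.1.1 c ∈ S0 := fun c => ⟨(false, c), rfl⟩
    have hb : ∀ c, T.F y.1.1.2 c ∈ S0 := fun c => ⟨(true, c), rfl⟩
    have hp : ∀ c, T.F (T.p (F y b)) c ∈ S0 := fun c => by rw [T.Fp]; exact hv
    have r1 := (mv S S0 h1 h2 _ _ _ _ y.1.2 hb (go _ ha)).1
    have r2 := (mv S S0 h1 h2 _ _ _ _ y.1.2 hp (go _ hb)).2
    have hp' : ∀ t c, F (π ((T.p (F y b), T.p (F y b)), t)) c ∈ S := fun t =>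
      πF S _ (T.near _) (fun c => h1 (hp c)) fun c => h1 (hp c)
    have r3 := (Rch.nat (R := fun a b => a = b + 1) y.1.2 fun _ _ => rfl).map (S := On S)
      (fun t => π ((T.p (F y b), T.p (F y b)), t)) fun a b h =>
        ⟨πadj _ _ (T.near _) (T.near _) (T.refl _) (T.refl _) (by simp only; omega)
          (by simp only; omega), hp' _, hp' _⟩
    have e1 : π ((y.1.1.1, y.1.1.2), y.1.2) = y := πD y
    have e2 : π ((T.p (F y b), T.p (F y b)), 0) = p (F y b) := πD (p _)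
    rw [e1] at r1
    have r4 := (r1.trans r2).trans r3
    rw [e2] at r4
    have := y.2.2
    exact r4.le ⟨Or.inl (k1r _), e2 ▸ hp' 0, e2 ▸ hp' 0⟩ (by omega)
  · intro S v w hv hw h
    have h1 : ({v, w} : Set A.V) ⊆ S := by simp [Set.insert_subset_iff, hv, hw]
    have h2 : ∀ a ∈ ({v, w} : Set A.V), ∀ b ∈ ({v, w} : Set A.V), A.adj a b := by
      simp [A.refl, h, A.symm _ _ h]
    have go := T.C2 {v, w} v w (by simp) (by simp) h
    have r1 := (mv S _ h1 h2 _ _ _ (T.p v) 0 (by simp [T.Fp]) go).1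
    have r2 := (mv S _ h1 h2 _ _ _ (T.p w) 0 (by simp [T.Fp]) go).2
    have e1 : ∀ v, π ((T.p v, T.p v), 0) = p v := fun v => πD (p v)
    have r4 := r1.trans r2
    rw [e1, e1] at r4
    exact r4.le ⟨Or.inl (k1r _), fun c => by rw [hFp]; exact hw, fun c => by rw [hFp]; exact hw⟩
      (by omega)
  · rintro y ⟨g, c⟩ ⟨g', c'⟩
    have e : ∀ b, ∑ d : Bits m, (starRingEnd ℂ) (U y (b, d) (g, c)) * U y (b, d) (g', c') =
        (starRingEnd ℂ) (bif g then ζ y b else 1) * (bif g' then ζ y b else 1) / 2 *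
          if c = c' then 1 else 0 := by
      intro b
      rw [← T.orth (fold y b) c c', Finset.mul_sum]
      refine Finset.sum_congr rfl fun d _ => ?_
      simp only [U, map_mul, rc]
      linear_combination ((starRingEnd ℂ) (bif g then ζ y b else 1) * (bif g' then ζ y b else 1) *
        ((starRingEnd ℂ) (T.U (fold y b) d c) * T.U (fold y b) d c')) * r2
    rw [sum_bits, e, e]
    have h1 := ζc y true
    have h2 := ζc y false
    have h3 : ζ y true = -ζ y false := rfl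
    have h4 : (@Eq (Bits (m + 1)) (g, c) (g', c')) = (g = g' ∧ c = c') := Prod.mk.injEq _ _ _ _
    simp only [h4]
    by_cases hc : c = c'
    · cases g <;> cases g' <;> simp [hc, h3] <;> first | linear_combination h2 | ring
    · simp [hc]
  · intro u v
    rw [hK, norm_mul]
    exact mul_le_one₀ (hf _ _ _ _) (norm_nonneg _) (T.Kle _ _)
  · intro u
    rw [hK, ζc, T.Kdiag]
    norm_num
  · rintro k u z ⟨b, c⟩ ⟨b', c'⟩ h hne
    rw [hK, norm_mul]
    by_cases hb : b' = b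
    · subst hb
      have := T.Kdev k (fo u) (fold z b') c c' (h.map fo fun _ _ h => h.1)
        fun e => hne (by rw [e])
      exact (mul_le_of_le_one_left (norm_nonneg _) (hf _ _ _ _)).trans this
    · refine (mul_le_of_le_one_right (norm_nonneg _) (T.Kle _ _)).trans ?_
      have h1 := h.lip (fun u => ζ u.1 u.2.1) ζl
      have h2 : ζ z b' = -ζ z b := by
        cases b <;> cases b' <;> simp [ζ] at hb ⊢
      have h3 : (1 + ζ u.1 u.2.1 * (starRingEnd ℂ) (ζ z b')) / 2 =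
          (ζ z b - ζ u.1 u.2.1) * (starRingEnd ℂ) (ζ z b) / 2 := by
        rw [h2, map_neg]
        linear_combination (-1 / 2) * ζc z b
      simp only at h1 ⊢
      rw [h3, norm_div, norm_mul, Complex.norm_conj, ζn, Complex.norm_two, ← dist_eq_norm,
        dist_comm]
      have : (k : ℝ) * (4 / L) = 2 * (2 * k / L) := by ring
      linarith
  · intro σ h1 h2
    refine (sl σ (fun τ => Small T.adj τ ∧ ∀ y ∈ τ, ∀ b, T.F y b ∈ σ) h1 h2 fun σ' h3 h4 =>
      (T.sl σ' (h1.sub h3) h4).mono fun τ h => ⟨h.2.1, fun y hy b => h3 _ (h.2.2 y hy b)⟩).mapL _ ?_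
    rintro τ ⟨e, a, b, ha, hb, t, -, h⟩
    have n : ∀ z ∈ τ, nr z.1.1 z.1.2 := fun z hz c c' =>
      h1 _ (ha.2 _ (h z hz).1 c) _ (hb.2 _ (h z hz).2.1 c')
    refine ⟨by simpa using e, fun x hx y hy => ?_, fun x hx => ?_⟩
    · obtain ⟨z, hz, rfl⟩ := List.mem_map.1 hx
      obtain ⟨w, hw, rfl⟩ := List.mem_map.1 hy
      have := (h z hz).2.2
      have := (h w hw).2.2
      exact πadj _ _ (n z hz) (n w hw) (ha.1 _ (h z hz).1 _ (h w hw).1)
        (hb.1 _ (h z hz).2.1 _ (h w hw).2.1) (by omega) (by omega)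
    · obtain ⟨z, hz, rfl⟩ := List.mem_map.1 hx
      exact πF {v | v ∈ σ} z (n z hz) (ha.2 _ (h z hz).1) (hb.2 _ (h z hz).2.1)

def Nf : ℕ → ℕ
  | 0 => 18
  | m + 1 => 2 * (Nf m * (Nf m * 3))

theorem stage_exists (m L l N : ℕ) (hL : 0 < L) :
    ∃ E, ∀ A : Gr, Deg A.adj N → Nonempty (Stage A m L l E (Nf m)) := by
  induction m with
  | zero => exact ⟨_, fun A h => stage0 A L l N h⟩
  | succ m ih =>
    obtain ⟨E, h⟩ := ih
    exact ⟨_, fun A hA => (h A hA).elim fun T => stageD A m L l E _ hL T⟩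

end

end Pool.Agent.Lib.MP_233c29_an
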