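import Pool.Agent.Lib.MP_233c29_an.Chains

namespace Pool.Agent.Lib.MP_233c29_an

noncomputable section

variable {V B : Type}

def Small (R : V → V → Prop) (l : List V) : Prop := ∀ x ∈ l, ∀ y ∈ l, R x y

lemma Small.sub {R : V → V → Prop} {l t : List V} (h : Small R l) (ht : ∀ x ∈ t, x ∈ l) :
    Small R t := fun x hx y hy => h x (ht x hx) y (ht y hy)

lemma Small.faces {R : V → V → Prop} {l : List V} (h : Small R l) :
    All (fun t => Small R t ∧ t.length + 1 = l.length ∧ ∀ x ∈ t, x ∈ l) (bdL l) :=
  (all_bdL l).mono fun _ ht => ⟨h.sub ht.2, ht⟩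

lemma ends (σ : List V) (h : σ ≠ []) :
    ∃ a b, σ.take 1 = [a] ∧ σ.drop (σ.length - 1) = [b] ∧ a ∈ σ ∧ b ∈ σ := by
  refine ⟨σ.head h, σ.getLast h, ?_, ?_, List.head_mem h, List.getLast_mem h⟩
  · cases σ with
    | nil => exact (h rfl).elim
    | cons x l => simp
  · exact List.drop_length_sub_one h

section
variable (R : V → V → Prop) (m : ℕ) (s : List V → Ch B)

def cut (l : List V) : Ch B := if l.length ≤ m then s l else 0

def BB : Ch V →ₗ[F2] Ch V →ₗ[F2] Ch (B × B) := SH.compl₁₂ (lc (cut m s)) (lc (cut m s))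

variable {R m s}

lemma cut_le {l : List V} (h : l.length ≤ m) : cut m s l = s l := if_pos h

lemma lc_cut {σ : List V} (h : σ.length ≤ m + 1) : lc (cut m s) (bdL σ) = lc s (bdL σ) :=
  (all_bdL σ).congr fun l hl => cut_le (by omega)

lemma claimA (hm : 2 ≤ m) (h0 : s [] = pt [])
    (hc : ∀ σ, Small R σ → σ.length ≤ m → bd (s σ) = lc s (bdL σ))
    (hl : ∀ σ, Small R σ → σ.length ≤ m → All (fun τ => τ.length = σ.length) (s σ))
    (σ : List V) (hσ : Small R σ) (hn : σ.length ≤ m + 1) :
    bd (aw (BB m s) σ + nil σ • pt []) = lc (aw (BB m s)) (bdL σ) + nilL (bdL σ) • pt [] +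
      if σ.length = m + 1 then SH (s (σ.take 1)) (lc s (bdL σ)) +
        SH (lc s (bdL σ)) (s (σ.drop (σ.length - 1))) else 0 := by
  have hcut : ∀ l, Small R l → l.length ≤ m + 1 → bd (cut m s l) =
      lc (cut m s) (bdL l) + if l.length = m + 1 then lc s (bdL l) else 0 := by
    intro l h1 h2
    rw [lc_cut h2]
    by_cases h : l.length ≤ m
    · rw [cut_le h, hc l h1 h, if_neg (by omega), add_zero]
    · rw [cut, if_neg h, if_pos (by omega), two, map_zero]
  have hnil : ∀ l, Small R l → 2 ≤ l.length → nilL (bd (cut m s l)) = 0 := by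
    intro l h1 h2
    apply nilL_bd_eq_zero
    by_cases h : l.length ≤ m
    · rw [cut_le h]
      exact (hl l h1 h).mono fun t ht => by omega
    · rw [cut, if_neg h]; exact All.zero
  have hc0 : cut m s [] = pt [] := by rw [cut_le (by simp), h0]
  rcases Nat.lt_or_ge σ.length 2 with h2 | h2
  · rw [if_neg (by omega)]
    match σ, h2, hσ with
    | [], _, _ => simp [aw, bdL]
    | [v], _, hσ =>
      have e : bd (cut m s [v]) = pt [] := by
        rw [cut_le (by simp; omega), hc _ hσ (by simp; omega)]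
        simp [bdL, h0]
      simp [aw, BB, bd_SH, e, bdL]
  have hn1 : nil σ = 0 := by
    cases σ with
    | nil => simp at h2
    | cons _ _ => rfl
  have hn2 : nilL (bdL σ) = 0 := by
    rw [← bd_pt]
    exact nilL_bd_eq_zero (All.single h2)
  have ht : ∀ i, Small R (σ.take i) := fun i => hσ.sub fun x hx => List.mem_of_mem_take hx
  have hd : ∀ i, Small R (σ.drop i) := fun i => hσ.sub fun x hx => List.mem_of_mem_drop hx
  have e1 := aw_bd (BB m s) σ
  have e2 : BB m s (pt []) (pt σ) = 0 := by simp [BB, hc0]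
  have e3 : BB m s (pt σ) (pt []) = 0 := by simp [BB, hc0]
  rw [e2, e3, add_zero, add_zero] at e1
  rw [hn1, hn2, zero_smul, add_zero, add_zero, ← e1, aw_eq, aw_eq, map_sum]
  have e4 : ∀ i ∈ Finset.range σ.length,
      bd (BB m s (pt (σ.take (i + 1))) (pt (σ.drop i))) =
      (BB m s ∘ₗ bd + (BB m s).compl₂ bd) (pt (σ.take (i + 1))) (pt (σ.drop i)) +
      ((if i = 0 then (if σ.length = m + 1 then SH (s (σ.take 1)) (lc s (bdL σ)) else 0) else 0) +
      (if i = σ.length - 1 then (if σ.length = m + 1 then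
        SH (lc s (bdL σ)) (s (σ.drop (σ.length - 1))) else 0) else 0)) := by
    intro i hi
    have hi' := Finset.mem_range.1 hi
    have l1 : (σ.take (i + 1)).length = i + 1 := by simp; omega
    have l2 : (σ.drop i).length = σ.length - i := by simp
    have z : nilL (bd (cut m s (σ.take (i + 1)))) * nilL (bd (cut m s (σ.drop i))) = 0 := by
      rcases Nat.eq_zero_or_pos i with h | h
      · rw [hnil (σ.drop i) (hd i) (by omega), mul_zero]
      · rw [hnil _ (ht (i + 1)) (by omega), zero_mul]
    have c1 : SH (if (σ.take (i + 1)).length = m + 1 then lc s (bdL (σ.take (i + 1))) else 0)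
        (cut m s (σ.drop i)) = if i = σ.length - 1 then (if σ.length = m + 1 then
        SH (lc s (bdL σ)) (s (σ.drop (σ.length - 1))) else 0) else 0 := by
      by_cases h : i + 1 = m + 1
      · have h3 : σ.length = m + 1 := by omega
        have h4 : i = σ.length - 1 := by omega
        rw [if_pos (by omega), if_pos h4, if_pos h3, List.take_of_length_le (by omega),
          cut_le (by omega), ← h4]
      · rw [if_neg (by omega)]
        by_cases h3 : σ.length = m + 1
        · rw [if_neg (by omega)]; simp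
        · simp [h3]
    have c2 : SH (cut m s (σ.take (i + 1)))
        (if (σ.drop i).length = m + 1 then lc s (bdL (σ.drop i)) else 0) =
        if i = 0 then (if σ.length = m + 1 then SH (s (σ.take 1)) (lc s (bdL σ)) else 0)
        else 0 := by
      by_cases h : σ.length - i = m + 1
      · have h3 : σ.length = m + 1 := by omega
        have h4 : i = 0 := by omega
        rw [if_pos (by omega), if_pos h4, if_pos h3, cut_le (by omega), h4]
        simp
      · rw [if_neg (by omega)]
        by_cases h3 : σ.length = m + 1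
        · rw [if_neg (by omega)]; simp
        · simp [h3]
    simp only [BB, LinearMap.compl₁₂_apply, lc_pt, bd_SH, z, zero_smul, add_zero,
      LinearMap.add_apply, LinearMap.comp_apply, LinearMap.compl₂_apply, bd_pt]
    rw [hcut _ (ht _) (by omega), hcut _ (hd _) (by omega), ← c1, ← c2]
    simp only [map_add, LinearMap.add_apply]
    abel
  rw [Finset.sum_congr rfl e4, Finset.sum_add_distrib, Finset.sum_add_distrib,
    Finset.sum_ite_eq', Finset.sum_ite_eq', if_pos (Finset.mem_range.2 (by omega)),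
    if_pos (Finset.mem_range.2 (by omega))]
  split_ifs <;> simp

end

theorem dstep (R : V → V → Prop) (m L : ℕ) (hm : 2 ≤ m) (hL : 0 < L) (s : List V → Ch B)
    (h0 : s [] = pt [])
    (hc : ∀ σ, Small R σ → σ.length ≤ m → bd (s σ) = lc s (bdL σ))
    (hl : ∀ σ, Small R σ → σ.length ≤ m → All (fun τ => τ.length = σ.length) (s σ))
    {D : Type} (π : (B × B) × ℕ → D) (hπ : ∀ a b, π ((a, b), L) = π ((b, a), 0)) :
    ∃ s' : List V → Ch ((B × B) × ℕ), s' [] = pt [] ∧
      (∀ σ, Small R σ → σ.length ≤ m + 1 →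
        bd (mapL π (s' σ)) = lc (fun l => mapL π (s' l)) (bdL σ)) ∧
      ∀ σ (Q : List B → Prop), Small R σ → σ.length ≤ m + 1 →
        (∀ σ', (∀ x ∈ σ', x ∈ σ) → σ'.length ≤ m → All Q (s σ')) →
        All (fun τ => τ.length = σ.length ∧ ∃ a b, Q a ∧ Q b ∧ ∃ t < L,
          ∀ z ∈ τ, z.1.1 ∈ a ∧ z.1.2 ∈ b ∧ (z.2 = t ∨ z.2 = t + 1)) (s' σ) := by
  refine ⟨fun σ => mapL (fun x => (x, 0)) (aw (BB m s) σ + nil σ • pt []) +
    if σ.length = m + 1 then
      mapL (fun x => (x, 0)) (SH (lc s (bdL σ)) (s (σ.take 1 ++ σ.drop (σ.length - 1)))) +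
      SH (SH (s (σ.take 1)) (lc s (bdL σ))) (path L) else 0, ?_, ?_, ?_⟩
  · simp [aw]
  · intro σ hσ hn
    have e1 : lc (fun l => mapL π (mapL (fun x => (x, 0)) (aw (BB m s) l + nil l • pt []) +
        if l.length = m + 1 then
        mapL (fun x => (x, 0)) (SH (lc s (bdL l)) (s (l.take 1 ++ l.drop (l.length - 1)))) +
        SH (SH (s (l.take 1)) (lc s (bdL l))) (path L) else 0)) (bdL σ) =
        mapL π (mapL (fun x => (x, 0)) (lc (aw (BB m s)) (bdL σ) + nilL (bdL σ) • pt [])) := by
      rw [(all_bdL σ).congr (g := fun l =>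
        mapL π (mapL (fun x => (x, 0)) (aw (BB m s) l + nil l • pt [])))
        fun l hl => by rw [if_neg (by omega), add_zero]]
      rw [← map_lc, ← map_lc, lc_add]
      congr 3
      exact (ch_eq _ (nilL.smulRight (pt [])) (by simp) _).trans (by simp)
    rw [e1, bd_mapL, bd.map_add, bd_mapL, claimA hm h0 hc hl σ hσ hn]
    split_ifs with h
    · obtain ⟨a, b, ha, hb, ha', hb'⟩ := ends σ (by intro e; simp [e] at h)
      rw [ha, hb]
      have hz : bd (lc s (bdL σ)) = 0 := by
        rw [map_lc, hσ.faces.congr (g := fun l => lc s (bd (pt l)))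
          fun l hl => by rw [hc l hl.1 (by omega), bd_pt], ← map_lc, ← map_lc, lc_self, bd_bdL,
          map_zero]
      have sm : ∀ l : List V, (∀ x ∈ l, x = a ∨ x = b) → Small R l := fun l h =>
        hσ.sub fun x hx => by rcases h x hx with e | e <;> simp [e, ha', hb']
      have hab : bd (s [a, b]) = s [b] + s [a] := by
        rw [hc _ (sm _ (by simp)) (by simpa using hm)]
        simp [bdL]
      have hba : bd (s [a]) = pt [] := by
        rw [hc _ (sm _ (by simp)) (by simp; omega)]
        simp [bdL, h0]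
      have hw : nilL (SH (s [a]) (lc s (bdL σ))) = 0 := by
        apply nilL_eq_zero
        have h1 := hl [a] (sm _ (by simp)) (by simp; omega)
        have h2 : All (fun τ => τ.length = m) (lc s (bdL σ)) :=
          hσ.faces.bind fun l hl' => (hl l hl'.1 (by omega)).mono fun t ht => by omega
        refine (h1.SH h2).mono ?_
        rintro t ⟨u, v, hu, hv, e, -⟩ rfl
        simp at e hu
        omega
      have hsw : mapL π (mapL (fun x => (x, L)) (SH (s [a]) (lc s (bdL σ)))) =
          mapL π (mapL (fun x => (x, 0)) (SH (lc s (bdL σ)) (s [a]))) := by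
        rw [← swap_SH (s [a]), mapL_mapL, mapL_mapL, mapL_mapL]
        congr 2
        funext x
        exact hπ x.1 x.2
      have hnp : nilL (pt [0] + pt [L]) = 0 := by simp
      simp only [List.cons_append, List.nil_append, map_add, bd_mapL, bd_SH, hz, hab, hba, bd_path,
        map_zero, LinearMap.zero_apply, zero_mul, mul_zero, zero_smul, add_zero, zero_add,
        SH_nil_left, SH_single, hw, hsw, nilL_pt, nil_cons]
      have h1 := two (mapL π (mapL (fun x => (x, 0)) (SH (lc s (bdL σ)) (s [a]))))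
      have h2 := two (mapL π (mapL (fun x => (x, 0)) (SH (lc s (bdL σ)) (s [b]))))
      have h3 := two (mapL π (mapL (fun x => (x, 0)) (SH (s [a]) (lc s (bdL σ)))))
      linear_combination (norm := module) h1 + h2 + h3
    · simp
  · intro σ Q hσ hn hQ
    have hQ0 : Q [] := by
      have := hQ [] (by simp) (by simp)
      rw [h0] at this
      exact this [] (by simp [pt])
    have hQ' : ∀ σ', (∀ x ∈ σ', x ∈ σ) → σ'.length ≤ m →
        All (fun τ => τ.length = σ'.length ∧ Q τ) (s σ') := fun σ' h1 h2 =>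
      (hl σ' (hσ.sub h1) h2).and (hQ σ' h1 h2)
    have hz : All (fun τ => τ.length + 1 = σ.length ∧ Q τ) (lc s (bdL σ)) :=
      (all_bdL σ).bind fun l hl' => (hQ' l hl'.2 (by omega)).mono fun t ht => ⟨by omega, ht.2⟩
    have lift : ∀ c : Ch (B × B), All (fun τ => τ.length = σ.length ∧ ∃ a b, Q a ∧ Q b ∧
        ∀ z ∈ τ, z.1 ∈ a ∧ z.2 ∈ b) c → All (fun τ : List ((B × B) × ℕ) =>
        τ.length = σ.length ∧ ∃ a b, Q a ∧ Q b ∧ ∃ t < L,
          ∀ z ∈ τ, z.1.1 ∈ a ∧ z.1.2 ∈ b ∧ (z.2 = t ∨ z.2 = t + 1))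
        (mapL (fun x => (x, 0)) c) := by
      intro c hc'
      refine hc'.mapL _ ?_
      rintro l ⟨h1, a, b, ha, hb, h2⟩
      refine ⟨by simpa using h1, a, b, ha, hb, 0, hL, fun z hz => ?_⟩
      obtain ⟨w, hw, rfl⟩ := List.mem_map.1 hz
      exact ⟨(h2 w hw).1, (h2 w hw).2, Or.inl rfl⟩
    refine All.add (lift _ (All.add ?_ ?_)) ?_
    · rw [aw_eq]
      refine All.sum _ fun i hi => ?_
      have hi' := Finset.mem_range.1 hi
      have hcut : ∀ l, (∀ x ∈ l, x ∈ σ) →
          All (fun τ => τ.length = l.length ∧ Q τ) (cut m s l) := by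
        intro l h1
        by_cases h : l.length ≤ m
        · rw [cut_le h]; exact hQ' l h1 h
        · rw [cut, if_neg h]; exact All.zero
      simp only [BB, LinearMap.compl₁₂_apply, lc_pt]
      refine ((hcut _ fun x hx => List.mem_of_mem_take hx).SH
        (hcut _ fun x hx => List.mem_of_mem_drop hx)).mono ?_
      rintro t ⟨a, b, ha, hb, e, h⟩
      refine ⟨?_, a, b, ha.2, hb.2, h⟩
      rw [ha.1, hb.1] at e
      simp at e
      omega
    · cases σ with
      | nil => exact All.smul _ (All.single ⟨rfl, [], [], hQ0, hQ0, by simp⟩)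
      | cons _ _ => simp [All.zero]
    · split_ifs with h
      · obtain ⟨a, b, ha, hb, ha', hb'⟩ := ends σ (by intro e; simp [e] at h)
        rw [ha, hb]
        refine All.add (lift _ ?_) ?_
        · refine (hz.SH (hQ' ([a] ++ [b]) (by simp [ha', hb']) (by simpa using hm))).mono ?_
          rintro t ⟨u, v, hu, hv, e, h'⟩
          refine ⟨?_, u, v, hu.2, hv.2, h'⟩
          have := hv.1
          simp at this
          omega
        · refine (((hQ' [a] (by simp [ha']) (by simp; omega)).SH hz).SH (all_path L)).mono ?_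
          rintro τ ⟨w, p, ⟨u, v, hu, hv, e, h1⟩, ⟨t, ht, rfl⟩, e', h2⟩
          refine ⟨?_, u, v, hu.2, hv.2, t, ht, fun z hz' => ⟨(h1 _ (h2 z hz').1).1,
            (h1 _ (h2 z hz').1).2, by simpa using (h2 z hz').2⟩⟩
          have := hu.1
          simp at this e'
          omega
      · exact All.zero

end

end Pool.Agent.Lib.MP_233c29_an
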