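import Pool.Agent.Lib.MP_233c29_an.StageD

namespace Pool.Agent.Lib.MP_233c29_an

noncomputable section

open Classical

structure IsM {α : Type} (d : α → α → ℕ) : Prop where
  self : ∀ x, d x x = 0
  comm : ∀ x y, d x y = d y x
  tri : ∀ x y z, d x z ≤ d x y + d y z
  eq : ∀ x y, d x y = 0 → x = y

namespace Gr

def d (A : Gr) (v w : A.V) : ℕ := Nat.find (A.conn v w)

variable {A : Gr}

lemma d_le {v w : A.V} {k : ℕ} (h : Rch A.adj k v w) : A.d v w ≤ k := Nat.find_min' _ h

lemma rch {v w : A.V} {k : ℕ} (h : A.d v w ≤ k) : Rch A.adj k v w :=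
  (Nat.find_spec (A.conn v w)).le (A.refl _) h

lemma isM (A : Gr) : IsM A.d where
  self x := Nat.le_zero.1 (d_le (k := 0) rfl)
  comm _ _ := le_antisymm (d_le ((rch le_rfl).symm A.symm)) (d_le ((rch le_rfl).symm A.symm))
  tri _ _ _ := d_le ((rch le_rfl).trans (rch le_rfl))
  eq _ _ h := rch (k := 0) h.le

def one : Gr := ⟨Unit, inferInstance, fun _ _ => True, fun _ => trivial, fun _ _ _ => trivial,
  inferInstance, fun _ _ => ⟨0, rfl⟩⟩

def iadj (A : Gr) (M : ℕ) (x y : A.V × Fin (M + 1)) : Prop :=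
  A.adj x.1 y.1 ∧ x.2.1 ≤ y.2.1 + 1 ∧ y.2.1 ≤ x.2.1 + 1

lemma iadj_rch (M : ℕ) {v w : A.V} {k : ℕ} (h : Rch A.adj k v w) (i j : Fin (M + 1)) :
    Rch (A.iadj M) (k + 2 * M) (v, i) (w, j) := by
  have dn : ∀ i : Fin (M + 1), Rch (A.iadj M) M (w, i) (w, 0) := fun i => by
    have := (Rch.nat (R := fun a b => a = b + 1) i.1 fun _ _ => rfl).map (S := A.iadj M)
      (fun t => (w, ⟨min t M, by omega⟩)) fun a b h =>
        ⟨A.refl _, by simp only; omega, by simp only; omega⟩
    have e : (⟨min i.1 M, by omega⟩ : Fin (M + 1)) = i := Fin.ext (by simp only; omega)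
    simp only [e, Nat.zero_min] at this
    exact this.le ⟨A.refl _, by omega, by omega⟩ (by omega)
  have := ((h.map (S := A.iadj M) (fun x => (x, i))
    fun a b h => ⟨h, by simp, by simp⟩).trans (dn i)).trans
    ((dn j).symm fun x y h => ⟨A.symm _ _ h.1, h.2.2, h.2.1⟩)
  rwa [add_assoc, ← two_mul] at this

def I (A : Gr) (M : ℕ) : Gr where
  V := A.V × Fin (M + 1)
  fin := have := A.fin; inferInstance
  adj := A.iadj M
  refl _ := ⟨A.refl _, by omega, by omega⟩
  symm _ _ h := ⟨A.symm _ _ h.1, h.2.2, h.2.1⟩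
  ne := have := A.ne; inferInstance
  conn x y := (A.conn x.1 y.1).elim fun _ h => ⟨_, iadj_rch M h x.2 y.2⟩

lemma I_deg {N : ℕ} (h : Deg A.adj N) (M : ℕ) : Deg (A.I M).adj (N * 3) := by
  obtain ⟨i, hi⟩ := h
  have := Deg.of_type (R := A.iadj M) (T := Fin N × Fin 3)
    (fun x y => (i x.1 y.1, ⟨y.2.1 % 3, by omega⟩)) fun x y z h1 h2 e => by
      simp only [Prod.mk.injEq, Fin.mk.injEq] at e
      refine Prod.ext (hi _ _ _ h1.1 h2.1 e.1) (Fin.ext ?_)
      have := h1.2; have := h2.2; omega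
  rw [Fintype.card_prod, Fintype.card_fin, Fintype.card_fin] at this
  exact this

end Gr

namespace Stage

variable {A : Gr} {m L l E N : ℕ} (T : Stage A m L l E N)

lemma rch {k : ℕ} {y z : T.B} {b c : Bits m} (h : Rch A.adj k (T.F y b) (T.F z c)) :
    Rch T.adj ((k + 2) * E) y z := by
  have h1 := fun y b => (T.C1 Set.univ y b (by simp)).map (S := T.adj) id fun _ _ h => h.1
  have h2 := h.mul (S := T.adj) T.p fun v w h =>
    (T.C2 Set.univ v w trivial trivial h).map id fun _ _ h => h.1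
  exact (((h1 y b).trans h2).trans ((h1 z c).symm T.symm)).le (T.refl _) (by nlinarith)

def gr : Gr where
  V := T.B
  fin := T.fin
  adj := T.adj
  refl := T.refl
  symm := T.symm
  ne := A.ne.map T.p
  conn y z := (A.conn (T.F y default) (T.F z default)).elim fun _ h => ⟨_, T.rch h⟩

lemma cd_ex (u v : T.B × Bits m) : ∃ k, Rch T.cadj k u v ∨ T.gr.d u.1 v.1 + L ≤ k :=
  ⟨_, Or.inr le_rfl⟩

def cd (u v : T.B × Bits m) : ℕ := Nat.find (T.cd_ex u v)

variable {T}

lemma cd_le {u v : T.B × Bits m} {k : ℕ} (h : Rch T.cadj k u v) : T.cd u v ≤ k :=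
  Nat.find_min' _ (Or.inl h)

lemma cd_le' (u v : T.B × Bits m) : T.cd u v ≤ T.gr.d u.1 v.1 + L :=
  Nat.find_min' _ (Or.inr le_rfl)

lemma cd_rch {u v : T.B × Bits m} {k : ℕ} (h : T.cd u v ≤ k) (hk : k < L) : Rch T.cadj k u v := by
  rcases Nat.find_spec (T.cd_ex u v) with h1 | h1
  · exact h1.le (T.crefl _) h
  · have : T.gr.d u.1 v.1 + L ≤ T.cd u v := h1
    omega

lemma d_le_cd (u v : T.B × Bits m) : T.gr.d u.1 v.1 ≤ T.cd u v := by
  rcases Nat.find_spec (T.cd_ex u v) with h1 | h1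
  · exact Gr.d_le (A := T.gr) (h1.map Prod.fst T.c1)
  · exact le_trans (Nat.le_add_right _ _) h1

lemma cd_isM (hL : 0 < L) : IsM T.cd where
  self x := Nat.le_zero.1 (cd_le (k := 0) rfl)
  comm := by
    have : ∀ x y, T.cd x y ≤ T.cd y x := fun x y =>
      Nat.find_min' _ ((Nat.find_spec (T.cd_ex y x)).imp (Rch.symm T.csymm)
        fun h => by rwa [T.gr.isM.comm])
    exact fun x y => le_antisymm (this x y) (this y x)
  tri x y z := by
    have := T.gr.isM.tri x.1 y.1 z.1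
    have := cd_le' x z
    have := d_le_cd x y
    have := d_le_cd y z
    rcases Nat.find_spec (T.cd_ex x y) with h1 | h1
    · rcases Nat.find_spec (T.cd_ex y z) with h2 | h2
      · exact cd_le (h1.trans h2)
      · have : T.gr.d y.1 z.1 + L ≤ T.cd y z := h2
        omega
    · have : T.gr.d x.1 y.1 + L ≤ T.cd x y := h1
      omega
  eq _ _ h := cd_rch (k := 0) h.le hL

lemma sep {y : T.B} {b c : Bits m} {k : ℕ} (h : T.cd (y, b) (y, c) ≤ k) (hk : 2 * k < L) :
    b = c := by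
  by_contra hne
  have := T.Kdev k _ _ _ _ (cd_rch h (by omega)) hne
  rw [T.Kdiag, norm_one, le_div_iff₀ (by exact_mod_cast (by omega : 0 < L))] at this
  have : L ≤ 2 * k := by exact_mod_cast (by simpa using this : (L : ℝ) ≤ 2 * k)
  omega

end Stage

def CC : ℕ → ℕ
  | 0 => 1
  | j + 1 => CC j * Fintype.card (Bits j)

lemma CC_pos (j : ℕ) : 0 < CC j := by
  induction j with
  | zero => exact one_pos
  | succ j ih => exact mul_pos ih Fintype.card_pos

def tau (j : ℕ) : ℝ := 1 / ((j + 1) * CC j)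

lemma tau_pos (j : ℕ) : 0 < tau j := by
  have := CC_pos j
  unfold tau
  positivity

lemma exists_L (j : ℕ) : ∃ L : ℕ, 2 * j + 6 < L ∧
    Fintype.card (Bits j) * (2 * (2 * j) / L * (1 + tau (j + 1))) + tau (j + 1) ≤ tau j := by
  have h : tau (j + 1) < tau j := by
    have h1 : (0 : ℝ) < CC j := by exact_mod_cast CC_pos j
    have h2 : (1 : ℝ) ≤ Fintype.card (Bits j) := by exact_mod_cast Fintype.card_pos
    unfold tau
    apply one_div_lt_one_div_of_lt (by positivity)
    rw [CC]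
    push_cast
    have : (CC j : ℝ) ≤ CC j * Fintype.card (Bits j) := le_mul_of_one_le_right h1.le h2
    nlinarith
  obtain ⟨L, hL⟩ := exists_nat_gt (max (2 * j + 6 : ℝ)
    (Fintype.card (Bits j) * (2 * (2 * j) * (1 + tau (j + 1))) / (tau j - tau (j + 1))))
  have h1 := (le_max_left _ _).trans_lt hL
  have h2 := (le_max_right _ _).trans_lt hL
  have h3 : (0 : ℝ) < L := lt_trans (by positivity) h1
  refine ⟨L, by exact_mod_cast h1, ?_⟩
  rw [div_lt_iff₀ (by linarith)] at h2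
  rw [← le_sub_iff_add_le, div_mul_eq_mul_div, ← mul_div_assoc, div_le_iff₀ h3]
  linarith

def LL (j : ℕ) : ℕ := (exists_L j).choose

lemma LL_gt (j : ℕ) : 2 * j + 6 < LL j := (exists_L j).choose_spec.1

def EE (j : ℕ) : ℕ := (stage_exists j (LL j) j (Nf (j + 1) * 3) (by have := LL_gt j; omega)).choose

def Kc : ℕ → ℕ
  | 0 => 1
  | j + 1 => Kc j * EE j

def SS : ℕ → ℕ
  | 0 => 0
  | j + 1 => SS j + Kc j * ((2 * (2 * (j + SS j) + 1) + 3) * EE j)

def MM (j : ℕ) : ℕ := 2 * (j + SS j) + 1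

def St (j : ℕ) (A : {A : Gr // Deg A.adj (Nf (j + 1))}) :
    Stage (A.1.I (MM j)) j (LL j) j (EE j) (Nf j) :=
  Classical.choice ((stage_exists j (LL j) j (Nf (j + 1) * 3)
    (by have := LL_gt j; omega)).choose_spec _ (Gr.I_deg A.2 _))

lemma Nf_pos (j : ℕ) : 0 < Nf j := by
  induction j with
  | zero => simp [Nf]
  | succ j ih => simp [Nf, ih]

def GG : ℕ → (j : ℕ) → {A : Gr // Deg A.adj (Nf j)}
  | 0, j => ⟨Gr.one, fun _ _ => ⟨0, Nf_pos j⟩, fun _ _ _ _ _ _ => rfl⟩
  | h + 1, j => ⟨(St j (GG h (j + 1))).gr, (St j (GG h (j + 1))).deg⟩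

abbrev G (h j : ℕ) : Gr := (GG h j).1

abbrev TT (h j : ℕ) := St j (GG h (j + 1))

def Fib : ℕ → ℕ → Type
  | 0, _ => Unit
  | h + 1, j => Bits j × Fib h (j + 1)

instance fibFin : ∀ h j, Fintype (Fib h j)
  | 0, _ => inferInstanceAs (Fintype Unit)
  | h + 1, j => @instFintypeProd (Bits j) (Fib h (j + 1)) _ (fibFin h (j + 1))

instance fibInh : ∀ h j, Inhabited (Fib h j)
  | 0, _ => ⟨()⟩
  | h + 1, j => ⟨(default, (fibInh h (j + 1)).default)⟩

lemma sum_fib {h j : ℕ} {M : Type} [AddCommMonoid M] (f : Fib (h + 1) j → M) :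
    ∑ x, f x = ∑ b : Bits j, ∑ c : Fib h (j + 1), f (b, c) :=
  Fintype.sum_prod_type (α₁ := Bits j) (α₂ := Fib h (j + 1)) f

def lo {h j : ℕ} (u : (G (h + 1) j).V × Fib (h + 1) j) : (TT h j).B × Bits j := (u.1, u.2.1)

def hi {h j : ℕ} (u : (G (h + 1) j).V × Fib (h + 1) j) : (G h (j + 1)).V × Fib h (j + 1) :=
  (((TT h j).F u.1 u.2.1).1, u.2.2)

def DD : ∀ h j, (G h j).V × Fib h j → (G h j).V × Fib h j → ℕ
  | 0, _, _, _ => 0
  | h + 1, j, u, v => max ((TT h j).cd (lo u) (lo v)) (DD h (j + 1) (hi u) (hi v))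

def UU : ∀ h j, (G h j).V → Fib h j → Fib h j → ℂ
  | 0, _, _, _, _ => 1
  | h + 1, j, z, b, c => (TT h j).U z b.1 c.1 * UU h (j + 1) (hi (z, b)).1 b.2 c.2

lemma DD_isM (h j : ℕ) : IsM (DD h j) := by
  induction h generalizing j with
  | zero => exact ⟨fun _ => rfl, fun _ _ => rfl, fun _ _ _ => le_rfl,
      fun _ _ _ => Prod.ext rfl rfl⟩
  | succ h ih =>
    have m := Stage.cd_isM (T := TT h j) (by have := LL_gt j; omega)
    have m' := ih (j + 1)
    refine ⟨fun x => by simp [DD, m.self, m'.self], fun x y => by rw [DD, DD, m.comm, m'.comm],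
      fun x y z => ?_, fun x y e => ?_⟩
    · have := m.tri (lo x) (lo y) (lo z)
      have := m'.tri (hi x) (hi y) (hi z)
      simp only [DD]
      omega
    · simp only [DD, Nat.max_eq_zero_iff] at e
      have h1 := Prod.mk.inj (m.eq _ _ e.1)
      exact Prod.ext h1.1 (Prod.ext h1.2 (Prod.mk.inj (m'.eq _ _ e.2)).2)

lemma d_le_DD (h j : ℕ) (u v) : (G h j).d u.1 v.1 ≤ DD h j u v := by
  cases h with
  | zero => exact Gr.d_le (k := 0) rfl
  | succ h => exact (Stage.d_le_cd (lo u) (lo v)).trans (le_max_left _ _)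

lemma UU_orth (h j : ℕ) (z) (c c' : Fib h j) :
    ∑ b, (starRingEnd ℂ) (UU h j z b c) * UU h j z b c' = if c = c' then 1 else 0 := by
  induction h generalizing j with
  | zero => simp [UU, Fib]; rfl
  | succ h ih =>
    obtain ⟨c1, c2⟩ := c
    obtain ⟨d1, d2⟩ := c'
    have h4 : (@Eq (Fib (h + 1) j) (c1, c2) (d1, d2)) = (c1 = d1 ∧ c2 = d2) :=
      Prod.mk.injEq _ _ _ _
    rw [sum_fib]
    have : ∀ b : Bits j, ∑ c : Fib h (j + 1), (starRingEnd ℂ) (UU (h + 1) j z (b, c) (c1, c2)) *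
        UU (h + 1) j z (b, c) (d1, d2) = ((starRingEnd ℂ) ((TT h j).U z b c1) * (TT h j).U z b d1) *
        if c2 = d2 then 1 else 0 := by
      intro b
      rw [← ih (j + 1) ((TT h j).F z b).1 c2 d2, Finset.mul_sum]
      refine Finset.sum_congr rfl fun c _ => ?_
      simp only [UU, hi, map_mul]
      ring
    simp only [this, ← Finset.sum_mul, (TT h j).orth, h4]
    by_cases a : c1 = d1 <;> by_cases b : c2 = d2 <;> simp [a, b]

lemma Ker_UU {h j : ℕ} (u v : (G (h + 1) j).V × Fib (h + 1) j) : Ker (UU (h + 1) j) u v =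
    Ker (TT h j).U (lo u) (lo v) * Ker (UU h (j + 1)) (hi u) (hi v) := by
  simp only [Ker, sum_fib, Finset.sum_mul_sum]
  refine Finset.sum_congr rfl fun b _ => Finset.sum_congr rfl fun c _ => ?_
  simp only [UU, hi, lo, map_mul]
  ring

lemma Ker_le (h j : ℕ) (u v) : ‖Ker (UU h j) u v‖ ≤ 1 := by
  induction h generalizing j with
  | zero => simp [Ker, UU, Fib]
  | succ h ih =>
    rw [Ker_UU, norm_mul]
    exact mul_le_one₀ ((TT h j).Kle _ _) (norm_nonneg _) (ih _ _ _)

lemma hi_rch {h j k : ℕ} {u v : (TT h j).B × Bits j} (H : Rch (TT h j).cadj k u v) :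
    Rch (G h (j + 1)).adj k ((TT h j).F u.1 u.2).1 ((TT h j).F v.1 v.2).1 :=
  H.map (fun u => ((TT h j).F u.1 u.2).1) fun u v e => ((TT h j).c2 u v e).1

lemma tail_est (h j k : ℕ) (u : (G h j).V × Fib h j) (z) (H : Rch (G h j).adj k u.1 z)
    (hk : k ≤ 2 * j) : ∃ b, DD h j u (z, b) ≤ k ∧
      ∑ c, (if c = b then 0 else ‖Ker (UU h j) u (z, c)‖) ≤ tau j := by
  induction h generalizing j k with
  | zero => exact ⟨(), Nat.zero_le _, by simpa [Fib] using (tau_pos j).le⟩
  | succ h ih =>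
    obtain ⟨b, hb⟩ := Rch.lift (TT h j).lift H u.2.1
    obtain ⟨b', h1, h2⟩ := ih (j + 1) k (hi u) _ (hi_rch hb) (by omega)
    refine ⟨(b, b'), max_le (Stage.cd_le hb) h1, ?_⟩
    have key : ∀ a : Bits j, ∑ c : Fib h (j + 1),
        (if @Eq (Fib (h + 1) j) (a, c) (b, b') then 0 else ‖Ker (UU (h + 1) j) u (z, (a, c))‖) ≤
        2 * (2 * j) / LL j * (1 + tau (j + 1)) + if a = b then tau (j + 1) else 0 := by
      intro a
      have t0 := tau_pos (j + 1)
      by_cases e : a = b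
      · subst e
        rw [if_pos rfl]
        refine le_trans (Finset.sum_le_sum fun c _ => ?_) (h2.trans (le_add_of_nonneg_left
          (by positivity)))
        by_cases e : c = b'
        · simp [e]
        · have e2 : ¬ @Eq (Fib (h + 1) j) (a, c) (a, b') := fun e' => e (Prod.mk.inj e').2
          rw [if_neg e, if_neg e2, Ker_UU, norm_mul]
          exact mul_le_of_le_one_left (norm_nonneg _) ((TT h j).Kle _ _)
      · obtain ⟨c0, -, h4⟩ := ih (j + 1) (k + 1) (hi u) ((TT h j).F z a).1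
          ⟨_, hi_rch hb, ((TT h j).near z b a).1⟩ (by omega)
        have h5 : ∑ c, ‖Ker (UU h (j + 1)) (hi u) (((TT h j).F z a).1, c)‖ ≤ 1 + tau (j + 1) := by
          refine le_trans (Finset.sum_le_sum (g := fun c => (if c = c0 then 1 else 0) +
            (if c = c0 then 0 else ‖Ker (UU h (j + 1)) (hi u) (((TT h j).F z a).1, c)‖))
            fun c _ => ?_) ?_
          · split_ifs
            · rw [add_zero]; exact Ker_le _ _ _ _
            · rw [zero_add]
          · rw [Finset.sum_add_distrib, Finset.sum_ite_eq', if_pos (Finset.mem_univ _)]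
            linarith
        have h6 : ‖Ker (TT h j).U (lo u) (z, a)‖ ≤ 2 * (2 * j) / LL j := by
          refine ((TT h j).Kdev k _ _ _ _ hb e).trans ?_
          gcongr
          exact_mod_cast hk
        rw [if_neg e, add_zero]
        refine le_trans (Finset.sum_le_sum fun c _ => ?_)
          ((Finset.mul_sum _ _ _).symm.le.trans (mul_le_mul h6 h5
            (Finset.sum_nonneg fun _ _ => norm_nonneg _) (by positivity)))
        have e2 : ¬ @Eq (Fib (h + 1) j) (a, c) (b, b') := fun e' => e (Prod.mk.inj e').1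
        rw [if_neg e2, Ker_UU, norm_mul]
        rfl
    rw [sum_fib]
    refine (Finset.sum_le_sum fun a _ => key a).trans ?_
    rw [Finset.sum_add_distrib, Finset.sum_ite_eq', if_pos (Finset.mem_univ _), Finset.sum_const,
      nsmul_eq_mul, Finset.card_univ]
    exact (exists_L j).choose_spec.2

lemma far_est (r J S : ℕ) (hr : r ≤ J) (hS : ∀ i ≤ J, r + J + LL i ≤ S) (d j h k : ℕ)
    (hd : j + d = J) (u : (G h j).V × Fib h j) (z) (H : Rch (G h j).adj k u.1 z)
    (hk : k ≤ r + j) :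
    CC j * ∑ c, (if S < DD h j u (z, c) then ‖Ker (UU h j) u (z, c)‖ else 0) ≤ CC J * tau J := by
  induction d generalizing j h k with
  | zero =>
    obtain rfl : j = J := hd
    obtain ⟨b, h1, h2⟩ := tail_est h j k u z H (by omega)
    refine mul_le_mul_of_nonneg_left (le_trans (Finset.sum_le_sum fun c _ => ?_) h2) (by positivity)
    have := hS j le_rfl
    by_cases e : c = b
    · rw [if_pos e, e, if_neg (by omega)]
    · rw [if_neg e]
      split_ifs
      exacts [le_rfl, norm_nonneg _]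
  | succ d ih =>
    cases h with
    | zero =>
      simp only [DD, Nat.not_lt_zero, if_false, Finset.sum_const_zero, mul_zero]
      exact mul_nonneg (by positivity) (tau_pos J).le
    | succ h =>
      obtain ⟨b, hb⟩ := Rch.lift (TT h j).lift H u.2.1
      have key : ∀ a : Bits j, CC (j + 1) * ∑ c : Fib h (j + 1),
          (if S < DD (h + 1) j u (z, (a, c)) then ‖Ker (UU (h + 1) j) u (z, (a, c))‖ else 0) ≤
          CC J * tau J := by
        intro a
        refine le_trans (mul_le_mul_of_nonneg_left (Finset.sum_le_sum fun c _ => ?_)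
          (by positivity)) (ih (j + 1) h (k + 1) (by omega) (hi u) ((TT h j).F z a).1
          ⟨_, hi_rch hb, ((TT h j).near z b a).1⟩ (by omega))
        have h1 : (TT h j).cd (lo u) (z, a) ≤ (TT h j).gr.d u.1 z + LL j :=
          Stage.cd_le' (lo u) (z, a)
        have h2 : (TT h j).gr.d u.1 z ≤ k := Gr.d_le (A := (TT h j).gr) H
        have h3 := hS j (by omega)
        by_cases e : S < DD (h + 1) j u (z, (a, c))
        · have e' : S < max ((TT h j).cd (lo u) (z, a))
            (DD h (j + 1) (hi u) (((TT h j).F z a).1, c)) := e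
          rw [if_pos e, if_pos (by omega), Ker_UU, norm_mul]
          exact mul_le_of_le_one_left (norm_nonneg _) ((TT h j).Kle _ _)
        · rw [if_neg e]
          split_ifs
          exacts [norm_nonneg _, le_rfl]
      have h1 := Finset.sum_le_sum fun a (_ : a ∈ Finset.univ) => key a
      rw [← Finset.mul_sum, Finset.sum_const, nsmul_eq_mul, Finset.card_univ, CC] at h1
      have h2 : (0 : ℝ) < Fintype.card (Bits j) := by exact_mod_cast Fintype.card_pos
      rw [sum_fib]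
      refine le_of_mul_le_mul_left (le_trans (le_of_eq ?_) h1) h2
      push_cast
      ring

theorem kernel_est (r : ℕ) (ε : ℝ) (hε : 0 < ε) : ∃ S : ℕ, ∀ h (u : (G h 0).V × Fib h 0) z,
    (G h 0).d u.1 z ≤ r →
    ∑ c, (if S < DD h 0 u (z, c) then ‖Ker (UU h 0) u (z, c)‖ else 0) ≤ ε := by
  obtain ⟨J, hJ⟩ := exists_nat_ge (max (r : ℝ) (1 / ε))
  have h1 : r ≤ J := by exact_mod_cast (le_max_left _ _).trans hJ
  have h2 := (le_max_right _ _).trans hJ
  refine ⟨r + J + ∑ i ∈ Finset.range (J + 1), LL i, fun h u z H => ?_⟩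
  have := far_est r J _ h1 (fun i hi => Nat.add_le_add_left (Finset.single_le_sum
    (f := LL) (fun _ _ => Nat.zero_le _) (Finset.mem_range.2 (Nat.lt_succ_of_le hi))) _)
    J 0 h r (zero_add J) u z (Gr.rch H) le_rfl
  have h3 : (0 : ℝ) < CC J := by exact_mod_cast CC_pos J
  have h4 : CC J * tau J = 1 / (J + 1) := by
    unfold tau
    field_simp
  rw [h4, CC, Nat.cast_one, one_mul] at this
  refine this.trans ?_
  rw [div_le_iff₀ hε] at h2
  rw [div_le_iff₀ (by positivity)]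
  nlinarith

def tr : ∀ d h j, Fib h j → Fib d j
  | 0, _, _, _ => ()
  | _ + 1, 0, _, _ => default
  | d + 1, h + 1, j, b => (b.1, tr d h (j + 1) b.2)

lemma DD_sep (d h j k : ℕ) (z) (b c : Fib h j) (H : DD h j (z, b) (z, c) ≤ k)
    (hk : k ≤ j + d + 3) (e : tr d h j b = tr d h j c) : b = c := by
  induction h generalizing d j with
  | zero => rfl
  | succ h ih =>
    obtain ⟨b1, b2⟩ := b
    obtain ⟨c1, c2⟩ := c
    have H1 := (le_max_left _ _).trans H
    have H2 := (le_max_right _ _).trans H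
    cases d with
    | zero =>
      obtain rfl : b1 = c1 := Stage.sep H1 (by have := LL_gt j; omega)
      rw [ih 0 (j + 1) _ b2 c2 H2 (by omega) rfl]
    | succ d =>
      obtain rfl : b1 = c1 := (Prod.mk.inj e).1
      rw [ih d (j + 1) _ b2 c2 H2 (by omega) (Prod.mk.inj e).2]

theorem deg_d (r h : ℕ) : Deg (fun x y => (G h 0).d x y ≤ r) (Nf 0 ^ r) := by
  obtain ⟨i, hi⟩ := (GG h 0).2.rch r
  exact ⟨i, fun v w w' h1 h2 => hi v w w' (Gr.rch h1) (Gr.rch h2)⟩

theorem deg_DD (r : ℕ) : ∃ N, ∀ h, Deg (fun u v => DD h 0 u v ≤ r) N := by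
  refine ⟨Fintype.card (Fin (Nf 0 ^ r) × Fib (2 * r) 0), fun h => ?_⟩
  obtain ⟨i, hi⟩ := deg_d r h
  refine Deg.of_type (fun u v => (i u.1 v.1, tr (2 * r) h 0 v.2)) ?_
  rintro u ⟨y, b⟩ ⟨z, c⟩ h1 h2 e
  obtain rfl : y = z := hi _ _ _ ((d_le_DD _ _ _ _).trans h1) ((d_le_DD _ _ _ _).trans h2)
    (Prod.mk.inj e).1
  have m := DD_isM h 0
  have := m.tri (y, b) u (y, c)
  rw [m.comm _ u] at this
  rw [DD_sep (2 * r) h 0 (2 * r) y b c (by omega) (by omega) (Prod.mk.inj e).2]

theorem asdim (r d j : ℕ) (hr : r ≤ j + d) : ∃ B : ℕ, ∀ h, d < h →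
    ∃ (col : (G h j).V × Fib h j → Bool) (rel : (G h j).V × Fib h j → (G h j).V × Fib h j → Prop),
      Equivalence rel ∧ (∀ u v, col u = col v → DD h j u v ≤ r → rel u v) ∧
      ∀ u v, rel u v → DD h j u v ≤ B ∧ Rch (G h j).adj B u.1 v.1 := by
  induction d generalizing j with
  | zero =>
    refine ⟨3 * EE j + LL j + 1, fun h hh => ?_⟩
    obtain ⟨h, rfl⟩ : ∃ h', h = h' + 1 := ⟨h - 1, by omega⟩
    have m := DD_isM h (j + 1)
    have hL := LL_gt j
    have dich : ∀ u v : (G (h + 1) j).V × Fib (h + 1) j,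
        (TT h j).col (lo u) = (TT h j).col (lo v) → (TT h j).lab (lo u) = (TT h j).lab (lo v) →
        DD h (j + 1) (hi u) (hi v) ≤ j + 3 → DD h (j + 1) (hi u) (hi v) ≤ 1 := by
      intro u v h1 h2 h3
      obtain ⟨b, h4, -⟩ := tail_est h (j + 1) 1 (hi u) (hi v).1
        (Rch.one ((TT h j).sep2 _ _ h1 h2).1) (by omega)
      have := m.tri ((hi v).1, b) (hi u) (hi v)
      rw [m.comm _ (hi u)] at this
      have h5 : DD h (j + 1) ((hi v).1, b) (hi v) ≤ j + 4 := by omega
      rwa [DD_sep 0 h (j + 1) (j + 4) (hi v).1 b (hi v).2 h5 (by omega) rfl] at h4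
    refine ⟨fun u => (TT h j).col (lo u), fun u v => (TT h j).col (lo u) = (TT h j).col (lo v) ∧
      (TT h j).lab (lo u) = (TT h j).lab (lo v) ∧ DD h (j + 1) (hi u) (hi v) ≤ 1,
      ⟨fun u => ⟨rfl, rfl, by simp [m.self]⟩, fun H => ⟨H.1.symm, H.2.1.symm, m.comm _ _ ▸ H.2.2⟩,
        fun {u v w} H H' => ⟨H.1.trans H'.1, H.2.1.trans H'.2.1, dich _ _ (H.1.trans H'.1)
          (H.2.1.trans H'.2.1) ?_⟩⟩, fun u v h1 h2 => ?_, fun u v H => ?_⟩
    · have := m.tri (hi u) (hi v) (hi w)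
      have := H.2.2
      have := H'.2.2
      omega
    · have H1 := (le_max_left _ _).trans h2
      have H2 := (le_max_right _ _).trans h2
      have h3 := (TT h j).sep1 _ _ (Stage.cd_rch (k := j) (by omega) (by omega)) h1
      exact ⟨h1, h3, dich _ _ h1 h3 (by omega)⟩
    · have h1 := (TT h j).rch (Rch.one ((TT h j).sep2 _ _ H.1 H.2.1))
      have h2 := Gr.d_le (A := (TT h j).gr) h1
      have h3 := Stage.cd_le' (lo u) (lo v)
      exact ⟨max_le (by omega) (by have := H.2.2; omega), h1.le ((TT h j).refl _) (by omega)⟩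
  | succ d ih =>
    obtain ⟨B, hB⟩ := ih (j + 1) (by omega)
    refine ⟨(B + 2 * MM j + 2) * EE j + LL j + B, fun h hh => ?_⟩
    obtain ⟨h, rfl⟩ : ∃ h', h = h' + 1 := ⟨h - 1, by omega⟩
    obtain ⟨col, rel, h1, h2, h3⟩ := hB h (by omega)
    refine ⟨fun u => col (hi u), fun u v => rel (hi u) (hi v),
      ⟨fun u => h1.1 _, h1.2, h1.3⟩, fun u v a b => h2 _ _ a ((le_max_right _ _).trans b),
      fun u v H => ?_⟩
    obtain ⟨h4, h5⟩ := h3 _ _ H
    have h6 := (TT h j).rch (y := u.1) (z := v.1) (b := u.2.1) (c := v.2.1)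
      (Gr.iadj_rch (MM j) h5 _ _)
    have h7 := Gr.d_le (A := (TT h j).gr) h6
    have h8 : (TT h j).cd (lo u) (lo v) ≤ (TT h j).gr.d u.1 v.1 + LL j := Stage.cd_le' _ _
    exact ⟨max_le (by omega) (by omega), h6.le ((TT h j).refl _) (by omega)⟩

end

end Pool.Agent.Lib.MP_233c29_an
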